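import Mathlib

/-!
# Transversal `F`-factors in a system intersected with one random hypergraph (MP_5010fd_co)

Definitions shared by all modules.
-/

namespace Pool.Agent.TFactor

open Finset

/-! ## binomial random subsets of a finite type -/

/-- the probability that the binomial random subset (each element kept with probability `p`)
equals `W`. -/
noncomputable def bw {X : Type} [Fintype X] (p : ℝ) (W : Finset X) : ℝ :=
  p ^ W.card * (1 - p) ^ (Fintype.card X - W.card)

open Classical in
/-- the probability that the binomial random subset satisfies `P`. -/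
noncomputable def bP {X : Type} [Fintype X] (p : ℝ) (P : Finset X → Prop) : ℝ :=
  ∑ W : Finset X, if P W then bw p W else 0

/-! ## hypergraph systems -/

/-- every set of `d` vertices is contained in at least `x` members of `H`. -/
def DegGE {V : Type} [DecidableEq V] (d : ℕ) (x : ℝ) (H : Finset (Finset V)) : Prop :=
  ∀ S : Finset V, S.card = d → x ≤ ((H.filter (fun e => S ⊆ e)).card : ℝ)

/-- there is a transversal `F`-factor of the system `H` all of whose `n` labelled copies of `F`
belong to `T`: the copies `φ 0, …, φ (n - 1)` use every vertex exactly once, and the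
`t * n` edges are assigned bijectively to the members of the system. -/
def UTF {V : Type} {s : ℕ} (F : Finset (Finset (Fin s))) (t n : ℕ)
    (H : Fin (t * n) → Finset (Finset V)) (T : Finset (Fin s ↪ V)) : Prop :=
  ∃ φ : Fin n → (Fin s ↪ V), (∀ i, φ i ∈ T) ∧
    Function.Bijective (fun a : Fin n × Fin s => φ a.1 a.2) ∧
    ∃ c : Fin n × {e // e ∈ F} → Fin (t * n), Function.Bijective c ∧
      ∀ i e, (e.1).map (φ i) ∈ H (c (i, e))

/-- the system `H` has a transversal `F`-factor. -/
def HasTF {V : Type} {s : ℕ} (F : Finset (Finset (Fin s))) (t n : ℕ)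
    (H : Fin (t * n) → Finset (Finset V)) : Prop :=
  ∃ φ : Fin n → (Fin s ↪ V),
    Function.Bijective (fun a : Fin n × Fin s => φ a.1 a.2) ∧
    ∃ c : Fin n × {e // e ∈ F} → Fin (t * n), Function.Bijective c ∧
      ∀ i e, (e.1).map (φ i) ∈ H (c (i, e))

/-- `F` is strictly `1`-balanced: every proper subgraph with at least two vertices has
smaller `1`-density. -/
def StrictBal {s : ℕ} (F : Finset (Finset (Fin s))) : Prop :=
  ∀ (V' : Finset (Fin s)) (E' : Finset (Finset (Fin s))), 2 ≤ V'.card → E' ⊆ F →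
    (∀ e ∈ E', e ⊆ V') → (V' ≠ univ ∨ E' ≠ F) →
    (E'.card : ℝ) / ((V'.card : ℝ) - 1) < (F.card : ℝ) / ((s : ℝ) - 1)

/-- the set of all `δ ≥ 0` such that for every `α > 0` and all large `n`, every `k`-graph system
on `s * n` vertices with minimum `d`-degree at least `(δ + α) * C(s n - d, k - d)` has a
transversal `F`-factor. -/
def ThrSet (k s t d : ℕ) (F : Finset (Finset (Fin s))) : Set ℝ :=
  {δ | 0 ≤ δ ∧ ∀ α : ℝ, 0 < α → ∃ n0 : ℕ, ∀ n ≥ n0,
    ∀ H : Fin (t * n) → Finset (Finset (Fin (s * n))),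
      (∀ i, ∀ e ∈ H i, e.card = k) →
      (∀ i, DegGE d ((δ + α) * ((s * n - d).choose (k - d) : ℝ)) (H i)) → HasTF F t n H}

/-- the threshold `δ^T_{F,d}`. -/
noncomputable def deltaT (k s t d : ℕ) (F : Finset (Finset (Fin s))) : ℝ :=
  sInf (ThrSet k s t d F)

open Classical in
/-- the probability that the binomial random `k`-graph on the vertex set `V`
satisfies `P`. -/
noncomputable def probG {V : Type} [Fintype V] (k : ℕ) (p : ℝ)
    (P : Finset (Finset V) → Prop) : ℝ :=
  ∑ G ∈ (powersetCard k (univ : Finset V)).powerset,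
    if P G then
      p ^ G.card * (1 - p) ^ ((powersetCard k (univ : Finset V)).card - G.card) else 0

/-! ## auxiliary definitions used in the proof -/

/-- `μ` is a subprobability measure on finite sets, all of size at most `r`, which is
`q`-spread. -/
def IsSpread {X : Type} [Fintype X] [DecidableEq X] (q : ℝ) (r : ℕ) (μ : Finset X → ℝ) : Prop :=
  (∀ S, 0 ≤ μ S) ∧ (∑ S : Finset X, μ S ≤ 1) ∧ (∀ S, μ S ≠ 0 → S.card ≤ r) ∧
    ∀ T : Finset X, (∑ S : Finset X, if T ⊆ S then μ S else 0) ≤ q ^ T.card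

/-- the good event for the thinned coupling: relative to the family `A` of edge sets, the copy
`i` may be added to the set `S` of accepted copies. -/
def Good {E X : Type} [DecidableEq E] [Fintype X]
    (A : X → Finset E) (b : ℕ) (p : ℝ) (i : X) (S : Finset X) : Prop :=
  (univ.filter (fun j => A j ⊆ A i ∪ S.biUnion A ∧
      (A j ∩ (A i \ S.biUnion A)).Nonempty)).card ≤ b ∧
  ∑ j ∈ univ.filter (fun j => ¬ A j ⊆ A i ∪ S.biUnion A ∧
      (A j ∩ (A i \ S.biUnion A)).Nonempty), p ^ (A j \ (A i ∪ S.biUnion A)).card ≤ 1 / 2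

/-- edge set of a labelled copy of `F`. -/
def EA {V : Type} [DecidableEq V] {s : ℕ} (F : Finset (Finset (Fin s))) (ψ : Fin s ↪ V) :
    Finset (Finset V) :=
  F.image (fun e => e.map ψ)

/-- vertex set of a labelled copy. -/
def im {V : Type} {s : ℕ} (ψ : Fin s ↪ V) : Finset V := univ.map ψ

/-- `1`-balancedness in integral form. -/
def Bal1 {s : ℕ} (F : Finset (Finset (Fin s))) : Prop :=
  ∀ J ⊆ F, J.Nonempty → J ≠ F → (s - 1) * J.card + 1 ≤ F.card * ((J.biUnion id).card - 1)

/-- few copies in `T` span many vertices. -/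
def E2 {V : Type} [DecidableEq V] {s : ℕ} (t : ℕ) (T : Finset (Fin s ↪ V)) : Prop :=
  ∀ Y ⊆ T, Y.Nonempty → Y.card ≤ 2 * t → Y.card * (s - 1) ≤ (Y.biUnion im).card

/-- every vertex lies in at most `Δ` copies of `T`. -/
def E1 {V : Type} [DecidableEq V] {s : ℕ} (Δ : ℕ) (T : Finset (Fin s ↪ V)) : Prop :=
  ∀ v : V, (T.filter (fun ψ => v ∈ im ψ)).card ≤ Δ

/-- the bijection `σ` extends the partial matching `M`. -/
def Ext {P Y : Type} (M : Finset (P × Y)) (σ : P ≃ Y) : Prop := ∀ a ∈ M, σ a.1 = a.2

/-- `M` is a partial matching. -/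
def IsPM {P Y : Type} (M : Finset (P × Y)) : Prop := ∀ a ∈ M, ∀ b ∈ M, (a.1 = b.1 ↔ a.2 = b.2)

/-- the two partial matchings are in conflict. -/
def Confl {P Y : Type} (M M' : Finset (P × Y)) : Prop :=
  ∃ a ∈ M, ∃ b ∈ M', ¬ (a.1 = b.1 ↔ a.2 = b.2)

open Classical in
/-- number of bijections extending `M` and avoiding all matchings of `B`. -/
noncomputable def cnt {P Y : Type} [Fintype P] [Fintype Y]
    (M : Finset (P × Y)) (B : Finset (Finset (P × Y))) : ℕ :=
  (univ.filter (fun σ : P ≃ Y => Ext M σ ∧ ∀ M' ∈ B, ¬ Ext M' σ)).card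

/-- the system pulled back by `φ`. -/
def pull {V : Type} [DecidableEq V] {q : ℕ} {ι : Type} (φ : Fin q ↪ V)
    (H : ι → Finset (Finset V)) : ι → Finset (Finset (Fin q)) :=
  fun c => univ.filter (fun e => e.map φ ∈ H c)

end Pool.Agent.TFactor
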