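import Mathlib
import Pool.Agent.Work.MP_5010fd_co.Defs

namespace Pool.Agent.TFactor

open Finset

private theorem card_im' {V : Type} {s : ℕ} (ψ : Fin s ↪ V) : (im ψ).card = s := by
  unfold im
  rw [Finset.card_map, Finset.card_univ, Fintype.card_fin]

/-- embeddings with image in a small set -/
private theorem card_im_subset_le {V : Type} [Fintype V] [DecidableEq V] {s : ℕ}
    (U : Finset V) (M : ℕ) (hU : U.card ≤ M) :
    (univ.filter (fun j : Fin s ↪ V => im j ⊆ U)).card ≤ M ^ s := by
  calc (univ.filter (fun j : Fin s ↪ V => im j ⊆ U)).card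
      ≤ (Fintype.piFinset (fun _ : Fin s => U)).card := by
        refine Finset.card_le_card_of_injOn (fun j => (j : Fin s → V)) ?_ ?_
        · intro j hj
          have hj' := (Finset.mem_filter.1 (Finset.mem_coe.1 hj)).2
          refine Finset.mem_coe.2 (Fintype.mem_piFinset.2 fun x => hj' ?_)
          exact Finset.mem_map.2 ⟨x, Finset.mem_univ _, rfl⟩
        · intro j _ j' _ h
          exact DFunLike.coe_injective h
    _ = U.card ^ s := by
        rw [Fintype.card_piFinset, Finset.prod_const, Finset.card_univ, Fintype.card_fin]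
    _ ≤ M ^ s := Nat.pow_le_pow_left hU s

/-- the part of the image of `j` outside `U` is small when `U` contains the edges of `J` -/
private theorem piece_out {V : Type} [DecidableEq V] {s : ℕ} {F : Finset (Finset (Fin s))}
    (hbal : Bal1 F) (hF2 : ∀ e ∈ F, 2 ≤ e.card) {J : Finset (Finset (Fin s))} (hJ : J ⊆ F)
    (hne : J.Nonempty) (hJF : J ≠ F) (j : Fin s ↪ V) (W : Finset V)
    (hW : ∀ e ∈ J, e.map j ⊆ W) (Z : Finset V) (hZ : Z.card = s) (hZj : im j ∩ W ⊆ Z)
    (Y : Finset V) (hY : im j ∩ W ⊆ Y) :
    F.card * (Z \ Y).card + ((s - 1) * J.card + 1) ≤ F.card * (s - 1) := by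
  have hb := hbal J hJ hne hJF
  have hsub : (J.biUnion id).map j ⊆ im j ∩ W := by
    intro v hv
    obtain ⟨x, hx, rfl⟩ := Finset.mem_map.1 hv
    obtain ⟨e, he, hxe⟩ := Finset.mem_biUnion.1 hx
    refine Finset.mem_inter.2 ⟨Finset.mem_map.2 ⟨x, Finset.mem_univ _, rfl⟩, ?_⟩
    exact hW e he (Finset.mem_map.2 ⟨x, hxe, rfl⟩)
  have hc : (J.biUnion id).card ≤ (Z ∩ Y).card := by
    rw [← Finset.card_map j]
    exact Finset.card_le_card fun v hv => Finset.mem_inter.2 ⟨hZj (hsub hv), hY (hsub hv)⟩
  have h1 : (Z \ Y).card + (Z ∩ Y).card = s := by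
    rw [Finset.card_sdiff_add_card_inter, hZ]
  have h2 : 2 ≤ (J.biUnion id).card := by
    obtain ⟨e, he⟩ := hne
    refine (hF2 e (hJ he)).trans (Finset.card_le_card fun x hx => ?_)
    exact Finset.mem_biUnion.2 ⟨e, he, hx⟩
  calc F.card * (Z \ Y).card + ((s - 1) * J.card + 1)
      ≤ F.card * (Z \ Y).card + F.card * ((J.biUnion id).card - 1) := Nat.add_le_add_left hb _
    _ = F.card * ((Z \ Y).card + ((J.biUnion id).card - 1)) := by ring
    _ ≤ F.card * (s - 1) := Nat.mul_le_mul_left _ (by omega)

/-- assignment of the edges of an accidental copy -/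
private theorem exists_assign {V : Type} [DecidableEq V] {s : ℕ}
    (F : Finset (Finset (Fin s))) (T : Finset (Fin s ↪ V)) (i : Fin s ↪ V) (hi : i ∈ T)
    (S : Finset (Fin s ↪ V)) (hS : S ⊆ T) (j : Fin s ↪ V)
    (h1 : EA F j ⊆ EA F i ∪ S.biUnion (EA F))
    (h2 : (EA F j ∩ (EA F i \ S.biUnion (EA F))).Nonempty) :
    ∃ g : Finset (Fin s) → (Fin s ↪ V), (∀ e ∈ F, g e ∈ T) ∧
      (∀ e ∈ F, e.map j ⊆ im (g e)) ∧ ∃ e ∈ F, g e = i := by
  classical
  have hmem : ∀ e ∈ F, ∃ y ∈ T, e.map j ∈ EA F y ∧ (e.map j ∈ EA F i → y = i) := by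
    intro e he
    by_cases h : e.map j ∈ EA F i
    · exact ⟨i, hi, h, fun _ => rfl⟩
    · have h3 : e.map j ∈ EA F i ∪ S.biUnion (EA F) := h1 (Finset.mem_image_of_mem _ he)
      rcases Finset.mem_union.1 h3 with h4 | h4
      · exact absurd h4 h
      · obtain ⟨y, hy, hy'⟩ := Finset.mem_biUnion.1 h4
        exact ⟨y, hS hy, hy', fun h5 => absurd h5 h⟩
  have hsub : ∀ (e : Finset (Fin s)) (y : Fin s ↪ V), e.map j ∈ EA F y → e.map j ⊆ im y := by
    intro e y h
    obtain ⟨e', _, he'⟩ := Finset.mem_image.1 h
    rw [← he']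
    intro v hv
    obtain ⟨x, _, rfl⟩ := Finset.mem_map.1 hv
    exact Finset.mem_map.2 ⟨x, Finset.mem_univ _, rfl⟩
  haveI : Nonempty (Fin s ↪ V) := ⟨i⟩
  choose! g hg using hmem
  refine ⟨g, fun e he => (hg e he).1, fun e he => hsub e _ (hg e he).2.1, ?_⟩
  obtain ⟨E, hE⟩ := h2
  obtain ⟨hE1, hE2⟩ := Finset.mem_inter.1 hE
  obtain ⟨e, he, rfl⟩ := Finset.mem_image.1 hE1
  exact ⟨e, he, (hg e he).2.2 (Finset.mem_sdiff.1 hE2).1⟩

private theorem im_subset_of_edges {V : Type} [DecidableEq V] {s : ℕ}
    {F : Finset (Finset (Fin s))} (hV : F.biUnion id = univ) (j : Fin s ↪ V) (U : Finset V)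
    (h : ∀ e ∈ F, e.map j ⊆ U) : im j ⊆ U := by
  intro v hv
  obtain ⟨x, _, rfl⟩ := Finset.mem_map.1 hv
  have hx : x ∈ F.biUnion id := by
    rw [hV]
    exact Finset.mem_univ _
  obtain ⟨e, he, hxe⟩ := Finset.mem_biUnion.1 hx
  exact h e he (Finset.mem_map.2 ⟨x, hxe, rfl⟩)

private theorem card_fib {α β : Type} [DecidableEq α] [DecidableEq β] (F : Finset α)
    (g : α → β) : ∑ y ∈ F.image g, (F.filter (fun e => g e = y)).card = F.card :=
  (Finset.card_eq_sum_card_fiberwise fun e he =>
    Finset.mem_coe.2 (Finset.mem_image_of_mem g (Finset.mem_coe.1 he))).symm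

/-- the union of the copies used by an accidental copy is small -/
private theorem union_small {V : Type} [DecidableEq V] {s : ℕ} {F : Finset (Finset (Fin s))}
    (hbal : Bal1 F) (hF : F.Nonempty) (hF2 : ∀ e ∈ F, 2 ≤ e.card) (j : Fin s ↪ V)
    (g : Finset (Fin s) → (Fin s ↪ V)) (hg : ∀ e ∈ F, e.map j ⊆ im (g e))
    (hm : 2 ≤ (F.image g).card) (hs : 2 ≤ s) :
    ((F.image g).biUnion im).card ≤ (F.image g).card * (s - 1) := by
  have hU : ((F.image g).biUnion im).card ≤ s + ∑ y ∈ F.image g, (im y \ im j).card := by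
    calc ((F.image g).biUnion im).card
        ≤ (im j ∪ (F.image g).biUnion (fun y => im y \ im j)).card := by
          refine Finset.card_le_card fun v hv => ?_
          obtain ⟨y, hy, hvy⟩ := Finset.mem_biUnion.1 hv
          by_cases h : v ∈ im j
          · exact Finset.mem_union_left _ h
          · exact Finset.mem_union_right _ (Finset.mem_biUnion.2
              ⟨y, hy, Finset.mem_sdiff.2 ⟨hvy, h⟩⟩)
      _ ≤ (im j).card + ((F.image g).biUnion (fun y => im y \ im j)).card :=
          Finset.card_union_le _ _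
      _ ≤ s + ∑ y ∈ F.image g, (im y \ im j).card := by
          rw [card_im']
          exact Nat.add_le_add_left Finset.card_biUnion_le _
  have hpiece : ∀ y ∈ F.image g, F.card * (im y \ im j).card +
      ((s - 1) * (F.filter (fun e => g e = y)).card + 1) ≤ F.card * (s - 1) := by
    intro y hy
    obtain ⟨e, he, hey⟩ := Finset.mem_image.1 hy
    refine piece_out hbal hF2 (Finset.filter_subset _ _)
      ⟨e, Finset.mem_filter.2 ⟨he, hey⟩⟩ ?_ j (im y) ?_ (im y) (card_im' y)
      Finset.inter_subset_right (im j) Finset.inter_subset_left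
    · intro hc
      have h1 : ∀ e ∈ F, g e = y := fun e he => by
        rw [← hc] at he
        exact (Finset.mem_filter.1 he).2
      have h2 : F.image g ⊆ {y} := by
        intro z hz
        obtain ⟨e, he, rfl⟩ := Finset.mem_image.1 hz
        exact Finset.mem_singleton.2 (h1 e he)
      have := Finset.card_le_card h2
      rw [Finset.card_singleton] at this
      omega
    · intro e' he'
      obtain ⟨h3, h4⟩ := Finset.mem_filter.1 he'
      rw [← h4]
      exact hg e' h3
  have hsum := Finset.sum_le_sum hpiece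
  rw [Finset.sum_add_distrib, Finset.sum_add_distrib, ← Finset.mul_sum, ← Finset.mul_sum,
    card_fib, Finset.sum_const, Finset.sum_const, smul_eq_mul, smul_eq_mul, mul_one] at hsum
  set t := F.card with ht
  set m := (F.image g).card with hmdef
  set Q := ∑ y ∈ F.image g, (im y \ im j).card with hQ
  set U := ((F.image g).biUnion im).card with hUdef
  have ht1 : 1 ≤ t := Finset.card_pos.2 hF
  obtain ⟨r, rfl⟩ : ∃ r, s = r + 1 := ⟨s - 1, by omega⟩
  simp only [Nat.add_sub_cancel] at hsum ⊢
  -- t * U ≤ t * (r+1) + t * Q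
  have h5 : t * U ≤ t * (r + 1 + Q) := Nat.mul_le_mul_left t hU
  have h6 : t * U + m ≤ t * (m * r + 1) := by
    nlinarith [hsum, h5]
  by_contra hcon
  push Not at hcon
  have h7 : t * (m * r + 1) ≤ t * U := Nat.mul_le_mul_left t hcon
  omega

/-- the number of accidental copies. -/
theorem acc_count {V : Type} [Fintype V] [DecidableEq V] {s : ℕ}
    (F : Finset (Finset (Fin s))) (hbal : Bal1 F) (hV : F.biUnion id = univ)
    (hF : F.Nonempty) (hF2 : ∀ e ∈ F, 2 ≤ e.card)
    (T : Finset (Fin s ↪ V)) (hE2 : E2 F.card T) (i : Fin s ↪ V) (hi : i ∈ T)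
    (S : Finset (Fin s ↪ V)) (hS : S ⊆ T) :
    (univ.filter (fun j : Fin s ↪ V => EA F j ⊆ EA F i ∪ S.biUnion (EA F) ∧
      (EA F j ∩ (EA F i \ S.biUnion (EA F))).Nonempty)).card ≤
        (F.card * s) ^ s + s ^ s := by
  classical
  have hs : 2 ≤ s := by
    obtain ⟨e, he⟩ := hF
    calc 2 ≤ e.card := hF2 e he
      _ ≤ s := by simpa using Finset.card_le_univ e
  -- accidental copies of the second kind
  by_cases hex : ∃ j : Fin s ↪ V, ∃ g : Finset (Fin s) → (Fin s ↪ V),
      (∀ e ∈ F, g e ∈ T) ∧ (∀ e ∈ F, e.map j ⊆ im (g e)) ∧ (∃ e ∈ F, g e = i) ∧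
      2 ≤ (F.image g).card
  · obtain ⟨j1, g1, hg1T, hg1, ⟨e1, he1, he1i⟩, hm1⟩ := hex
    set U1 := (F.image g1).biUnion im with hU1
    have hU1card : U1.card ≤ F.card * s := by
      calc U1.card ≤ ∑ y ∈ F.image g1, (im y).card := Finset.card_biUnion_le
        _ = (F.image g1).card * s := by
            rw [Finset.sum_congr rfl (fun y _ => card_im' y), Finset.sum_const, smul_eq_mul]
        _ ≤ F.card * s := Nat.mul_le_mul_right _ Finset.card_image_le
    have hsmall1 := union_small hbal hF hF2 j1 g1 hg1 hm1 hs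
    have hsub : (univ.filter (fun j : Fin s ↪ V => EA F j ⊆ EA F i ∪ S.biUnion (EA F) ∧
        (EA F j ∩ (EA F i \ S.biUnion (EA F))).Nonempty)) ⊆
        (univ.filter (fun j : Fin s ↪ V => im j ⊆ U1)) := by
      intro j hj
      obtain ⟨h1, h2⟩ := (Finset.mem_filter.1 hj).2
      obtain ⟨g, hgT, hg, e0, he0, he0i⟩ := exists_assign F T i hi S hS j h1 h2
      refine Finset.mem_filter.2 ⟨Finset.mem_univ _, ?_⟩
      -- the copies used by `j` are among those used by `j1`
      by_cases hYY : F.image g ⊆ F.image g1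
      · refine im_subset_of_edges hV j U1 fun e he => ?_
        refine (hg e he).trans fun v hv => ?_
        exact Finset.mem_biUnion.2 ⟨g e, hYY (Finset.mem_image_of_mem g he), hv⟩
      · exfalso
        set Y1 := F.image g1 with hY1
        set Y2 := F.image g with hY2
        set J0 := F.filter (fun e => g e ∈ Y1) with hJ0
        have hiY1 : i ∈ Y1 := by
          rw [← he1i]
          exact Finset.mem_image_of_mem g1 he1
        have hJ0ne : J0.Nonempty := ⟨e0, Finset.mem_filter.2 ⟨he0, by rw [he0i]; exact hiY1⟩⟩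
        obtain ⟨y, hy2, hy1⟩ := Finset.not_subset.1 hYY
        obtain ⟨ey, hey, heyy⟩ := Finset.mem_image.1 hy2
        have hJ0F : J0 ≠ F := by
          intro hc
          have : ey ∈ J0 := by
            rw [hc]
            exact hey
          exact hy1 (heyy ▸ (Finset.mem_filter.1 this).2)
        have hp0 : F.card * (im j \ U1).card + ((s - 1) * J0.card + 1) ≤ F.card * (s - 1) := by
          refine piece_out hbal hF2 (Finset.filter_subset _ _) hJ0ne hJ0F j U1 ?_ (im j)
            (card_im' j) Finset.inter_subset_left U1 Finset.inter_subset_right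
          intro e he
          obtain ⟨h3, h4⟩ := Finset.mem_filter.1 he
          refine (hg e h3).trans fun v hv => ?_
          exact Finset.mem_biUnion.2 ⟨g e, h4, hv⟩
        have hpy : ∀ y ∈ Y2 \ Y1, F.card * (im y \ im j).card +
            ((s - 1) * (F.filter (fun e => g e = y)).card + 1) ≤ F.card * (s - 1) := by
          intro y hy
          obtain ⟨hyY2, hyY1⟩ := Finset.mem_sdiff.1 hy
          obtain ⟨e, he, hey⟩ := Finset.mem_image.1 hyY2
          refine piece_out hbal hF2 (Finset.filter_subset _ _)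
            ⟨e, Finset.mem_filter.2 ⟨he, hey⟩⟩ ?_ j (im y) ?_ (im y) (card_im' y)
            Finset.inter_subset_right (im j) Finset.inter_subset_left
          · intro hc
            rw [← hc] at he0
            have h5 : g e0 = y := (Finset.mem_filter.1 he0).2
            exact hyY1 (h5 ▸ he0i.symm ▸ hiY1)
          · intro e' he'
            obtain ⟨h3, h4⟩ := Finset.mem_filter.1 he'
            rw [← h4]
            exact hg e' h3
        have hcount : J0.card + ∑ y ∈ Y2 \ Y1, (F.filter (fun e => g e = y)).card = F.card := by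
          have h6 : ∑ y ∈ Y2 \ Y1, (F.filter (fun e => g e = y)).card =
              (F.filter (fun e => ¬ g e ∈ Y1)).card := by
            rw [Finset.card_eq_sum_card_fiberwise (f := g) (t := Y2 \ Y1)]
            · refine Finset.sum_congr rfl fun y hy => ?_
              congr 1
              ext e
              simp only [Finset.mem_filter]
              constructor
              · rintro ⟨h7, h8⟩
                exact ⟨⟨h7, by rw [h8]; exact (Finset.mem_sdiff.1 hy).2⟩, h8⟩
              · rintro ⟨⟨h7, _⟩, h8⟩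
                exact ⟨h7, h8⟩
            · intro e he
              obtain ⟨h7, h8⟩ := Finset.mem_filter.1 (Finset.mem_coe.1 he)
              exact Finset.mem_coe.2 (Finset.mem_sdiff.2 ⟨Finset.mem_image_of_mem g h7, h8⟩)
          rw [h6]
          exact Finset.card_filter_add_card_filter_not _
        have hsum := Finset.sum_le_sum hpy
        rw [Finset.sum_add_distrib, Finset.sum_add_distrib, ← Finset.mul_sum, ← Finset.mul_sum,
          Finset.sum_const, Finset.sum_const, smul_eq_mul, smul_eq_mul, mul_one] at hsum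
        have hU12 : ((Y1 ∪ Y2).biUnion im).card ≤
            U1.card + ((im j \ U1).card + ∑ y ∈ Y2 \ Y1, (im y \ im j).card) := by
          calc ((Y1 ∪ Y2).biUnion im).card
              ≤ (U1 ∪ ((im j \ U1) ∪ (Y2 \ Y1).biUnion (fun y => im y \ im j))).card := by
                refine Finset.card_le_card fun v hv => ?_
                by_cases hv1 : v ∈ U1
                · exact Finset.mem_union_left _ hv1
                by_cases hvj : v ∈ im j
                · exact Finset.mem_union_right _ (Finset.mem_union_left _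
                    (Finset.mem_sdiff.2 ⟨hvj, hv1⟩))
                obtain ⟨y, hy, hvy⟩ := Finset.mem_biUnion.1 hv
                have hyY1 : y ∉ Y1 := fun h => hv1 (Finset.mem_biUnion.2 ⟨y, h, hvy⟩)
                have hyY2 : y ∈ Y2 := by
                  rcases Finset.mem_union.1 hy with h | h
                  · exact absurd h hyY1
                  · exact h
                exact Finset.mem_union_right _ (Finset.mem_union_right _ (Finset.mem_biUnion.2
                  ⟨y, Finset.mem_sdiff.2 ⟨hyY2, hyY1⟩, Finset.mem_sdiff.2 ⟨hvy, hvj⟩⟩))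
            _ ≤ U1.card + ((im j \ U1) ∪ (Y2 \ Y1).biUnion (fun y => im y \ im j)).card :=
                Finset.card_union_le _ _
            _ ≤ U1.card + ((im j \ U1).card +
                  ((Y2 \ Y1).biUnion (fun y => im y \ im j)).card) :=
                Nat.add_le_add_left (Finset.card_union_le _ _) _
            _ ≤ _ := Nat.add_le_add_left (Nat.add_le_add_left Finset.card_biUnion_le _) _
        have hcard12 : (Y1 ∪ Y2).card = Y1.card + (Y2 \ Y1).card := by
          rw [← Finset.union_sdiff_self_eq_union, Finset.card_union_of_disjoint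
            Finset.disjoint_sdiff]
        have hE := hE2 (Y1 ∪ Y2) (by
          intro y hy
          rcases Finset.mem_union.1 hy with h | h
          · obtain ⟨e, he, rfl⟩ := Finset.mem_image.1 h
            exact hg1T e he
          · obtain ⟨e, he, rfl⟩ := Finset.mem_image.1 h
            exact hgT e he) ⟨i, Finset.mem_union_left _ hiY1⟩ (by
          calc (Y1 ∪ Y2).card ≤ Y1.card + Y2.card := Finset.card_union_le _ _
            _ ≤ F.card + F.card := Nat.add_le_add Finset.card_image_le Finset.card_image_le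
            _ = 2 * F.card := by ring)
        rw [hcard12] at hE
        set t := F.card with ht
        set m1 := Y1.card with hm1'
        set m' := (Y2 \ Y1).card with hm'
        set a := (im j \ U1).card with ha
        set b := ∑ y ∈ Y2 \ Y1, (im y \ im j).card with hb
        set q := ∑ y ∈ Y2 \ Y1, (F.filter (fun e => g e = y)).card with hq
        set U := ((Y1 ∪ Y2).biUnion im).card with hU
        have h8 : t * U ≤ t * (U1.card + (a + b)) := Nat.mul_le_mul_left t hU12
        have h9 : t * U1.card ≤ t * (m1 * (s - 1)) := Nat.mul_le_mul_left t hsmall1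
        have h10 : t * ((m1 + m') * (s - 1)) ≤ t * U := Nat.mul_le_mul_left t hE
        have h11 : (s - 1) * J0.card + (s - 1) * q = (s - 1) * t := by
          rw [← Nat.mul_add, hcount]
        nlinarith [h8, h9, h10, h11, hp0, hsum]
    calc _ ≤ (univ.filter (fun j : Fin s ↪ V => im j ⊆ U1)).card := Finset.card_le_card hsub
      _ ≤ (F.card * s) ^ s := card_im_subset_le U1 _ hU1card
      _ ≤ _ := Nat.le_add_right _ _
  · -- all accidental copies are of the first kind
    have hsub : (univ.filter (fun j : Fin s ↪ V => EA F j ⊆ EA F i ∪ S.biUnion (EA F) ∧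
        (EA F j ∩ (EA F i \ S.biUnion (EA F))).Nonempty)) ⊆
        (univ.filter (fun j : Fin s ↪ V => im j ⊆ im i)) := by
      intro j hj
      obtain ⟨h1, h2⟩ := (Finset.mem_filter.1 hj).2
      obtain ⟨g, hgT, hg, e0, he0, he0i⟩ := exists_assign F T i hi S hS j h1 h2
      refine Finset.mem_filter.2 ⟨Finset.mem_univ _, ?_⟩
      have hcard : (F.image g).card ≤ 1 := by
        by_contra hc
        exact hex ⟨j, g, hgT, hg, ⟨e0, he0, he0i⟩, by omega⟩
      have hall : ∀ e ∈ F, g e = i := by
        intro e he
        rw [← he0i]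
        exact Finset.card_le_one.1 hcard _ (Finset.mem_image_of_mem g he) _
          (Finset.mem_image_of_mem g he0)
      refine im_subset_of_edges hV j (im i) fun e he => ?_
      have := hg e he
      rwa [hall e he] at this
    calc _ ≤ (univ.filter (fun j : Fin s ↪ V => im j ⊆ im i)).card := Finset.card_le_card hsub
      _ ≤ s ^ s := card_im_subset_le (im i) s (card_im' i).le
      _ ≤ _ := Nat.le_add_left _ _

end Pool.Agent.TFactor
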