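import Mathlib
import Pool.Agent.Work.MP_5010fd_co.Defs

namespace Pool.Agent.TFactor

open Finset

/-- `n` as a sum of group sizes. -/
theorem decomp (n0 : ℕ) (h : 1 ≤ n0) (n : ℕ) (hn : n0 * n0 ≤ n) :
    ∃ (m : ℕ) (sz : Fin m → ℕ), (∀ j, sz j = n0 ∨ sz j = n0 + 1) ∧ ∑ j, sz j = n := by
  have hm : n0 ≤ n / n0 := (Nat.le_div_iff_mul_le (by omega)).2 hn
  have hw : n % n0 < n0 := Nat.mod_lt _ (by omega)
  refine ⟨n / n0, fun j => n0 + if (j : ℕ) < n % n0 then 1 else 0, ?_, ?_⟩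
  · intro j
    by_cases hj : (j : ℕ) < n % n0
    · right; simp [hj]
    · left; simp [hj]
  · rw [Fin.sum_univ_eq_sum_range (fun j => n0 + if j < n % n0 then 1 else 0) (n / n0),
      Finset.sum_add_distrib, Finset.sum_const, Finset.card_range, ← Finset.card_filter]
    have h1 : (range (n / n0)).filter (fun j => j < n % n0) = range (n % n0) := by
      ext x
      simp only [mem_filter, mem_range]
      omega
    rw [h1, Finset.card_range, smul_eq_mul]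
    exact Nat.div_add_mod' n n0

/-- restriction of `σ` to the slots of the group `j`. -/
def slotEmb {V : Type} {s m : ℕ} {sz : Fin m → ℕ} (σ : (Σ j : Fin m, Fin (s * sz j)) ≃ V)
    (j : Fin m) : Fin (s * sz j) ↪ V :=
  ⟨fun x => σ ⟨j, x⟩, fun x y h => by simpa using h⟩

/-- gluing the factors of the groups. -/
theorem glue {V : Type} [DecidableEq V] {s : ℕ} (F : Finset (Finset (Fin s))) (t n m : ℕ)
    (sz : Fin m → ℕ) (hsz : ∑ j, sz j = n) (H : Fin (t * n) → Finset (Finset V))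
    (κ : (Σ j : Fin m, Fin (t * sz j)) ≃ Fin (t * n))
    (σ : (Σ j : Fin m, Fin (s * sz j)) ≃ V)
    (hg : ∀ j, HasTF F t (sz j) (pull (slotEmb σ j) (fun c => H (κ ⟨j, c⟩)))) :
    ∃ T : Finset (Fin s ↪ V), T.card ≤ n ∧ UTF F t n H T ∧
      (∀ ψ ∈ T, ∃ j, ∃ χ : Fin s ↪ Fin (s * sz j), ∀ x, ψ x = σ ⟨j, χ x⟩) ∧
      (∀ ψ ∈ T, ∀ ψ' ∈ T, ψ ≠ ψ' → Disjoint (im ψ) (im ψ')) := by
  classical
  choose φ hφ c hc hH using hg
  obtain ⟨ε⟩ : Nonempty (Fin n ≃ Σ j : Fin m, Fin (sz j)) :=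
    ⟨((finSigmaFinEquiv (n := sz)).trans (finCongr hsz)).symm⟩
  set Φ : Fin n → (Fin s ↪ V) := fun i => (φ (ε i).1 (ε i).2).trans (slotEmb σ (ε i).1)
    with hΦ
  have hΦx : ∀ i x, Φ i x = σ ⟨(ε i).1, φ (ε i).1 (ε i).2 x⟩ := fun i x => rfl
  have hinj : Function.Injective (fun a : Fin n × Fin s => Φ a.1 a.2) := by
    rintro ⟨i, x⟩ ⟨i', x'⟩ h
    simp only [hΦx] at h
    have h1 := σ.injective h
    rcases hj : ε i with ⟨j, y⟩
    rcases hj' : ε i' with ⟨j', y'⟩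
    rw [hj, hj'] at h1
    obtain ⟨rfl, h2⟩ := Sigma.mk.inj h1
    have h3 := eq_of_heq h2
    have h4 := (hφ j).injective (a₁ := (y, x)) (a₂ := (y', x')) h3
    obtain ⟨rfl, rfl⟩ := Prod.mk.inj h4
    have h5 : i = i' := ε.injective (hj.trans hj'.symm)
    rw [h5]
  have hsur : Function.Surjective (fun a : Fin n × Fin s => Φ a.1 a.2) := by
    intro v
    obtain ⟨⟨j, z⟩, hz⟩ := σ.surjective v
    obtain ⟨⟨y, x⟩, hy⟩ := (hφ j).surjective z
    obtain ⟨i, hi⟩ := ε.surjective ⟨j, y⟩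
    refine ⟨(i, x), ?_⟩
    simp only [hΦx]
    rw [hi, ← hz]
    exact congrArg _ (congrArg _ hy)
  refine ⟨univ.image Φ, ?_, ⟨Φ, fun i => mem_image_of_mem _ (mem_univ _), ⟨hinj, hsur⟩,
    fun a => κ ⟨(ε a.1).1, c (ε a.1).1 ((ε a.1).2, a.2)⟩, ⟨?_, ?_⟩, ?_⟩, ?_, ?_⟩
  · exact card_image_le.trans (by simp)
  · rintro ⟨i, e⟩ ⟨i', e'⟩ h
    have h1 := κ.injective h
    simp only at h1
    rcases hj : ε i with ⟨j, y⟩
    rcases hj' : ε i' with ⟨j', y'⟩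
    rw [hj, hj'] at h1
    obtain ⟨rfl, h2⟩ := Sigma.mk.inj h1
    have h4 := (hc j).injective (eq_of_heq h2)
    obtain ⟨rfl, rfl⟩ := Prod.mk.inj h4
    have h5 : i = i' := ε.injective (hj.trans hj'.symm)
    rw [h5]
  · intro b
    obtain ⟨⟨j, z⟩, hz⟩ := κ.surjective b
    obtain ⟨⟨y, e⟩, hy⟩ := (hc j).surjective z
    obtain ⟨i, hi⟩ := ε.surjective ⟨j, y⟩
    refine ⟨(i, e), ?_⟩
    simp only
    rw [hi, ← hz]
    exact congrArg _ (congrArg _ hy)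
  · intro i e
    have h1 := hH (ε i).1 (ε i).2 e
    rw [pull, mem_filter] at h1
    have h2 := h1.2
    rw [Finset.map_map] at h2
    exact h2
  · intro ψ hψ
    obtain ⟨i, -, rfl⟩ := mem_image.1 hψ
    exact ⟨(ε i).1, φ (ε i).1 (ε i).2, fun x => rfl⟩
  · intro ψ hψ ψ' hψ' hne
    obtain ⟨i, -, rfl⟩ := mem_image.1 hψ
    obtain ⟨i', -, rfl⟩ := mem_image.1 hψ'
    rw [Finset.disjoint_left]
    intro v hv hv'
    obtain ⟨x, -, hx⟩ := mem_map.1 hv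
    obtain ⟨x', -, hx'⟩ := mem_map.1 hv'
    have h1 := hinj (a₁ := (i, x)) (a₂ := (i', x')) (hx.trans hx'.symm)
    have h2 : i = i' := (Prod.mk.inj h1).1
    exact hne (by rw [h2])

end Pool.Agent.TFactor
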