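import Mathlib
import Pool.Agent.Work.MP_5010fd_co.Glue

namespace Pool.Agent.TFactor

open Finset

/-- the graph of `φ` placed at the slots of group `j`. -/
private def gr {s m N : ℕ} {sz : Fin m → ℕ} (j : Fin m) (φ : Fin (s * sz j) ↪ Fin N) :
    Finset ((Σ j : Fin m, Fin (s * sz j)) × Fin N) :=
  (univ : Finset (Fin (s * sz j))).image
    (fun x => ((⟨j, x⟩ : Σ j : Fin m, Fin (s * sz j)), φ x))

private theorem mem_gr {s m N : ℕ} {sz : Fin m → ℕ} {j : Fin m}
    {φ : Fin (s * sz j) ↪ Fin N} {a : (Σ j : Fin m, Fin (s * sz j)) × Fin N} :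
    a ∈ gr j φ ↔ ∃ x, a = ((⟨j, x⟩ : Σ j : Fin m, Fin (s * sz j)), φ x) := by
  unfold gr
  simp only [mem_image, mem_univ, true_and]
  constructor
  · rintro ⟨x, hx⟩; exact ⟨x, hx.symm⟩
  · rintro ⟨x, hx⟩; exact ⟨x, hx.symm⟩

private theorem gr_card {s m N : ℕ} {sz : Fin m → ℕ} (j : Fin m)
    (φ : Fin (s * sz j) ↪ Fin N) : (gr j φ).card = s * sz j := by
  unfold gr
  rw [card_image_of_injective, card_univ, Fintype.card_fin]
  intro x y h
  simp only [Prod.mk.injEq] at h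
  exact φ.injective h.2

private theorem sum_le_of_cover {α β : Type*} [DecidableEq α] [DecidableEq β]
    (S : Finset β) (A : Finset α) (f : α → β) (g : β → ℝ) (hg : ∀ b, 0 ≤ g b)
    (h : ∀ b ∈ S, ∃ a ∈ A, f a = b) : ∑ b ∈ S, g b ≤ ∑ a ∈ A, g (f a) := by
  have hsub : S ⊆ A.image f := by
    intro b hb
    obtain ⟨a, ha, hab⟩ := h b hb
    exact mem_image.2 ⟨a, ha, hab⟩
  calc ∑ b ∈ S, g b ≤ ∑ b ∈ A.image f, g b :=
        sum_le_sum_of_subset_of_nonneg hsub (fun b _ _ => hg b)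
    _ ≤ ∑ a ∈ A, g (f a) := sum_image_le_of_nonneg (fun b _ => hg b)

open Classical in
private theorem sum_vertex {s m N : ℕ} (sz : Fin m → ℕ) (hN : ∑ j, s * sz j = N) (Q : ℕ)
    (hQ1 : ∀ j, 1 ≤ s * sz j) (hQ : ∀ j, s * sz j ≤ Q)
    (bad : ∀ j : Fin m, (Fin (s * sz j) ↪ Fin N) → Prop)
    (hbad : ∀ (j : Fin m) (x : Fin (s * sz j)) (v : Fin N),
      ((univ.filter (fun φ : Fin (s * sz j) ↪ Fin N => φ x = v ∧ bad j φ)).card : ℝ) ≤
        ((N - 1).descFactorial (s * sz j - 1) : ℝ) / (16 * (Q : ℝ)))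
    (j : Fin m) (x : Fin (s * sz j)) (v : Fin N) :
    ∑ φ ∈ univ.filter (fun φ : Fin (s * sz j) ↪ Fin N => φ x = v ∧ bad j φ),
      1 / (N.descFactorial (s * sz j) : ℝ) ≤ 1 / (16 * (Q : ℝ)) / N := by
  have hNpos : 0 < N := v.pos
  have hle : s * sz j ≤ N := by
    rw [← hN]; exact single_le_sum (f := fun j => s * sz j) (fun _ _ => Nat.zero_le _) (mem_univ j)
  have hQpos : (0 : ℝ) < Q := by
    have : 1 ≤ Q := (hQ1 j).trans (hQ j)
    exact_mod_cast this
  have hdf : (N.descFactorial (s * sz j) : ℝ) = N * ((N - 1).descFactorial (s * sz j - 1) : ℝ) := by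
    obtain ⟨q, hq⟩ : ∃ q, s * sz j = q + 1 := ⟨s * sz j - 1, by have := hQ1 j; omega⟩
    obtain ⟨M, hM⟩ : ∃ M, N = M + 1 := ⟨N - 1, by omega⟩
    rw [hq, hM, Nat.add_sub_cancel, Nat.add_sub_cancel, Nat.succ_descFactorial_succ]
    push_cast
    ring
  have hd1 : (0 : ℝ) < ((N - 1).descFactorial (s * sz j - 1) : ℝ) := by
    have : 0 < (N - 1).descFactorial (s * sz j - 1) := by
      rw [Nat.pos_iff_ne_zero]
      intro h0
      rw [Nat.descFactorial_eq_zero_iff_lt] at h0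
      omega
    exact_mod_cast this
  rw [sum_const, nsmul_eq_mul, hdf]
  have hN' : (0 : ℝ) < N := by exact_mod_cast hNpos
  calc ((univ.filter (fun φ : Fin (s * sz j) ↪ Fin N => φ x = v ∧ bad j φ)).card : ℝ) *
        (1 / ((N : ℝ) * ((N - 1).descFactorial (s * sz j - 1) : ℝ)))
      ≤ (((N - 1).descFactorial (s * sz j - 1) : ℝ) / (16 * (Q : ℝ))) *
        (1 / ((N : ℝ) * ((N - 1).descFactorial (s * sz j - 1) : ℝ))) := by
        apply mul_le_mul_of_nonneg_right (hbad j x v)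
        positivity
    _ = 1 / (16 * (Q : ℝ)) / N := by
        field_simp

open Classical in
/-- the family of bad partial matchings. -/
theorem bad_family {s m N : ℕ} (sz : Fin m → ℕ) (hN : ∑ j, s * sz j = N) (Q : ℕ)
    (hQ1 : ∀ j, 1 ≤ s * sz j) (hQ : ∀ j, s * sz j ≤ Q)
    (bad : ∀ j : Fin m, (Fin (s * sz j) ↪ Fin N) → Prop)
    (hbad : ∀ (j : Fin m) (x : Fin (s * sz j)) (v : Fin N),
      ((univ.filter (fun φ : Fin (s * sz j) ↪ Fin N => φ x = v ∧ bad j φ)).card : ℝ) ≤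
        ((N - 1).descFactorial (s * sz j - 1) : ℝ) / (16 * (Q : ℝ))) :
    ∃ B : Finset (Finset ((Σ j : Fin m, Fin (s * sz j)) × Fin N)),
      (∀ M ∈ B, IsPM M) ∧ (∀ M ∈ B, M.Nonempty) ∧ (∀ M ∈ B, M.card ≤ Q) ∧
      (∀ σ : (Σ j : Fin m, Fin (s * sz j)) ≃ Fin N,
        (∀ M ∈ B, ¬ Ext M σ) → ∀ j, ¬ bad j (slotEmb σ j)) ∧
      (∀ y, ∑ M ∈ B.filter (fun M => ∃ a ∈ M, a.1 = y),
        1 / (N.descFactorial M.card : ℝ) ≤ 1 / (16 * (Q : ℝ))) ∧
      (∀ v, ∑ M ∈ B.filter (fun M => ∃ a ∈ M, a.2 = v),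
        1 / (N.descFactorial M.card : ℝ) ≤ 1 / (16 * (Q : ℝ))) := by
  classical
  refine ⟨univ.biUnion (fun j => (univ.filter (fun φ => bad j φ)).image (gr j)),
    ?_, ?_, ?_, ?_, ?_, ?_⟩
  · intro M hM
    simp only [mem_biUnion, mem_univ, true_and, mem_image, mem_filter] at hM
    obtain ⟨j, φ, _, rfl⟩ := hM
    intro a ha b hb
    obtain ⟨x, rfl⟩ := mem_gr.1 ha
    obtain ⟨y, rfl⟩ := mem_gr.1 hb
    simp
  · intro M hM
    simp only [mem_biUnion, mem_univ, true_and, mem_image, mem_filter] at hM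
    obtain ⟨j, φ, _, rfl⟩ := hM
    rw [← card_pos, gr_card]
    exact hQ1 j
  · intro M hM
    simp only [mem_biUnion, mem_univ, true_and, mem_image, mem_filter] at hM
    obtain ⟨j, φ, _, rfl⟩ := hM
    rw [gr_card]
    exact hQ j
  · intro σ hσ j hb
    refine hσ (gr j (slotEmb σ j)) ?_ ?_
    · simp only [mem_biUnion, mem_univ, true_and, mem_image, mem_filter]
      exact ⟨j, _, hb, rfl⟩
    · intro a ha
      obtain ⟨x, rfl⟩ := mem_gr.1 ha
      rfl
  · rintro ⟨j, x⟩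
    have h1 := sum_le_of_cover
      ((univ.biUnion (fun j => (univ.filter (fun φ => bad j φ)).image (gr j))).filter
        (fun M => ∃ a ∈ M, a.1 = (⟨j, x⟩ : Σ j : Fin m, Fin (s * sz j))))
      (univ.filter (fun φ => bad j φ)) (gr j) (fun M => 1 / (N.descFactorial M.card : ℝ))
      (fun M => by positivity) (by
        intro M hM
        simp only [mem_filter, mem_biUnion, mem_univ, true_and, mem_image] at hM
        obtain ⟨⟨j', φ, hφ, rfl⟩, a, ha, hax⟩ := hM
        obtain ⟨x', rfl⟩ := mem_gr.1 ha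
        simp only [Sigma.mk.injEq] at hax
        obtain ⟨rfl, _⟩ := hax
        exact ⟨φ, by simpa using hφ, rfl⟩)
    refine h1.trans ?_
    simp only [gr_card]
    have h2 : (univ.filter (fun φ : Fin (s * sz j) ↪ Fin N => bad j φ)) =
        (univ : Finset (Fin N)).biUnion
          (fun v => univ.filter (fun φ : Fin (s * sz j) ↪ Fin N => φ x = v ∧ bad j φ)) := by
      ext φ; simp
    rw [h2, sum_biUnion]
    · by_cases hN0 : N = 0
      · subst hN0
        simp
      calc ∑ v : Fin N, ∑ φ ∈ univ.filter (fun φ : Fin (s * sz j) ↪ Fin N => φ x = v ∧ bad j φ),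
            1 / (N.descFactorial (s * sz j) : ℝ)
          ≤ ∑ v : Fin N, 1 / (16 * (Q : ℝ)) / N :=
            sum_le_sum (fun v _ => sum_vertex sz hN Q hQ1 hQ bad hbad j x v)
        _ = 1 / (16 * (Q : ℝ)) := by
            rw [sum_const, card_univ, Fintype.card_fin, nsmul_eq_mul]
            have : (N : ℝ) ≠ 0 := by exact_mod_cast hN0
            field_simp
    · intro v _ v' _ hvv
      rw [Function.onFun, disjoint_left]
      intro φ h1 h2
      simp only [mem_filter, mem_univ, true_and] at h1 h2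
      exact hvv (h1.1.symm.trans h2.1)
  · intro v
    have hNpos : 0 < N := v.pos
    have hN' : (N : ℝ) ≠ 0 := by exact_mod_cast hNpos.ne'
    have h1 := sum_le_of_cover
      ((univ.biUnion (fun j => (univ.filter (fun φ => bad j φ)).image (gr j))).filter
        (fun M => ∃ a ∈ M, a.2 = v))
      ((univ : Finset (Σ j : Fin m, Fin (s * sz j))).sigma
        (fun y => univ.filter (fun φ : Fin (s * sz y.1) ↪ Fin N => φ y.2 = v ∧ bad y.1 φ)))
      (fun p => gr p.1.1 p.2) (fun M => 1 / (N.descFactorial M.card : ℝ))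
      (fun M => by positivity) (by
        intro M hM
        simp only [mem_filter, mem_biUnion, mem_univ, true_and, mem_image] at hM
        obtain ⟨⟨j', φ, hφ, rfl⟩, a, ha, hax⟩ := hM
        obtain ⟨x', rfl⟩ := mem_gr.1 ha
        exact ⟨⟨⟨j', x'⟩, φ⟩, by simpa using ⟨hax, hφ⟩, rfl⟩)
    refine h1.trans ?_
    rw [sum_sigma]
    simp only [gr_card]
    calc ∑ y : (Σ j : Fin m, Fin (s * sz j)),
          ∑ φ ∈ univ.filter (fun φ : Fin (s * sz y.1) ↪ Fin N => φ y.2 = v ∧ bad y.1 φ),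
            1 / (N.descFactorial (s * sz y.1) : ℝ)
        ≤ ∑ y : (Σ j : Fin m, Fin (s * sz j)), 1 / (16 * (Q : ℝ)) / N :=
          sum_le_sum (fun y _ => sum_vertex sz hN Q hQ1 hQ bad hbad y.1 y.2 v)
      _ = 1 / (16 * (Q : ℝ)) := by
          rw [sum_const, card_univ, Fintype.card_sigma]
          simp only [Fintype.card_fin]
          rw [hN, nsmul_eq_mul]
          field_simp

end Pool.Agent.TFactor
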