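import Mathlib
import Pool.Agent.Work.MP_5010fd_co.Defs

namespace Pool.Agent.TFactor

open Finset

private theorem two_le_card_biUnion {k s : ℕ} (hk : 2 ≤ k) {F J : Finset (Finset (Fin s))}
    (hF : ∀ e ∈ F, e.card = k) (hJ : J ⊆ F) (hne : J.Nonempty) :
    2 ≤ (J.biUnion id).card := by
  obtain ⟨e, he⟩ := hne
  calc 2 ≤ k := hk
    _ = e.card := (hF e (hJ he)).symm
    _ ≤ (J.biUnion id).card := Finset.card_le_card (fun x hx => by
        rw [Finset.mem_biUnion]
        exact ⟨e, he, hx⟩)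

/-- strictly balanced in integral form. -/
theorem bal1_of_strictBal {k s : ℕ} (hk : 2 ≤ k) (F : Finset (Finset (Fin s)))
    (hF : ∀ e ∈ F, e.card = k) (hS : StrictBal F) : Bal1 F := by
  intro J hJ hne hJF
  have h2 := two_le_card_biUnion hk hF hJ hne
  have hs : (J.biUnion id).card ≤ s := by
    simpa using Finset.card_le_univ (J.biUnion id)
  have h := hS (J.biUnion id) J h2 hJ (fun e he x hx => by
    rw [Finset.mem_biUnion]
    exact ⟨e, he, hx⟩) (Or.inr hJF)
  have hs2 : 2 ≤ s := h2.trans hs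
  have hv : (0 : ℝ) < ((J.biUnion id).card : ℝ) - 1 := by
    have : (2 : ℝ) ≤ ((J.biUnion id).card : ℝ) := by exact_mod_cast h2
    linarith
  have hs' : (0 : ℝ) < (s : ℝ) - 1 := by
    have : (2 : ℝ) ≤ (s : ℝ) := by exact_mod_cast hs2
    linarith
  rw [div_lt_div_iff₀ hv hs'] at h
  have h3 : (((s - 1) * J.card : ℕ) : ℝ) < ((F.card * ((J.biUnion id).card - 1) : ℕ) : ℝ) := by
    rw [Nat.cast_mul, Nat.cast_mul, Nat.cast_sub (by omega : 1 ≤ s),
      Nat.cast_sub (by omega : 1 ≤ (J.biUnion id).card), Nat.cast_one]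
    linarith
  exact Nat.succ_le_of_lt (by exact_mod_cast h3)

/-- a strictly balanced nonempty `F` has no isolated vertices. -/
theorem biUnion_of_strictBal {k s : ℕ} (hk : 2 ≤ k) (F : Finset (Finset (Fin s)))
    (hF : ∀ e ∈ F, e.card = k) (hne : F.Nonempty) (hS : StrictBal F) :
    F.biUnion id = univ := by
  by_contra hc
  have h2 := two_le_card_biUnion hk hF (le_refl F) hne
  have hs : (F.biUnion id).card ≤ s := by
    simpa using Finset.card_le_univ (F.biUnion id)
  have h := hS (F.biUnion id) F h2 (le_refl F) (fun e he x hx => by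
    rw [Finset.mem_biUnion]
    exact ⟨e, he, hx⟩) (Or.inl hc)
  have hv : (0 : ℝ) < ((F.biUnion id).card : ℝ) - 1 := by
    have : (2 : ℝ) ≤ ((F.biUnion id).card : ℝ) := by exact_mod_cast h2
    linarith
  have hle : ((F.biUnion id).card : ℝ) - 1 ≤ (s : ℝ) - 1 := by
    have : ((F.biUnion id).card : ℝ) ≤ (s : ℝ) := by exact_mod_cast hs
    linarith
  have h4 : (F.card : ℝ) / ((s : ℝ) - 1) ≤ (F.card : ℝ) / (((F.biUnion id).card : ℝ) - 1) :=
    div_le_div_of_nonneg_left (Nat.cast_nonneg _) hv hle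
  linarith

end Pool.Agent.TFactor
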