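import Mathlib
import Pool.Agent.Work.MP_5010fd_co.Defs

namespace Pool.Agent.TFactor

open Finset

variable {X : Type} [Fintype X] [DecidableEq X]

theorem bw_nonneg {p : ℝ} (h0 : 0 ≤ p) (h1 : p ≤ 1) (W : Finset X) : 0 ≤ bw p W :=
  mul_nonneg (pow_nonneg h0 _) (pow_nonneg (by linarith) _)

omit [Fintype X] in
/-- expectation over a random subset of `S` -/
private noncomputable def ES (S : Finset X) (p : ℝ) (f : Finset X → ℝ) : ℝ :=
  ∑ W ∈ S.powerset, p ^ W.card * (1 - p) ^ (S.card - W.card) * f W

omit [Fintype X] [DecidableEq X] in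
private theorem ES_empty (p : ℝ) (f : Finset X → ℝ) : ES ∅ p f = f ∅ := by simp [ES]

omit [Fintype X] in
private theorem ES_insert {a : X} {S : Finset X} (ha : a ∉ S) (p : ℝ) (f : Finset X → ℝ) :
    ES (insert a S) p f = (1 - p) * ES S p f + p * ES S p (fun W => f (insert a W)) := by
  unfold ES
  rw [Finset.sum_powerset_insert ha, Finset.mul_sum, Finset.mul_sum]
  congr 1
  · refine Finset.sum_congr rfl fun W hW => ?_
    have hWS : W.card ≤ S.card := card_le_card (mem_powerset.1 hW)
    rw [card_insert_of_notMem ha, Nat.sub_add_comm hWS, pow_succ]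
    ring
  · refine Finset.sum_congr rfl fun W hW => ?_
    have haW : a ∉ W := fun h => ha (mem_powerset.1 hW h)
    rw [card_insert_of_notMem ha, card_insert_of_notMem haW, Nat.add_sub_add_right, pow_succ]
    ring

omit [Fintype X] [DecidableEq X] in
private theorem ES_congr {S : Finset X} {p : ℝ} {f g : Finset X → ℝ}
    (h : ∀ W, W ⊆ S → f W = g W) : ES S p f = ES S p g :=
  Finset.sum_congr rfl fun W hW => by rw [h W (mem_powerset.1 hW)]

omit [Fintype X] [DecidableEq X] in
private theorem ES_le {S : Finset X} {p : ℝ} (h0 : 0 ≤ p) (h1 : p ≤ 1) {f g : Finset X → ℝ}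
    (h : ∀ W, W ⊆ S → f W ≤ g W) : ES S p f ≤ ES S p g :=
  Finset.sum_le_sum fun W hW => mul_le_mul_of_nonneg_left (h W (mem_powerset.1 hW))
    (mul_nonneg (pow_nonneg h0 _) (pow_nonneg (by linarith) _))

omit [DecidableEq X] in
private theorem ES_univ (p : ℝ) (f : Finset X → ℝ) :
    ES univ p f = ∑ W : Finset X, bw p W * f W := by
  unfold ES bw
  rw [Finset.powerset_univ, Finset.card_univ]

omit [DecidableEq X] in
private theorem bP_eq_ES (p : ℝ) (P : Finset X → Prop) [DecidablePred P] :
    bP p P = ES univ p (fun W => if P W then 1 else 0) := by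
  rw [ES_univ]
  unfold bP
  refine Finset.sum_congr rfl fun W _ => ?_
  by_cases h : P W <;> simp [h]

theorem sum_bw (p : ℝ) : ∑ W : Finset X, bw p W = 1 := by
  unfold bw
  rw [Fintype.sum_pow_mul_eq_add_pow]
  simp

private theorem sum_split (a : X) (F : Finset X → ℝ) :
    ∑ W : Finset X, F W = ∑ W ∈ (univ.erase a).powerset, (F W + F (insert a W)) := by
  have h : (univ : Finset (Finset X)) = (insert a (univ.erase a)).powerset := by
    rw [insert_erase (mem_univ a), powerset_univ]
  rw [h, Finset.sum_powerset_insert (notMem_erase a univ), Finset.sum_add_distrib]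

private theorem bw_insert (p : ℝ) {a : X} {W : Finset X} (ha : a ∉ W) :
    bw p (insert a W) = p * (bw p W + bw p (insert a W)) := by
  have hc : W.card + 1 ≤ Fintype.card X := by
    rw [← card_insert_of_notMem ha]
    exact card_le_univ _
  obtain ⟨m, hm⟩ := Nat.exists_eq_add_of_le hc
  unfold bw
  rw [card_insert_of_notMem ha, hm]
  have e1 : W.card + 1 + m - (W.card + 1) = m := by omega
  have e2 : W.card + 1 + m - W.card = m + 1 := by omega
  rw [e1, e2]
  ring

private theorem sum_bw_mem (p : ℝ) (a : X) (f : Finset X → ℝ) :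
    ∑ W : Finset X, bw p W * (if a ∈ W then f W else 0) =
      p * ∑ W : Finset X, bw p W * f (insert a W) := by
  rw [sum_split a, sum_split a (fun W => bw p W * f (insert a W)), Finset.mul_sum]
  refine Finset.sum_congr rfl fun W hW => ?_
  have ha : a ∉ W := fun h => (notMem_erase a univ) (mem_powerset.1 hW h)
  rw [if_neg ha, if_pos (mem_insert_self a W), insert_idem]
  have := bw_insert p ha
  linear_combination (f (insert a W)) * this

/-- resampling: on the event that `B` is contained in the random set. -/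
theorem sum_bw_superset (p : ℝ) (B : Finset X) (f : Finset X → ℝ) :
    ∑ W : Finset X, bw p W * (if B ⊆ W then f W else 0) =
      p ^ B.card * ∑ W : Finset X, bw p W * f (W ∪ B) := by
  induction B using Finset.induction_on generalizing f with
  | empty => simp
  | insert a B ha ih =>
    have h1 : ∀ W : Finset X, (if insert a B ⊆ W then f W else 0) =
        (if a ∈ W then (if B ⊆ W then f W else 0) else 0) := by
      intro W
      by_cases h1 : a ∈ W <;> by_cases h2 : B ⊆ W <;> simp [insert_subset_iff, h1, h2]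
    simp_rw [h1]
    rw [sum_bw_mem p a (fun W => if B ⊆ W then f W else 0)]
    have h2 : ∀ W : Finset X, (if B ⊆ insert a W then f (insert a W) else 0) =
        (if B ⊆ W then f (insert a W) else 0) := by
      intro W
      simp only [subset_insert_iff_of_notMem ha]
    simp_rw [h2]
    rw [ih (fun W => f (insert a W)), card_insert_of_notMem ha, pow_succ]
    have h3 : ∀ W : Finset X, insert a (W ∪ B) = W ∪ insert a B := by
      intro W
      rw [union_insert]
    simp_rw [h3]
    ring

omit [DecidableEq X] in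
theorem bP_nonneg {p : ℝ} (h0 : 0 ≤ p) (h1 : p ≤ 1) (P : Finset X → Prop) : 0 ≤ bP p P := by
  classical
  refine Finset.sum_nonneg fun W _ => ?_
  split_ifs
  · exact bw_nonneg h0 h1 W
  · exact le_rfl

omit [DecidableEq X] in
theorem bP_mono {p : ℝ} (h0 : 0 ≤ p) (h1 : p ≤ 1) {P Q : Finset X → Prop}
    (h : ∀ W, P W → Q W) : bP p P ≤ bP p Q := by
  classical
  refine Finset.sum_le_sum fun W _ => ?_
  by_cases hP : P W
  · rw [if_pos hP, if_pos (h W hP)]
  · rw [if_neg hP]
    split_ifs
    · exact bw_nonneg h0 h1 W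
    · exact le_rfl

omit [DecidableEq X] in
theorem bP_not (p : ℝ) (P : Finset X → Prop) : bP p (fun W => ¬ P W) = 1 - bP p P := by
  classical
  rw [eq_sub_iff_add_eq, ← sum_bw (X := X) p]
  unfold bP
  rw [← Finset.sum_add_distrib]
  refine Finset.sum_congr rfl fun W _ => ?_
  by_cases hP : P W <;> simp [hP]

omit [DecidableEq X] in
theorem bP_le_one {p : ℝ} (h0 : 0 ≤ p) (h1 : p ≤ 1) (P : Finset X → Prop) : bP p P ≤ 1 := by
  have h := bP_nonneg h0 h1 (fun W => ¬ P W)
  rw [bP_not] at h
  linarith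

omit [DecidableEq X] in
theorem bP_or_le {p : ℝ} (h0 : 0 ≤ p) (h1 : p ≤ 1) (P Q : Finset X → Prop) :
    bP p (fun W => P W ∨ Q W) ≤ bP p P + bP p Q := by
  classical
  unfold bP
  rw [← Finset.sum_add_distrib]
  refine Finset.sum_le_sum fun W _ => ?_
  have := bw_nonneg h0 h1 W
  by_cases hP : P W <;> by_cases hQ : Q W <;> simp [hP, hQ, this]

omit [DecidableEq X] in
theorem bP_and_not_ge {p : ℝ} (h0 : 0 ≤ p) (h1 : p ≤ 1) (P Q : Finset X → Prop) :
    bP p P - bP p Q ≤ bP p (fun W => P W ∧ ¬ Q W) := by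
  classical
  unfold bP
  rw [← Finset.sum_sub_distrib]
  refine Finset.sum_le_sum fun W _ => ?_
  have := bw_nonneg h0 h1 W
  by_cases hP : P W <;> by_cases hQ : Q W <;> simp [hP, hQ, this]

theorem bP_superset (p : ℝ) (B : Finset X) : bP p (fun W => B ⊆ W) = p ^ B.card := by
  have h := sum_bw_superset p B (fun _ => (1 : ℝ))
  simp only [mul_one] at h
  rw [sum_bw, mul_one] at h
  rw [← h]
  unfold bP
  refine Finset.sum_congr rfl fun W _ => ?_
  by_cases hP : B ⊆ W <;> simp [hP]

theorem bP_exists_subset_le {p : ℝ} (h0 : 0 ≤ p) (h1 : p ≤ 1) (D : Finset (Finset X)) :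
    bP p (fun W => ∃ Y ∈ D, Y ⊆ W) ≤ ∑ Y ∈ D, p ^ Y.card := by
  induction D using Finset.induction_on with
  | empty => simp [bP]
  | insert Y D hY ih =>
    rw [Finset.sum_insert hY]
    have h2 : bP p (fun W => ∃ Z ∈ insert Y D, Z ⊆ W) ≤
        bP p (fun W => Y ⊆ W ∨ ∃ Z ∈ D, Z ⊆ W) := by
      refine bP_mono h0 h1 fun W h => ?_
      obtain ⟨Z, hZ, hZW⟩ := h
      rcases mem_insert.1 hZ with rfl | hZ
      · exact Or.inl hZW
      · exact Or.inr ⟨Z, hZ, hZW⟩
    refine h2.trans ((bP_or_le h0 h1 _ _).trans ?_)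
    rw [bP_superset]
    linarith

omit [Fintype X] in
private theorem ES_two (p1 p2 : ℝ) (S : Finset X) (F : Finset X → ℝ) :
    ES S p1 (fun W1 => ES S p2 (fun W2 => F (W1 ∪ W2))) = ES S (p1 + p2 - p1 * p2) F := by
  induction S using Finset.induction_on generalizing F with
  | empty => simp [ES_empty]
  | insert a S ha ih =>
    rw [ES_insert ha, ES_insert ha]
    have e1 : ES S p1 (fun W1 => ES (insert a S) p2 (fun W2 => F (W1 ∪ W2))) =
        (1 - p2) * ES S p1 (fun W1 => ES S p2 (fun W2 => F (W1 ∪ W2))) +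
        p2 * ES S p1 (fun W1 => ES S p2 (fun W2 => F (insert a (W1 ∪ W2)))) := by
      simp_rw [ES_insert ha]
      unfold ES
      simp_rw [mul_add, Finset.sum_add_distrib, Finset.mul_sum, union_insert]
      congr 1 <;>
      · refine Finset.sum_congr rfl fun W _ => ?_
        refine Finset.sum_congr rfl fun W' _ => ?_
        ring
    have e2 : ES S p1 (fun W1 => ES (insert a S) p2 (fun W2 => F (insert a W1 ∪ W2))) =
        ES S p1 (fun W1 => ES S p2 (fun W2 => F (insert a (W1 ∪ W2)))) := by
      simp_rw [ES_insert ha, insert_union, union_insert, insert_idem]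
      refine ES_congr fun W _ => ?_
      ring
    rw [e1, e2, ih F, ih (fun W => F (insert a W))]
    ring

omit [Fintype X] in
private theorem ES_mono_p {p p' : ℝ} (h0 : 0 ≤ p) (hpp : p ≤ p') (h1 : p' ≤ 1) (S : Finset X)
    (F : Finset X → ℝ) (hF : ∀ S T, S ⊆ T → F S ≤ F T) : ES S p F ≤ ES S p' F := by
  induction S using Finset.induction_on generalizing F with
  | empty => simp [ES_empty]
  | insert a S ha ih =>
    rw [ES_insert ha, ES_insert ha]
    have i1 := ih F hF
    have i2 := ih (fun W => F (insert a W)) (fun S T h => hF _ _ (insert_subset_insert a h))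
    have i3 : ES S p' F ≤ ES S p' (fun W => F (insert a W)) :=
      ES_le (h0.trans hpp) h1 fun W _ => hF _ _ (subset_insert a W)
    have hp1 : p ≤ 1 := hpp.trans h1
    nlinarith [mul_le_mul_of_nonneg_left i1 (sub_nonneg.2 hp1), mul_le_mul_of_nonneg_left i2 h0,
      mul_nonneg (sub_nonneg.2 hpp) (sub_nonneg.2 i3)]

theorem bP_mono_p {p p' : ℝ} (h0 : 0 ≤ p) (hpp : p ≤ p') (h1 : p' ≤ 1)
    (P : Finset X → Prop) (hP : ∀ S T, S ⊆ T → P S → P T) : bP p P ≤ bP p' P := by
  classical
  rw [bP_eq_ES, bP_eq_ES]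
  refine ES_mono_p h0 hpp h1 _ _ fun S T h => ?_
  by_cases hS : P S
  · simp [hS, hP S T h hS]
  · rw [if_neg hS]
    split_ifs <;> norm_num

/-- two rounds of exposure are dominated by one round with a larger parameter. -/
theorem bP_two_round {p p1 p2 : ℝ} (h1 : 0 ≤ p1) (h2 : 0 ≤ p2) (h12 : p1 + p2 ≤ p) (hp : p ≤ 1)
    (P : Finset X → Prop) (hP : ∀ S T, S ⊆ T → P S → P T) :
    ∑ W1 : Finset X, bw p1 W1 * bP p2 (fun W2 => P (W1 ∪ W2)) ≤ bP p P := by
  classical
  have e : ∑ W1 : Finset X, bw p1 W1 * bP p2 (fun W2 => P (W1 ∪ W2)) =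
      bP (p1 + p2 - p1 * p2) P := by
    rw [bP_eq_ES, ← ES_two, ES_univ]
    refine Finset.sum_congr rfl fun W _ => ?_
    rw [bP_eq_ES]
  rw [e]
  have hp1 : p1 ≤ 1 := by linarith
  have h3 : 0 ≤ p1 * p2 := mul_nonneg h1 h2
  refine bP_mono_p ?_ ?_ hp P hP
  · nlinarith [mul_nonneg h2 (sub_nonneg.2 hp1)]
  · linarith

omit [Fintype X] in
private theorem ES_marginal (p : ℝ) (K : Finset X) (f : Finset X → ℝ) (D : Finset X)
    (hD : Disjoint D K) : ES (D ∪ K) p (fun W => f (W ∩ K)) = ES K p f := by
  induction D using Finset.induction_on with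
  | empty =>
    rw [empty_union]
    exact ES_congr fun W hW => by rw [inter_eq_left.2 hW]
  | insert a D ha ih =>
    have haK : a ∉ K := fun h => disjoint_left.1 hD (mem_insert_self a D) h
    have hDK : Disjoint D K := disjoint_of_subset_left (subset_insert a D) hD
    rw [insert_union, ES_insert (by simp [ha, haK])]
    have : (fun W : Finset X => f (insert a W ∩ K)) = fun W => f (W ∩ K) := by
      funext W
      rw [insert_inter_of_notMem haK]
    rw [this, ih hDK]
    ring

/-- the intersection of the random set with a fixed set `K`. -/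
theorem bw_marginal (p : ℝ) (K : Finset X) (f : Finset X → ℝ) :
    ∑ W : Finset X, bw p W * f (W ∩ K) =
      ∑ W ∈ K.powerset, p ^ W.card * (1 - p) ^ (K.card - W.card) * f W := by
  have h := ES_marginal p K f Kᶜ disjoint_compl_left
  rw [← ES_univ p (fun W => f (W ∩ K))]
  have hu : Kᶜ ∪ K = univ := by
    ext x
    by_cases hx : x ∈ K <;> simp [hx]
  rw [← hu, h]
  rfl

end Pool.Agent.TFactor
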