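import Mathlib
import Pool.Agent.Work.MP_5010fd_co.Defs

namespace Pool.Agent.TFactor

open Finset

section ConcAux

variable {V Y : Type} [Fintype V] [DecidableEq V] [Fintype Y] [DecidableEq Y]

omit [Fintype V] [DecidableEq V] in
private theorem exists_perm_image (S T : Finset Y) (h : S.card = T.card) :
    ∃ σ : Equiv.Perm Y, S.image σ = T := by
  have e : {x // x ∈ S} ≃ {x // x ∈ T} := Finset.equivOfCardEq h
  refine ⟨e.extendSubtype, ?_⟩
  refine eq_of_subset_of_card_le ?_ ?_
  · intro y hy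
    obtain ⟨x, hx, rfl⟩ := mem_image.1 hy
    exact e.extendSubtype_mem x hx
  · rw [card_image_of_injective _ (Equiv.injective _), h]

omit [Fintype V] [DecidableEq V] in
private theorem sum_perm (h : ℕ) (T0 : Finset Y) (hT0 : T0.card = h) (G : Finset Y → ℝ) :
    ((Fintype.card Y).choose h : ℝ) * ∑ e : Equiv.Perm Y, G (T0.image e) =
      ((Fintype.card Y).factorial : ℝ) * ∑ T ∈ powersetCard h (univ : Finset Y), G T := by
  have h1 : ∑ T ∈ powersetCard h (univ : Finset Y), ∑ e : Equiv.Perm Y, G (T.image e) =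
      ((Fintype.card Y).choose h : ℝ) * ∑ e : Equiv.Perm Y, G (T0.image e) := by
    have h2 : ∀ T ∈ powersetCard h (univ : Finset Y), ∑ e : Equiv.Perm Y, G (T.image e) =
        ∑ e : Equiv.Perm Y, G (T0.image e) := by
      intro T hT
      obtain ⟨σ, hσ⟩ := exists_perm_image T0 T (by rw [hT0, (mem_powersetCard.1 hT).2])
      rw [← hσ]
      refine Fintype.sum_equiv (Equiv.mulRight σ) _ _ fun e => ?_
      rw [image_image]
      rfl
    rw [sum_congr rfl h2, sum_const, card_powersetCard, card_univ, nsmul_eq_mul]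
  have h3 : ∀ e : Equiv.Perm Y, ∑ T ∈ powersetCard h (univ : Finset Y), G (T.image e) =
      ∑ T ∈ powersetCard h (univ : Finset Y), G T := by
    intro e
    refine sum_bij (fun T _ => T.image e) ?_ ?_ ?_ ?_
    · intro T hT
      rw [mem_powersetCard] at hT ⊢
      exact ⟨subset_univ _, by rw [card_image_of_injective _ e.injective, hT.2]⟩
    · intro a _ b _ hab
      exact image_injective e.injective hab
    · intro T hT
      rw [mem_powersetCard] at hT
      refine ⟨T.image e.symm, ?_, ?_⟩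
      · rw [mem_powersetCard]
        exact ⟨subset_univ _, by rw [card_image_of_injective _ e.symm.injective, hT.2]⟩
      · rw [image_image]
        simp
    · intro T _
      rfl
  rw [← h1, sum_comm, sum_congr rfl (fun e _ => h3 e), sum_const, card_univ, Fintype.card_perm,
    nsmul_eq_mul]

private theorem card_inj (h : ℕ) (D : Finset (Finset V)) (hD : ∀ T ∈ D, T.card = h) :
    h.factorial * D.card ≤ (univ.filter (fun a : Fin h → V => univ.image a ∈ D)).card := by
  classical
  have h1 : Fintype.card (Σ T : {T // T ∈ D}, (Fin h ≃ {x // x ∈ T.1})) =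
      h.factorial * D.card := by
    rw [Fintype.card_sigma]
    have h2 : ∀ T : {T // T ∈ D}, Fintype.card (Fin h ≃ {x // x ∈ T.1}) = h.factorial := by
      intro T
      have e : Fin h ≃ {x // x ∈ T.1} := Fintype.equivOfCardEq (by simp [hD T.1 T.2])
      rw [Fintype.card_equiv e, Fintype.card_fin]
    simp only [h2]
    simp [mul_comm]
  rw [← h1, ← card_univ]
  have him : ∀ (T : Finset V) (e : Fin h ≃ {x // x ∈ T}),
      (univ : Finset (Fin h)).image (fun i => ((e i : {x // x ∈ T}) : V)) = T := by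
    intro T e
    ext x
    simp only [mem_image, mem_univ, true_and]
    constructor
    · rintro ⟨i, rfl⟩
      exact (e i).2
    · intro hx
      exact ⟨e.symm ⟨x, hx⟩, by simp⟩
  refine card_le_card_of_injOn (fun a i => ((a.2 i : {x // x ∈ a.1.1}) : V)) ?_ ?_
  · intro a _
    simp only [coe_filter, mem_univ, true_and, Set.mem_ofPred_eq]
    rw [him a.1.1 a.2]
    exact a.1.2
  · rintro ⟨⟨T, hT⟩, e⟩ _ ⟨⟨T', hT'⟩, e'⟩ _ heq
    simp only at heq
    have h2 : T = T' := by
      rw [← him T e, ← him T' e', heq]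
    subst h2
    have h3 : e = e' := by
      ext i
      exact congrFun heq i
    rw [h3]

omit [DecidableEq V] in
private theorem mgf (h m r : ℕ) (w : (Fin h → V) → ℝ) (φ : (Fin m × Fin h) ⊕ Fin r ≃ Y) :
    ∑ f : Y → V, ∏ j : Fin m, w (fun i => f (φ (Sum.inl (j, i)))) =
      (Fintype.card V : ℝ) ^ r * (∑ a, w a) ^ m := by
  classical
  have e1 : ∑ f : Y → V, ∏ j : Fin m, w (fun i => f (φ (Sum.inl (j, i)))) =
     ∑ p : (Fin m → Fin h → V) × (Fin r → V), ∏ j, w (p.1 j) := by
    refine Fintype.sum_equiv (((Equiv.arrowCongr φ.symm (Equiv.refl V)).trans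
      (Equiv.sumArrowEquivProdArrow _ _ _)).trans
      (Equiv.prodCongr (Equiv.curry _ _ _) (Equiv.refl _))) _ _ ?_
    intro f
    rfl
  rw [e1, Fintype.sum_prod_type]
  simp only [sum_const, card_univ, nsmul_eq_mul]
  rw [← mul_sum, Fintype.card_fun, Fintype.card_fin, ← Fintype.sum_pow]
  push_cast
  ring

end ConcAux

/-- lower tail of the number of `h`-subsets which a random function maps onto a member
of `D`. -/
theorem conc {V Y : Type} [Fintype V] [DecidableEq V] [Fintype Y] [DecidableEq Y] (h : ℕ)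
    (hh : 1 ≤ h) (D : Finset (Finset V)) (hD : ∀ T ∈ D, T.card = h) (P τ : ℝ) (hP0 : 0 ≤ P)
    (hτ : 0 ≤ τ) (hP : P * (Fintype.card V : ℝ) ^ h ≤ (h.factorial : ℝ) * D.card) :
    ((univ.filter (fun f : Y → V =>
      (((powersetCard h (univ : Finset Y)).filter (fun T => T.image f ∈ D)).card : ℝ) ≤
        (P - τ) * ((Fintype.card Y).choose h : ℝ))).card : ℝ) ≤
      Real.exp (-(((Fintype.card Y / h : ℕ) : ℝ) * τ ^ 2 / 2)) *
        (Fintype.card V : ℝ) ^ (Fintype.card Y) := by
  classical
  set n := Fintype.card Y with hn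
  set m := n / h with hm
  set A := univ.filter (fun f : Y → V =>
      (((powersetCard h (univ : Finset Y)).filter (fun T => T.image f ∈ D)).card : ℝ) ≤
        (P - τ) * (n.choose h : ℝ)) with hA
  have htriv : (A.card : ℝ) ≤ (Fintype.card V : ℝ) ^ n := by
    have h1 : A.card ≤ Fintype.card (Y → V) := card_le_univ _
    rw [Fintype.card_fun] at h1
    exact_mod_cast h1
  rcases Nat.eq_zero_or_pos m with hm0 | hm0
  · rw [hm0]
    simpa using htriv
  have hmh : m * h ≤ n := Nat.div_mul_le_self n h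
  have hnh : h ≤ n := le_trans (Nat.le_mul_of_pos_left h hm0) hmh
  rcases Nat.eq_zero_or_pos (Fintype.card V) with hV | hV
  · refine htriv.trans ?_
    rw [hV]
    have : n ≠ 0 := by omega
    simp [this]
  have hVpos : (0 : ℝ) < (Fintype.card V : ℝ) := by exact_mod_cast hV
  -- the equivalence
  obtain ⟨r, hr⟩ : ∃ r, n = m * h + r := ⟨n - m * h, by omega⟩
  have φ : (Fin m × Fin h) ⊕ Fin r ≃ Y := Fintype.equivOfCardEq (by simp [← hn, hr])
  set B : Fin m → Finset Y := fun j => (univ : Finset (Fin h)).image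
    (fun i => φ (Sum.inl (j, i))) with hB
  have hBcard : ∀ j, (B j).card = h := by
    intro j
    simp only [hB]
    rw [card_image_of_injective, card_univ, Fintype.card_fin]
    intro a b hab
    have := φ.injective hab
    simpa using this
  -- one block
  set w : (Fin h → V) → ℝ := fun a => Real.exp (-τ * (if univ.image a ∈ D then 1 else 0)) with hw
  have hP1 : P ≤ 1 := by
    have h1 : ((h.factorial * D.card : ℕ) : ℝ) ≤ ((Fintype.card V ^ h : ℕ) : ℝ) := by
      have h2 := (card_inj h D hD).trans (card_le_univ _)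
      rw [Fintype.card_fun, Fintype.card_fin] at h2
      exact_mod_cast h2
    push_cast at h1
    have h3 : P * (Fintype.card V : ℝ) ^ h ≤ 1 * (Fintype.card V : ℝ) ^ h := by
      rw [one_mul]
      exact hP.trans h1
    exact le_of_mul_le_mul_right h3 (pow_pos hVpos _)
  have hexp1 : τ - τ ^ 2 / 2 ≤ 1 - Real.exp (-τ) := by
    have h1 : Real.exp (-τ) ≤ 1 - τ + τ ^ 2 / 2 := by
      have h2 := Real.quadratic_le_exp_of_nonneg hτ
      have h3 : (1 - τ + τ ^ 2 / 2) * (1 + τ + τ ^ 2 / 2) = 1 + τ ^ 4 / 4 := by ring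
      have h4 : 0 < 1 - τ + τ ^ 2 / 2 := by nlinarith [sq_nonneg (τ - 1)]
      rw [Real.exp_neg, inv_le_iff_one_le_mul₀ (Real.exp_pos _)]
      have h5 : 0 ≤ τ ^ 4 / 4 := by positivity
      nlinarith [mul_le_mul_of_nonneg_left h2 h4.le]
    linarith
  have hwsum : ∑ a, w a ≤ (Fintype.card V : ℝ) ^ h * Real.exp (-(P * τ) + τ ^ 2 / 2) := by
    have h1 : ∑ a, w a = (Fintype.card V : ℝ) ^ h - (1 - Real.exp (-τ)) *
        ((univ.filter (fun a : Fin h → V => univ.image a ∈ D)).card : ℝ) := by
      have h2 : ∀ a, w a = 1 - (1 - Real.exp (-τ)) * (if univ.image a ∈ D then 1 else 0) := by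
        intro a
        simp only [hw]
        split_ifs <;> simp
      simp only [h2]
      rw [sum_sub_distrib, ← mul_sum, sum_boole]
      simp
    have h0 : 0 ≤ 1 - Real.exp (-τ) := by
      have := Real.exp_le_one_iff.2 (neg_nonpos.2 hτ)
      linarith
    have h3 : (h.factorial : ℝ) * D.card ≤
        ((univ.filter (fun a : Fin h → V => univ.image a ∈ D)).card : ℝ) := by
      exact_mod_cast card_inj h D hD
    have h4 : P * (Fintype.card V : ℝ) ^ h ≤
        ((univ.filter (fun a : Fin h → V => univ.image a ∈ D)).card : ℝ) := hP.trans h3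
    rw [h1]
    calc (Fintype.card V : ℝ) ^ h - (1 - Real.exp (-τ)) *
        ((univ.filter (fun a : Fin h → V => univ.image a ∈ D)).card : ℝ)
        ≤ (Fintype.card V : ℝ) ^ h - (1 - Real.exp (-τ)) * (P * (Fintype.card V : ℝ) ^ h) := by
          have := mul_le_mul_of_nonneg_left h4 h0
          linarith
      _ = (Fintype.card V : ℝ) ^ h * (1 - P * (1 - Real.exp (-τ))) := by ring
      _ ≤ (Fintype.card V : ℝ) ^ h * Real.exp (-(P * τ) + τ ^ 2 / 2) := by
          refine mul_le_mul_of_nonneg_left ?_ (pow_nonneg hVpos.le _)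
          have h5 : 1 - P * (1 - Real.exp (-τ)) ≤ -(P * τ) + τ ^ 2 / 2 + 1 := by
            have h6 := mul_le_mul_of_nonneg_left hexp1 hP0
            have h7 : P * (τ ^ 2 / 2) ≤ 1 * (τ ^ 2 / 2) :=
              mul_le_mul_of_nonneg_right hP1 (by positivity)
            nlinarith
          exact h5.trans (Real.add_one_le_exp _)
  have hw0 : 0 ≤ ∑ a, w a := sum_nonneg fun a _ => (Real.exp_pos _).le
  -- the moment generating function
  set M : ℝ := ∑ f : Y → V, Real.exp (-τ * ∑ j : Fin m, (if (B j).image f ∈ D then 1 else 0))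
    with hM
  have hMle : M ≤ (Fintype.card V : ℝ) ^ n * Real.exp (m * (-(P * τ) + τ ^ 2 / 2)) := by
    have h1 : M = ∑ f : Y → V, ∏ j : Fin m, w (fun i => f (φ (Sum.inl (j, i)))) := by
      rw [hM]
      refine sum_congr rfl fun f _ => ?_
      rw [mul_sum, Real.exp_sum]
      refine prod_congr rfl fun j _ => ?_
      simp only [hw, hB]
      rw [image_image]
      rfl
    rw [h1, mgf h m r w φ]
    calc (Fintype.card V : ℝ) ^ r * (∑ a, w a) ^ m
        ≤ (Fintype.card V : ℝ) ^ r *
          ((Fintype.card V : ℝ) ^ h * Real.exp (-(P * τ) + τ ^ 2 / 2)) ^ m :=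
          mul_le_mul_of_nonneg_left (pow_le_pow_left₀ hw0 hwsum m) (pow_nonneg hVpos.le _)
      _ = (Fintype.card V : ℝ) ^ n * Real.exp (m * (-(P * τ) + τ ^ 2 / 2)) := by
          rw [mul_pow, ← pow_mul, ← Real.exp_nat_mul, ← mul_assoc, ← pow_add]
          congr 2
          rw [hr]
          ring
  -- Jensen
  set U : (Y → V) → ℝ := fun f =>
    (((powersetCard h (univ : Finset Y)).filter (fun T => T.image f ∈ D)).card : ℝ) with hU
  have hchoose : (0 : ℝ) < (n.choose h : ℝ) := by exact_mod_cast Nat.choose_pos hnh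
  have hfac : (0 : ℝ) < (n.factorial : ℝ) := by exact_mod_cast Nat.factorial_pos n
  have havg : ∀ (f : Y → V) (j : Fin m), ∑ e : Equiv.Perm Y,
      (if ((B j).image e).image f ∈ D then (1 : ℝ) else 0) =
        (n.factorial : ℝ) * (U f / (n.choose h : ℝ)) := by
    intro f j
    have h1 := sum_perm h (B j) (hBcard j) (fun T => if T.image f ∈ D then (1 : ℝ) else 0)
    have h2 : U f = ∑ T ∈ powersetCard h (univ : Finset Y),
        (if T.image f ∈ D then (1 : ℝ) else 0) := by
      rw [sum_boole]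
    rw [← hn, ← h2] at h1
    rw [← mul_div_assoc, eq_div_iff hchoose.ne', mul_comm]
    exact h1
  have hjensen : ∀ f : Y → V, Real.exp (-(m * τ) * (U f / (n.choose h : ℝ))) ≤
      (n.factorial : ℝ)⁻¹ * ∑ e : Equiv.Perm Y, Real.exp (-τ * ∑ j : Fin m,
        (if ((B j).image e).image f ∈ D then (1 : ℝ) else 0)) := by
    intro f
    have h1 := ConvexOn.map_sum_le (𝕜 := ℝ) (s := Set.univ) (f := Real.exp)
      (t := (univ : Finset (Equiv.Perm Y))) (w := fun _ => (n.factorial : ℝ)⁻¹)
      (p := fun e => -τ * ∑ j : Fin m,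
        (if ((B j).image e).image f ∈ D then (1 : ℝ) else 0)) convexOn_exp
      (fun _ _ => inv_nonneg.2 hfac.le)
      (by rw [sum_const, card_univ, Fintype.card_perm, nsmul_eq_mul, ← hn,
        mul_inv_cancel₀ hfac.ne']) (fun _ _ => Set.mem_univ _)
    simp only [smul_eq_mul] at h1
    rw [← mul_sum, ← mul_sum, ← mul_sum, sum_comm] at h1
    rw [sum_congr rfl (fun j _ => havg f j), sum_const, card_univ, Fintype.card_fin,
      nsmul_eq_mul] at h1
    refine le_trans (le_of_eq ?_) h1
    congr 1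
    field_simp
  have hswap : ∑ f : Y → V, ∑ e : Equiv.Perm Y, Real.exp (-τ * ∑ j : Fin m,
        (if ((B j).image e).image f ∈ D then (1 : ℝ) else 0)) = (n.factorial : ℝ) * M := by
    rw [sum_comm]
    have h1 : ∀ e : Equiv.Perm Y, ∑ f : Y → V, Real.exp (-τ * ∑ j : Fin m,
        (if ((B j).image e).image f ∈ D then (1 : ℝ) else 0)) = M := by
      intro e
      rw [hM]
      refine Fintype.sum_equiv (Equiv.arrowCongr e.symm (Equiv.refl V)) _ _ fun f => ?_
      congr 2
      refine sum_congr rfl fun j _ => ?_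
      rw [image_image]
      rfl
    rw [sum_congr rfl (fun e _ => h1 e), sum_const, card_univ, Fintype.card_perm, nsmul_eq_mul,
      ← hn]
  have htotal : ∑ f : Y → V, Real.exp (-(m * τ) * (U f / (n.choose h : ℝ))) ≤ M := by
    calc ∑ f : Y → V, Real.exp (-(m * τ) * (U f / (n.choose h : ℝ)))
        ≤ ∑ f : Y → V, (n.factorial : ℝ)⁻¹ * ∑ e : Equiv.Perm Y, Real.exp (-τ * ∑ j : Fin m,
        (if ((B j).image e).image f ∈ D then (1 : ℝ) else 0)) :=
          sum_le_sum fun f _ => hjensen f
      _ = M := by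
          rw [← mul_sum, hswap, ← mul_assoc, inv_mul_cancel₀ hfac.ne', one_mul]
  -- Markov
  have hmarkov : (A.card : ℝ) * Real.exp (-(m * τ) * (P - τ)) ≤ M := by
    refine le_trans ?_ htotal
    calc (A.card : ℝ) * Real.exp (-(m * τ) * (P - τ))
        = ∑ f ∈ A, Real.exp (-(m * τ) * (P - τ)) := by rw [sum_const, nsmul_eq_mul]
      _ ≤ ∑ f ∈ A, Real.exp (-(m * τ) * (U f / (n.choose h : ℝ))) := by
          refine sum_le_sum fun f hf => ?_
          rw [hA, mem_filter] at hf
          apply Real.exp_le_exp.2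
          have h1 : U f / (n.choose h : ℝ) ≤ P - τ := (div_le_iff₀ hchoose).2 hf.2
          have h2 : 0 ≤ (m : ℝ) * τ := by positivity
          nlinarith [mul_le_mul_of_nonneg_left h1 h2]
      _ ≤ ∑ f : Y → V, Real.exp (-(m * τ) * (U f / (n.choose h : ℝ))) :=
          sum_le_sum_of_subset_of_nonneg (subset_univ _) fun _ _ _ => (Real.exp_pos _).le
  have hfin : (A.card : ℝ) * Real.exp (-(m * τ) * (P - τ)) ≤
      (Fintype.card V : ℝ) ^ n * Real.exp (m * (-(P * τ) + τ ^ 2 / 2)) := hmarkov.trans hMle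
  have h9 : Real.exp (m * (-(P * τ) + τ ^ 2 / 2)) =
      Real.exp (-(m * τ ^ 2 / 2)) * Real.exp (-(m * τ) * (P - τ)) := by
    rw [← Real.exp_add]
    congr 1
    ring
  rw [h9, ← mul_assoc] at hfin
  have := le_of_mul_le_mul_right hfin (Real.exp_pos _)
  rw [mul_comm]
  exact this

end Pool.Agent.TFactor
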