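import Mathlib
import Pool.Agent.Work.MP_5010fd_co.Conc

namespace Pool.Agent.TFactor

open Finset

theorem ci_choose_ratio {n h : ℕ} (hn : 1 ≤ n) {ε : ℝ} (hε : (h : ℝ) ≤ ε * n) :
    (1 - ε) * (n.choose h : ℝ) ≤ ((n - 1).choose h : ℝ) := by
  obtain ⟨m, rfl⟩ : ∃ m, n = m + 1 := ⟨n - 1, by omega⟩
  simp only [Nat.add_sub_cancel]
  have h1 := Nat.choose_mul_succ_eq m h
  by_cases hh : h ≤ m + 1
  · have h2 : (m.choose h : ℝ) * ((m : ℝ) + 1) = ((m + 1).choose h : ℝ) * ((m : ℝ) + 1 - h) := by
      have := congrArg (fun z : ℕ => (z : ℝ)) h1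
      push_cast [Nat.cast_sub hh] at this
      exact this
    have hm : (0 : ℝ) < (m : ℝ) + 1 := by positivity
    have hc : (0 : ℝ) ≤ ((m + 1).choose h : ℝ) := by positivity
    push_cast at hε
    have h3 : (1 - ε) * ((m : ℝ) + 1) ≤ (m : ℝ) + 1 - h := by linarith
    have h4 := mul_le_mul_of_nonneg_left h3 hc
    rw [← h2] at h4
    have h5 : ((1 - ε) * ((m + 1).choose h : ℝ)) * ((m : ℝ) + 1) ≤ (m.choose h : ℝ) * ((m : ℝ) + 1) := by
      linarith
    exact le_of_mul_le_mul_right h5 hm
  · rw [Nat.choose_eq_zero_of_lt (by omega : m + 1 < h)]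
    simp

theorem ci_desc_ratio {N d h : ℕ} {ε : ℝ} (hε0 : 0 < ε) (hN : d + h ≤ N)
    (hε : (h : ℝ) * (d + h) ≤ ε * N) :
    (1 - ε) * (N : ℝ) ^ h ≤ (((N - d).choose h : ℕ) : ℝ) * (h.factorial : ℝ) := by
  have e1 : (((N - d).choose h : ℕ) : ℝ) * (h.factorial : ℝ) = ((N - d).descFactorial h : ℝ) := by
    rw [Nat.descFactorial_eq_factorial_mul_choose]
    push_cast; ring
  rw [e1]
  rcases Nat.eq_zero_or_pos h with rfl | hh
  · simp; linarith
  have hN0 : (0 : ℝ) < N := by
    have : 0 < N := by omega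
    exact_mod_cast this
  have h1 : (N - d - h) ^ h ≤ (N - d).descFactorial h := by
    refine le_trans (Nat.pow_le_pow_left (by omega : N - d - h ≤ N - d + 1 - h) h) ?_
    exact Nat.pow_sub_le_descFactorial _ _
  have h2 : (((N - d - h : ℕ) : ℝ)) ^ h ≤ ((N - d).descFactorial h : ℝ) := by exact_mod_cast h1
  refine le_trans ?_ h2
  have e2 : ((N - d - h : ℕ) : ℝ) = (N : ℝ) * (1 + (-((d + h : ℝ) / N))) := by
    rw [Nat.cast_sub (by omega), Nat.cast_sub (by omega)]
    field_simp
    ring
  rw [e2, mul_pow]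
  have hb : (-2 : ℝ) ≤ -((d + h : ℝ) / N) := by
    have : (d + h : ℝ) / N ≤ 1 := by
      rw [div_le_one hN0]; exact_mod_cast hN
    linarith
  have h3 := one_add_mul_le_pow hb h
  have h4 : 1 - ε ≤ 1 + (h : ℝ) * -((d + h : ℝ) / N) := by
    have : (h : ℝ) * ((d + h : ℝ) / N) ≤ ε := by
      rw [← mul_div_assoc, div_le_iff₀ hN0]
      exact hε
    linarith
  have h5 : (0 : ℝ) ≤ (N : ℝ) ^ h := by positivity
  calc (1 - ε) * (N : ℝ) ^ h = (N : ℝ) ^ h * (1 - ε) := by ring
    _ ≤ (N : ℝ) ^ h * (1 + -((d + h : ℝ) / N)) ^ h :=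
      mul_le_mul_of_nonneg_left (h4.trans h3) h5

/-- the link of `R` -/
def link {N : ℕ} (h : ℕ) (H : Finset (Finset (Fin N))) (R : Finset (Fin N)) :
    Finset (Finset (Fin N)) :=
  (powersetCard h (univ \ R)).filter (fun T => R ∪ T ∈ H)

theorem card_link_le {N h : ℕ} (H : Finset (Finset (Fin N))) (R : Finset (Fin N)) :
    (link h H R).card ≤ (N - R.card).choose h := by
  refine (card_le_card (filter_subset _ _)).trans ?_
  rw [card_powersetCard, card_sdiff_of_subset (subset_univ R), card_univ, Fintype.card_fin]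

theorem deg_le_link {N k : ℕ} (H : Finset (Finset (Fin N))) (hk : ∀ e ∈ H, e.card = k)
    (R : Finset (Fin N)) :
    (H.filter (fun e => R ⊆ e)).card ≤ (link (k - R.card) H R).card := by
  refine card_le_card_of_injOn (fun e => e \ R) ?_ ?_
  · intro e he
    rw [mem_coe, mem_filter] at he
    rw [mem_coe, link, mem_filter, mem_powersetCard]
    refine ⟨⟨sdiff_subset_sdiff (subset_univ e) (le_refl R), ?_⟩, ?_⟩
    · rw [card_sdiff_of_subset he.2, hk e he.1]
    · rw [union_sdiff_of_subset he.2]; exact he.1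
  · intro e he e' he' hee
    rw [mem_coe, mem_filter] at he he'
    simp only at hee
    rw [← union_sdiff_of_subset he.2, ← union_sdiff_of_subset he'.2, hee]

theorem link_pull {q N h : ℕ} (H : Finset (Finset (Fin N))) (φ : Fin q ↪ Fin N)
    (x : Fin q) (S : Finset (Fin q)) :
    ((powersetCard h (univ : Finset {y // y ∉ insert x S})).filter
      (fun T => T.image (fun y => φ y.1) ∈ link h H (S.map φ))).card ≤
    (univ.filter (fun e : Finset (Fin q) => S ⊆ e ∧ e.map φ ∈ H)).card := by
  classical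
  refine card_le_card_of_injOn
    (fun T => S ∪ T.map (Function.Embedding.subtype _)) ?_ ?_
  · intro T hT
    rw [mem_coe, mem_filter] at hT
    rw [mem_coe, mem_filter]
    refine ⟨mem_univ _, subset_union_left, ?_⟩
    have h2 := (mem_filter.1 hT.2).2
    rw [map_union, map_map]
    convert h2 using 2
    rw [map_eq_image]
    rfl
  · intro T hT T' hT' hTT
    simp only at hTT
    have key : ∀ T : Finset {y // y ∉ insert x S},
        (S ∪ T.map (Function.Embedding.subtype _)) \ S = T.map (Function.Embedding.subtype _) := by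
      intro T
      rw [union_sdiff_left, Finset.sdiff_eq_self_iff_disjoint, disjoint_left]
      intro y hy hyS
      rw [mem_map] at hy
      obtain ⟨z, -, rfl⟩ := hy
      exact z.2 (mem_insert_of_mem hyS)
    have h3 := key T
    rw [hTT, key T'] at h3
    exact (map_injective _ h3).symm

/-- fibrewise counting of embeddings -/
theorem ci_count {q N : ℕ} (x : Fin q) (v : Fin N) (S : Finset (Fin q))
    (Q : (Fin q ↪ Fin N) → Prop) [DecidablePred Q] (B : ℝ) (hB : 0 ≤ B)
    (hfib : ∀ φ0 : Fin q ↪ Fin N, φ0 x = v → Q φ0 →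
      ∃ A : Finset ({y // y ∉ insert x S} → Fin N), ((A.card : ℕ) : ℝ) ≤ B ∧
      ∀ φ : Fin q ↪ Fin N, φ x = v → Q φ → (∀ y ∈ S, φ y = φ0 y) → (fun y => φ y.1) ∈ A) :
    ((univ.filter (fun φ : Fin q ↪ Fin N => φ x = v ∧ Q φ)).card : ℝ) ≤
      (N : ℝ) ^ (S.erase x).card * B := by
  classical
  let W := univ.filter (fun φ : Fin q ↪ Fin N => φ x = v ∧ Q φ)
  let r : (Fin q ↪ Fin N) → ({y // y ∈ S.erase x} → Fin N) := fun φ y => φ y.1
  have h1 : W.card = ∑ ψ : ({y // y ∈ S.erase x} → Fin N), (W.filter (fun φ => r φ = ψ)).card :=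
    card_eq_sum_card_fiberwise (fun φ _ => mem_univ _)
  have h2 : ∀ ψ : ({y // y ∈ S.erase x} → Fin N),
      ((W.filter (fun φ => r φ = ψ)).card : ℝ) ≤ B := by
    intro ψ
    rcases (W.filter (fun φ => r φ = ψ)).eq_empty_or_nonempty with he | ⟨φ0, hφ0⟩
    · rw [he]; simpa using hB
    · have hφ1 := (mem_filter.1 hφ0).2
      have hφ2 := (mem_filter.1 (mem_filter.1 hφ0).1).2
      obtain ⟨A, hA, hA2⟩ := hfib φ0 hφ2.1 hφ2.2
      refine le_trans ?_ hA
      have hcoord : ∀ φ ∈ W.filter (fun φ => r φ = ψ), ∀ y ∈ S, φ y = φ0 y := by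
        intro φ hφ y hy
        have hφa := (mem_filter.1 hφ).2
        have hφb := (mem_filter.1 (mem_filter.1 hφ).1).2
        by_cases hyx : y = x
        · rw [hyx, hφb.1, hφ2.1]
        · have := congrFun (hφa.trans hφ1.symm) ⟨y, mem_erase.2 ⟨hyx, hy⟩⟩
          exact this
      have : (W.filter (fun φ => r φ = ψ)).card ≤ A.card := by
        refine card_le_card_of_injOn (fun φ => fun y => φ y.1) ?_ ?_
        · intro φ hφ
          have hφb := (mem_filter.1 (mem_filter.1 (mem_coe.1 hφ)).1).2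
          exact hA2 φ hφb.1 hφb.2 (hcoord φ (mem_coe.1 hφ))
        · intro φ hφ φ' hφ' hh
          have hc := hcoord φ (mem_coe.1 hφ)
          have hc' := hcoord φ' (mem_coe.1 hφ')
          have hφb := (mem_filter.1 (mem_filter.1 (mem_coe.1 hφ)).1).2
          have hφb' := (mem_filter.1 (mem_filter.1 (mem_coe.1 hφ')).1).2
          ext y
          by_cases hy : y ∈ insert x S
          · rcases mem_insert.1 hy with rfl | hyS
            · rw [hφb.1, hφb'.1]
            · rw [hc y hyS, hc' y hyS]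
          · have := congrFun hh ⟨y, hy⟩
            exact congrArg Fin.val this
      exact_mod_cast this
  have h3 : (W.card : ℝ) ≤ ∑ _ψ : ({y // y ∈ S.erase x} → Fin N), B := by
    rw [h1]; push_cast
    exact sum_le_sum fun ψ _ => h2 ψ
  refine h3.trans (le_of_eq ?_)
  rw [sum_const, card_univ, Fintype.card_fun, Fintype.card_fin, Fintype.card_coe, nsmul_eq_mul]
  push_cast; ring

/-- a random injection preserves the degree of a fixed `d`-set, with exponentially small failure
probability, even if the image of one point is prescribed. -/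
theorem conc_inj (k d : ℕ) (hd : 1 ≤ d) (hdk : d < k) (τ : ℝ) (hτ : 0 < τ) :
    ∃ q0 : ℕ, ∀ q ≥ q0, ∃ N0 : ℕ, ∀ N ≥ N0, ∀ H : Finset (Finset (Fin N)),
      (∀ e ∈ H, e.card = k) → ∀ a : ℝ, 0 ≤ a →
      DegGE d (a * ((N - d).choose (k - d) : ℝ)) H →
      ∀ (x : Fin q) (v : Fin N) (S : Finset (Fin q)), S.card = d →
        ((univ.filter (fun φ : Fin q ↪ Fin N => φ x = v ∧
          ((univ.filter (fun e : Finset (Fin q) => S ⊆ e ∧ e.map φ ∈ H)).card : ℝ) <
            (a - τ) * ((q - d).choose (k - d) : ℝ))).card : ℝ) ≤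
          Real.exp (-((((q - d - 1) / (k - d) : ℕ) : ℝ) * τ ^ 2 / 18)) *
            (N : ℝ) ^ (q - 1) := by
  classical
  obtain ⟨q1, hq1⟩ := exists_nat_gt (((k - d : ℕ) : ℝ) * 3 / τ)
  refine ⟨q1 + d + 1, fun q hq => ?_⟩
  obtain ⟨N1, hN1⟩ := exists_nat_gt (((k - d : ℕ) : ℝ) * (d + (k - d : ℕ)) * 3 / τ)
  refine ⟨N1 + k, fun N hN H hk a ha hdeg x v S hS => ?_⟩
  have hh : 1 ≤ k - d := by omega
  have hNk : k ≤ N := by omega
  -- a ≤ 1
  have hch : (0 : ℝ) < ((N - d).choose (k - d) : ℝ) := by
    exact_mod_cast Nat.choose_pos (by omega)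
  have ha1 : a ≤ 1 := by
    obtain ⟨R, -, hR⟩ := exists_subset_card_eq (s := (univ : Finset (Fin N))) (n := d)
      (by rw [card_univ, Fintype.card_fin]; omega)
    have h1 := hdeg R hR
    have h2 := (deg_le_link H hk R).trans (card_link_le H R)
    rw [hR] at h2
    have h3 : ((H.filter (fun e => R ⊆ e)).card : ℝ) ≤ ((N - d).choose (k - d) : ℝ) := by
      exact_mod_cast h2
    have h4 := h1.trans h3
    by_contra hc
    push Not at hc
    nlinarith
  have hqd : (0 : ℝ) ≤ ((q - d).choose (k - d) : ℝ) := by positivity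
  -- trivial case
  by_cases haτ : a < τ
  · have he : (univ.filter (fun φ : Fin q ↪ Fin N => φ x = v ∧
          ((univ.filter (fun e : Finset (Fin q) => S ⊆ e ∧ e.map φ ∈ H)).card : ℝ) <
            (a - τ) * ((q - d).choose (k - d) : ℝ))) = ∅ := by
      rw [filter_eq_empty_iff]
      rintro φ - ⟨-, h⟩
      have h1 : (a - τ) * ((q - d).choose (k - d) : ℝ) ≤ 0 :=
        mul_nonpos_of_nonpos_of_nonneg (by linarith) hqd
      have h2 : (0 : ℝ) ≤ ((univ.filter (fun e : Finset (Fin q) =>
        S ⊆ e ∧ e.map φ ∈ H)).card : ℝ) := by positivity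
      linarith
    rw [he]
    simp only [card_empty, Nat.cast_zero]
    positivity
  push Not at haτ
  -- cardinality of Y
  have hYc : Fintype.card {y // y ∉ insert x S} = q - (insert x S).card := by
    rw [Fintype.card_subtype_compl, Fintype.card_fin, Fintype.card_coe]
  have hins : (insert x S).card ≤ d + 1 := by
    rw [← hS]; exact card_insert_le x S
  have hins2 : (insert x S).card = (S.erase x).card + 1 := by
    have e : insert x S = insert x (S.erase x) := by
      ext y
      by_cases hy : y = x <;> simp [hy]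
    rw [e]
    exact card_insert_of_notMem (notMem_erase x S)
  have hinq : (insert x S).card ≤ q := by
    have := card_le_univ (insert x S)
    rwa [Fintype.card_fin] at this
  set B : ℝ := Real.exp (-((((q - d - 1) / (k - d) : ℕ) : ℝ) * τ ^ 2 / 18)) *
    (N : ℝ) ^ (q - (insert x S).card) with hBdef
  have hB : 0 ≤ B := by positivity
  have key := ci_count x v S (fun φ : Fin q ↪ Fin N =>
    ((univ.filter (fun e : Finset (Fin q) => S ⊆ e ∧ e.map φ ∈ H)).card : ℝ) <
            (a - τ) * ((q - d).choose (k - d) : ℝ)) B hB (by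
    intro φ0 hφ0 _
    set R := S.map φ0 with hR
    have hRc : R.card = d := by rw [hR, card_map, hS]
    refine ⟨univ.filter (fun f : {y // y ∉ insert x S} → Fin N =>
      (((powersetCard (k - d) (univ : Finset {y // y ∉ insert x S})).filter
        (fun T => T.image f ∈ link (k - d) H R)).card : ℝ) ≤
        ((a - τ / 3) - τ / 3) *
          ((Fintype.card {y // y ∉ insert x S}).choose (k - d) : ℝ)), ?_, ?_⟩
    · have hP : (a - τ / 3) * (Fintype.card (Fin N) : ℝ) ^ (k - d) ≤
          ((k - d).factorial : ℝ) * ((link (k - d) H R).card : ℝ) := by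
        rw [Fintype.card_fin]
        have h1 := hdeg R hRc
        have h2 := deg_le_link H hk R
        rw [hRc] at h2
        have h3 : ((H.filter (fun e => R ⊆ e)).card : ℝ) ≤ ((link (k - d) H R).card : ℝ) := by
          exact_mod_cast h2
        have h4 : (1 - τ / 3) * (N : ℝ) ^ (k - d) ≤
            (((N - d).choose (k - d) : ℕ) : ℝ) * ((k - d).factorial : ℝ) := by
          refine ci_desc_ratio (by positivity) (by omega) ?_
          have : ((k - d : ℕ) : ℝ) * (d + (k - d : ℕ)) * 3 / τ ≤ N := by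
            refine hN1.le.trans ?_
            exact_mod_cast (by omega : N1 ≤ N)
          rw [div_le_iff₀ hτ] at this
          linarith
        have h5 : (0 : ℝ) ≤ (N : ℝ) ^ (k - d) := by positivity
        have h6 : (0 : ℝ) < ((k - d).factorial : ℝ) := by exact_mod_cast Nat.factorial_pos _
        calc (a - τ / 3) * (N : ℝ) ^ (k - d) ≤ (a * (1 - τ / 3)) * (N : ℝ) ^ (k - d) := by
              apply mul_le_mul_of_nonneg_right _ h5
              nlinarith
          _ = a * ((1 - τ / 3) * (N : ℝ) ^ (k - d)) := by ring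
          _ ≤ a * ((((N - d).choose (k - d) : ℕ) : ℝ) * ((k - d).factorial : ℝ)) :=
              mul_le_mul_of_nonneg_left h4 ha
          _ = (a * ((N - d).choose (k - d) : ℝ)) * ((k - d).factorial : ℝ) := by ring
          _ ≤ ((link (k - d) H R).card : ℝ) * ((k - d).factorial : ℝ) :=
              mul_le_mul_of_nonneg_right (h1.trans h3) h6.le
          _ = _ := by ring
      have hc := conc (V := Fin N) (Y := {y // y ∉ insert x S}) (k - d) hh
        (link (k - d) H R) (fun T hT => by
          rw [link, mem_filter, mem_powersetCard] at hT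
          exact hT.1.2) (a - τ / 3) (τ / 3) (by linarith) (by positivity) hP
      refine hc.trans ?_
      rw [hYc, Fintype.card_fin, hBdef]
      refine mul_le_mul_of_nonneg_right ?_ (by positivity)
      rw [Real.exp_le_exp]
      have h7 : (q - d - 1) / (k - d) ≤ (q - (insert x S).card) / (k - d) :=
        Nat.div_le_div_right (by omega)
      have h8 : (((q - d - 1) / (k - d) : ℕ) : ℝ) ≤
          (((q - (insert x S).card) / (k - d) : ℕ) : ℝ) := by exact_mod_cast h7
      have h9 : (0 : ℝ) ≤ τ ^ 2 / 18 := by positivity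
      nlinarith [mul_le_mul_of_nonneg_right h8 h9]
    · intro φ hφx hφ hφS
      rw [mem_filter]
      refine ⟨mem_univ _, ?_⟩
      have hRS : S.map φ = R := by
        rw [hR, map_eq_image, map_eq_image]
        exact image_congr fun y hy => hφS y hy
      have h1 := link_pull (h := k - d) H φ x S
      rw [hRS] at h1
      have h2 : (((powersetCard (k - d) (univ : Finset {y // y ∉ insert x S})).filter
        (fun T => T.image (fun y => φ y.1) ∈ link (k - d) H R)).card : ℝ) ≤
        ((univ.filter (fun e : Finset (Fin q) => S ⊆ e ∧ e.map φ ∈ H)).card : ℝ) := by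
        exact_mod_cast h1
      refine h2.trans (hφ.le.trans ?_)
      -- (a - τ) C(q-d,h) ≤ (a - 2τ/3) C(|Y|,h)
      have h3 : (1 - τ / 3) * ((q - d).choose (k - d) : ℝ) ≤ ((q - d - 1).choose (k - d) : ℝ) := by
        refine ci_choose_ratio (by omega) ?_
        have : ((k - d : ℕ) : ℝ) * 3 / τ ≤ ((q - d : ℕ) : ℝ) := by
          refine hq1.le.trans ?_
          exact_mod_cast (by omega : q1 ≤ q - d)
        rw [div_le_iff₀ hτ] at this
        linarith
      have h4 : ((q - d - 1).choose (k - d) : ℝ) ≤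
          ((Fintype.card {y // y ∉ insert x S}).choose (k - d) : ℝ) := by
        rw [hYc]
        exact_mod_cast Nat.choose_le_choose _ (by omega)
      have h5 : 0 ≤ a - τ / 3 - τ / 3 := by linarith
      calc (a - τ) * ((q - d).choose (k - d) : ℝ)
          ≤ ((a - τ / 3 - τ / 3) * (1 - τ / 3)) * ((q - d).choose (k - d) : ℝ) := by
            apply mul_le_mul_of_nonneg_right _ hqd
            nlinarith
        _ = (a - τ / 3 - τ / 3) * ((1 - τ / 3) * ((q - d).choose (k - d) : ℝ)) := by ring
        _ ≤ (a - τ / 3 - τ / 3) * ((q - d - 1).choose (k - d) : ℝ) :=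
            mul_le_mul_of_nonneg_left h3 h5
        _ ≤ _ := mul_le_mul_of_nonneg_left h4 h5)
  refine key.trans (le_of_eq ?_)
  rw [hBdef, mul_left_comm, ← pow_add]
  congr 2
  omega

end Pool.Agent.TFactor
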