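import Mathlib
import Pool.Agent.Work.MP_5010fd_co.Bern

namespace Pool.Agent.TFactor

open Finset

variable {E X : Type} [Fintype E] [DecidableEq E] [Fintype X] [DecidableEq X]

/-- the weight of the state `(S, c)`: `R = ⋃_{j ∈ S} A j` has been revealed to be contained in
`G`, and the copies of `Z` have been thinned with the factors `c j`. -/
noncomputable def wt (A : X → Finset E) (S Z : Finset X) (c : X → ℝ) (G : Finset E) : ℝ :=
  (if S.biUnion A ⊆ G then 1 else 0) * ∏ j ∈ Z, (1 - c j * (if A j ⊆ G then 1 else 0))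

omit [Fintype E] [Fintype X] [DecidableEq X] in
private theorem fac_nonneg (A : X → Finset E) (c : X → ℝ) (hc1 : ∀ j, c j ≤ 1 / 2)
    (j : X) (G : Finset E) : 1 / 2 ≤ 1 - c j * (if A j ⊆ G then (1 : ℝ) else 0) := by
  have := hc1 j
  split_ifs <;> linarith

omit [Fintype E] [Fintype X] [DecidableEq X] in
private theorem fac_le_one (A : X → Finset E) (c : X → ℝ) (hc0 : ∀ j, 0 ≤ c j)
    (j : X) (G : Finset E) : 1 - c j * (if A j ⊆ G then (1 : ℝ) else 0) ≤ 1 := by
  have := hc0 j
  split_ifs <;> linarith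

omit [Fintype E] [Fintype X] [DecidableEq X] in
private theorem prod_nonneg' (A : X → Finset E) (c : X → ℝ) (hc1 : ∀ j, c j ≤ 1 / 2)
    (Z : Finset X) (G : Finset E) :
    0 ≤ ∏ j ∈ Z, (1 - c j * (if A j ⊆ G then (1 : ℝ) else 0)) :=
  Finset.prod_nonneg fun j _ => le_trans (by norm_num) (fac_nonneg A c hc1 j G)

theorem wt_nonneg (A : X → Finset E) (S Z : Finset X) (c : X → ℝ)
    (_hc0 : ∀ j, 0 ≤ c j) (hc1 : ∀ j, c j ≤ 1 / 2) (G : Finset E) : 0 ≤ wt A S Z c G := by
  unfold wt
  refine mul_nonneg ?_ (prod_nonneg' A c hc1 Z G)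
  split_ifs <;> norm_num

omit [Fintype E] [Fintype X] [DecidableEq X] in
private theorem one_sub_sum_le (A : X → Finset E) (c : X → ℝ) (hc0 : ∀ j, 0 ≤ c j)
    (hc1 : ∀ j, c j ≤ 1 / 2) (Z : Finset X) (G : Finset E) :
    1 - ∑ j ∈ Z, (if A j ⊆ G then (1 : ℝ) else 0) ≤
      ∏ j ∈ Z, (1 - c j * (if A j ⊆ G then (1 : ℝ) else 0)) := by
  classical
  induction Z using Finset.induction_on with
  | empty => simp
  | insert a Z ha ih =>
    rw [Finset.sum_insert ha, Finset.prod_insert ha]
    have h0 := prod_nonneg' A c hc1 Z G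
    have h1 : ∏ j ∈ Z, (1 - c j * (if A j ⊆ G then (1 : ℝ) else 0)) ≤ 1 :=
      Finset.prod_le_one (fun j _ => le_trans (by norm_num) (fac_nonneg A c hc1 j G))
        (fun j _ => fac_le_one A c hc0 j G)
    have h2 := hc0 a
    have h3 := hc1 a
    split_ifs
    · have : c a * 1 * ∏ j ∈ Z, (1 - c j * (if A j ⊆ G then (1 : ℝ) else 0)) ≤ 1 * 1 * 1 := by
        refine mul_le_mul (by linarith) h1 h0 (by norm_num)
      linarith
    · simpa using ih

/-- key bound: in a good state the conditional probability of `A i ⊆ G` is at least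
`p ^ t / 2 ^ (b + 1)`. -/
theorem key_bound (A : X → Finset E) (b t : ℕ) (hA : ∀ i, (A i).card ≤ t) (p : ℝ)
    (hp0 : 0 < p) (hp1 : p ≤ 1) (i : X) (S Z : Finset X) (hG : Good A b p i S) (c : X → ℝ)
    (hc0 : ∀ j, 0 ≤ c j) (hc1 : ∀ j, c j ≤ 1 / 2) :
    p ^ t / 2 ^ (b + 1) * ∑ G : Finset E, bw p G * wt A S Z c G ≤
      ∑ G : Finset E, bw p G * (wt A S Z c G * (if A i ⊆ G then 1 else 0)) := by
  obtain ⟨hG1, hG2⟩ := hG
  set R := S.biUnion A with hR
  set B := A i \ R with hB
  have hRB : Disjoint R B := Finset.disjoint_sdiff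
  -- the right hand side
  have hRHS : ∑ G : Finset E, bw p G * (wt A S Z c G * (if A i ⊆ G then 1 else 0)) =
      p ^ B.card * ∑ G : Finset E, bw p G * wt A S Z c (G ∪ B) := by
    rw [← sum_bw_superset p B (fun G => wt A S Z c G)]
    refine Finset.sum_congr rfl fun G _ => ?_
    congr 1
    by_cases hRG : R ⊆ G
    · have hiff : A i ⊆ G ↔ B ⊆ G := by
        constructor
        · intro h
          exact Finset.sdiff_subset.trans h
        · intro h x hx
          by_cases hxR : x ∈ R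
          · exact hRG hxR
          · exact h (Finset.mem_sdiff.2 ⟨hx, hxR⟩)
      by_cases h : A i ⊆ G
      · rw [if_pos h, if_pos (hiff.1 h), mul_one]
      · rw [if_neg h, if_neg (fun h' => h (hiff.2 h')), mul_zero]
    · have h0 : wt A S Z c G = 0 := by
        unfold wt
        rw [if_neg hRG, zero_mul]
      rw [h0, zero_mul]
      split_ifs <;> rfl
  rw [hRHS]
  -- splitting of `Z`
  set Z0 := Z.filter (fun j => ¬ (A j ∩ B).Nonempty) with hZ0
  set Z1 := Z.filter (fun j => A j ⊆ A i ∪ R ∧ (A j ∩ B).Nonempty) with hZ1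
  set Z2 := Z.filter (fun j => ¬ A j ⊆ A i ∪ R ∧ (A j ∩ B).Nonempty) with hZ2
  have hsplit : ∀ f : X → ℝ, ∏ j ∈ Z, f j = (∏ j ∈ Z0, f j) * ((∏ j ∈ Z1, f j) * ∏ j ∈ Z2, f j) := by
    intro f
    have e1 : Z1 = (Z.filter (fun j => (A j ∩ B).Nonempty)).filter (fun j => A j ⊆ A i ∪ R) := by
      ext j
      simp only [hZ1, Finset.mem_filter]
      tauto
    have e2 : Z2 = (Z.filter (fun j => (A j ∩ B).Nonempty)).filter (fun j => ¬ A j ⊆ A i ∪ R) := by
      ext j
      simp only [hZ2, Finset.mem_filter]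
      tauto
    rw [e1, e2, Finset.prod_filter_mul_prod_filter_not, mul_comm,
      Finset.prod_filter_mul_prod_filter_not]
  set D : X → Finset E := fun j => A j \ (A i ∪ R) with hD
  set W0 : Finset E → ℝ := fun G => (if R ⊆ G then 1 else 0) *
    ∏ j ∈ Z0, (1 - c j * (if A j ⊆ G then (1 : ℝ) else 0)) with hW0
  have hW0nn : ∀ G, 0 ≤ W0 G := by
    intro G
    refine mul_nonneg ?_ (prod_nonneg' A c hc1 Z0 G)
    split_ifs <;> norm_num
  have hbw : ∀ G : Finset E, 0 ≤ bw p G := fun G => bw_nonneg hp0.le hp1 G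
  -- `wt ≤ W0`
  have hwtW0 : ∀ G, wt A S Z c G ≤ W0 G := by
    intro G
    simp only [wt, hW0]
    refine mul_le_mul_of_nonneg_left ?_ (by split_ifs <;> norm_num)
    rw [hsplit]
    have h1 : (∏ j ∈ Z1, (1 - c j * (if A j ⊆ G then (1 : ℝ) else 0))) *
        ∏ j ∈ Z2, (1 - c j * (if A j ⊆ G then (1 : ℝ) else 0)) ≤ 1 :=
      mul_le_one₀ (Finset.prod_le_one
        (fun j _ => le_trans (by norm_num) (fac_nonneg A c hc1 j G))
        (fun j _ => fac_le_one A c hc0 j G)) (prod_nonneg' A c hc1 Z2 G)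
        (Finset.prod_le_one (fun j _ => le_trans (by norm_num) (fac_nonneg A c hc1 j G))
        (fun j _ => fac_le_one A c hc0 j G))
    exact mul_le_of_le_one_right (prod_nonneg' A c hc1 Z0 G) h1
  -- pointwise lower bound
  have hpt : ∀ G : Finset E, (1 / 2) ^ b * (W0 G - ∑ j ∈ Z2, W0 G * (if D j ⊆ G then 1 else 0)) ≤
      wt A S Z c (G ∪ B) := by
    intro G
    by_cases hRG : R ⊆ G
    · have hRGB : R ⊆ G ∪ B := hRG.trans Finset.subset_union_left
      have hZ0eq : ∏ j ∈ Z0, (1 - c j * (if A j ⊆ G ∪ B then (1 : ℝ) else 0)) =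
          ∏ j ∈ Z0, (1 - c j * (if A j ⊆ G then (1 : ℝ) else 0)) := by
        refine Finset.prod_congr rfl fun j hj => ?_
        have hj2 := (Finset.mem_filter.1 hj).2
        have hiff : A j ⊆ G ∪ B ↔ A j ⊆ G := by
          constructor
          · intro h x hx
            rcases Finset.mem_union.1 (h hx) with h' | h'
            · exact h'
            · exact absurd ⟨x, Finset.mem_inter.2 ⟨hx, h'⟩⟩ hj2
          · intro h
            exact h.trans Finset.subset_union_left
        simp only [hiff]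
      have hZ1b : (1 / 2 : ℝ) ^ b ≤ ∏ j ∈ Z1, (1 - c j * (if A j ⊆ G ∪ B then (1 : ℝ) else 0)) := by
        have hcard : Z1.card ≤ b := by
          refine le_trans (Finset.card_le_card ?_) hG1
          intro j hj
          have := (Finset.mem_filter.1 hj).2
          exact Finset.mem_filter.2 ⟨Finset.mem_univ _, this⟩
        calc (1 / 2 : ℝ) ^ b ≤ (1 / 2) ^ Z1.card :=
              pow_le_pow_of_le_one (by norm_num) (by norm_num) hcard
          _ = ∏ _j ∈ Z1, (1 / 2 : ℝ) := by rw [Finset.prod_const]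
          _ ≤ _ := Finset.prod_le_prod (fun j _ => by norm_num)
              (fun j _ => fac_nonneg A c hc1 j (G ∪ B))
      have hZ2b : 1 - ∑ j ∈ Z2, (if D j ⊆ G then (1 : ℝ) else 0) ≤
          ∏ j ∈ Z2, (1 - c j * (if A j ⊆ G ∪ B then (1 : ℝ) else 0)) := by
        refine le_trans ?_ (one_sub_sum_le A c hc0 hc1 Z2 (G ∪ B))
        refine sub_le_sub_left ?_ _
        refine Finset.sum_le_sum fun j _ => ?_
        by_cases h : A j ⊆ G ∪ B
        · have hDG : D j ⊆ G := by
            intro x hx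
            have hx' := Finset.mem_sdiff.1 hx
            rcases Finset.mem_union.1 (h hx'.1) with h' | h'
            · exact h'
            · exact absurd (Finset.mem_union_left _ (Finset.mem_sdiff.1 h').1) hx'.2
          rw [if_pos h, if_pos hDG]
        · rw [if_neg h]
          split_ifs <;> norm_num
      have hkey : (1 / 2 : ℝ) ^ b * (1 - ∑ j ∈ Z2, (if D j ⊆ G then (1 : ℝ) else 0)) ≤
          (∏ j ∈ Z1, (1 - c j * (if A j ⊆ G ∪ B then (1 : ℝ) else 0))) *
          ∏ j ∈ Z2, (1 - c j * (if A j ⊆ G ∪ B then (1 : ℝ) else 0)) := by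
        by_cases hs : 0 ≤ 1 - ∑ j ∈ Z2, (if D j ⊆ G then (1 : ℝ) else 0)
        · exact mul_le_mul hZ1b hZ2b hs (prod_nonneg' A c hc1 Z1 _)
        · push Not at hs
          refine le_trans (mul_nonpos_of_nonneg_of_nonpos (by positivity) hs.le)
            (mul_nonneg (prod_nonneg' A c hc1 Z1 _) (prod_nonneg' A c hc1 Z2 _))
      have e1 : wt A S Z c (G ∪ B) = W0 G *
          ((∏ j ∈ Z1, (1 - c j * (if A j ⊆ G ∪ B then (1 : ℝ) else 0))) *
          ∏ j ∈ Z2, (1 - c j * (if A j ⊆ G ∪ B then (1 : ℝ) else 0))) := by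
        simp only [wt, hW0]
        rw [hsplit, hZ0eq, if_pos hRGB, if_pos hRG]
        ring
      rw [e1]
      have e2 : (1 / 2) ^ b * (W0 G - ∑ j ∈ Z2, W0 G * (if D j ⊆ G then 1 else 0)) =
          W0 G * ((1 / 2 : ℝ) ^ b * (1 - ∑ j ∈ Z2, (if D j ⊆ G then (1 : ℝ) else 0))) := by
        rw [← Finset.mul_sum]
        ring
      rw [e2]
      exact mul_le_mul_of_nonneg_left hkey (hW0nn G)
    · have h0 : W0 G = 0 := by
        simp only [hW0]
        rw [if_neg hRG, zero_mul]
      rw [h0]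
      simp only [zero_mul, Finset.sum_const_zero, sub_zero, mul_zero]
      exact wt_nonneg A S Z c hc0 hc1 _
  -- the sums over `Z2`
  have hDj : ∀ j ∈ Z2, ∑ G : Finset E, bw p G * (W0 G * (if D j ⊆ G then 1 else 0)) ≤
      p ^ (D j).card * ∑ G : Finset E, bw p G * W0 G := by
    intro j _
    have h1 : ∑ G : Finset E, bw p G * (W0 G * (if D j ⊆ G then 1 else 0)) =
        p ^ (D j).card * ∑ G : Finset E, bw p G * W0 (G ∪ D j) := by
      rw [← sum_bw_superset p (D j) W0]
      refine Finset.sum_congr rfl fun G _ => ?_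
      congr 1
      split_ifs <;> simp
    rw [h1]
    refine mul_le_mul_of_nonneg_left ?_ (by positivity)
    refine Finset.sum_le_sum fun G _ => mul_le_mul_of_nonneg_left ?_ (hbw G)
    simp only [hW0]
    have hdisj : Disjoint R (D j) := by
      rw [Finset.disjoint_left]
      intro x hx hx'
      exact (Finset.mem_sdiff.1 hx').2 (Finset.mem_union_right _ hx)
    have hiff : R ⊆ G ∪ D j ↔ R ⊆ G := by
      constructor
      · intro h x hx
        rcases Finset.mem_union.1 (h hx) with h' | h'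
        · exact h'
        · exact absurd h' (Finset.disjoint_left.1 hdisj hx)
      · intro h
        exact h.trans Finset.subset_union_left
    simp only [hiff]
    refine mul_le_mul_of_nonneg_left ?_ (by split_ifs <;> norm_num)
    refine Finset.prod_le_prod (fun j' _ => le_trans (by norm_num) (fac_nonneg A c hc1 j' _)) ?_
    intro j' _
    refine sub_le_sub_left (mul_le_mul_of_nonneg_left ?_ (hc0 j')) _
    by_cases h : A j' ⊆ G
    · rw [if_pos h, if_pos (h.trans Finset.subset_union_left)]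
    · rw [if_neg h]
      split_ifs <;> norm_num
  have hZ2half : ∑ j ∈ Z2, p ^ (D j).card ≤ 1 / 2 := by
    refine le_trans ?_ hG2
    refine Finset.sum_le_sum_of_subset_of_nonneg ?_ (fun j _ _ => by positivity)
    intro j hj
    have := (Finset.mem_filter.1 hj).2
    exact Finset.mem_filter.2 ⟨Finset.mem_univ _, this⟩
  have hW0sum : 0 ≤ ∑ G : Finset E, bw p G * W0 G :=
    Finset.sum_nonneg fun G _ => mul_nonneg (hbw G) (hW0nn G)
  have hwtsum : 0 ≤ ∑ G : Finset E, bw p G * wt A S Z c G :=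
    Finset.sum_nonneg fun G _ => mul_nonneg (hbw G) (wt_nonneg A S Z c hc0 hc1 G)
  have hmain : (1 / 2) ^ (b + 1) * ∑ G : Finset E, bw p G * wt A S Z c G ≤
      ∑ G : Finset E, bw p G * wt A S Z c (G ∪ B) := by
    calc (1 / 2) ^ (b + 1) * ∑ G : Finset E, bw p G * wt A S Z c G
        ≤ (1 / 2) ^ (b + 1) * ∑ G : Finset E, bw p G * W0 G := by
          refine mul_le_mul_of_nonneg_left ?_ (by positivity)
          exact Finset.sum_le_sum fun G _ => mul_le_mul_of_nonneg_left (hwtW0 G) (hbw G)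
      _ = (1 / 2) ^ b * (∑ G : Finset E, bw p G * W0 G -
            (1 / 2) * ∑ G : Finset E, bw p G * W0 G) := by ring
      _ ≤ (1 / 2) ^ b * (∑ G : Finset E, bw p G * W0 G -
            ∑ j ∈ Z2, ∑ G : Finset E, bw p G * (W0 G * (if D j ⊆ G then 1 else 0))) := by
          refine mul_le_mul_of_nonneg_left (sub_le_sub_left ?_ _) (by positivity)
          calc ∑ j ∈ Z2, ∑ G : Finset E, bw p G * (W0 G * (if D j ⊆ G then 1 else 0))
              ≤ ∑ j ∈ Z2, p ^ (D j).card * ∑ G : Finset E, bw p G * W0 G :=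
                Finset.sum_le_sum hDj
            _ = (∑ j ∈ Z2, p ^ (D j).card) * ∑ G : Finset E, bw p G * W0 G := by
                rw [Finset.sum_mul]
            _ ≤ 1 / 2 * ∑ G : Finset E, bw p G * W0 G :=
                mul_le_mul_of_nonneg_right hZ2half hW0sum
      _ = ∑ G : Finset E, bw p G *
            ((1 / 2) ^ b * (W0 G - ∑ j ∈ Z2, W0 G * (if D j ⊆ G then 1 else 0))) := by
          rw [Finset.sum_comm, ← Finset.sum_sub_distrib, Finset.mul_sum]
          refine Finset.sum_congr rfl fun G _ => ?_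
          rw [← Finset.mul_sum]
          ring
      _ ≤ ∑ G : Finset E, bw p G * wt A S Z c (G ∪ B) :=
          Finset.sum_le_sum fun G _ => mul_le_mul_of_nonneg_left (hpt G) (hbw G)
  have hBt : p ^ t ≤ p ^ B.card :=
    pow_le_pow_of_le_one hp0.le hp1 ((Finset.card_le_card Finset.sdiff_subset).trans (hA i))
  calc p ^ t / 2 ^ (b + 1) * ∑ G : Finset E, bw p G * wt A S Z c G
      = p ^ t * ((1 / 2) ^ (b + 1) * ∑ G : Finset E, bw p G * wt A S Z c G) := by
        rw [one_div, inv_pow]
        ring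
    _ ≤ p ^ B.card * ∑ G : Finset E, bw p G * wt A S Z c (G ∪ B) := by
        refine mul_le_mul hBt hmain (by positivity) (by positivity)

end Pool.Agent.TFactor
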