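import Mathlib
import Pool.Agent.Work.MP_5010fd_co.Key

namespace Pool.Agent.TFactor

open Finset

set_option linter.unusedSectionVars false

variable {E X : Type} [Fintype E] [DecidableEq E] [Fintype X] [DecidableEq X]

open Classical in
/-- the conditional success probability of the remaining process. -/
noncomputable def cfun (A : X → Finset E) (b : ℕ) (p π : ℝ) (o : X → ℕ) (U : Finset X → Prop)
    (L S : Finset X) : ℝ :=
  ∑ T ∈ L.powerset, π ^ T.card * (1 - π) ^ (L.card - T.card) *
    (if U (S ∪ T) ∧ ∀ i ∈ T, Good A b p i (S ∪ T.filter (fun j => o j < o i)) then 1 else 0)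

theorem cfun_nonneg (A : X → Finset E) (b : ℕ) (p π : ℝ) (hπ0 : 0 ≤ π) (hπ1 : π ≤ 1)
    (o : X → ℕ) (U : Finset X → Prop) (L S : Finset X) : 0 ≤ cfun A b p π o U L S := by
  unfold cfun
  refine Finset.sum_nonneg (fun T _ => ?_)
  have : 0 ≤ 1 - π := by linarith
  split_ifs <;> positivity

open Classical in
theorem cfun_insert (A : X → Finset E) (b : ℕ) (p π : ℝ) (o : X → ℕ)
    (U : Finset X → Prop) (L S : Finset X) (i : X)
    (hi : i ∉ L) (hmin : ∀ j ∈ L, o i < o j) :
    cfun A b p π o U (insert i L) S = (1 - π) * cfun A b p π o U L S +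
      π * (if Good A b p i S then cfun A b p π o U L (insert i S) else 0) := by
  unfold cfun
  rw [Finset.sum_powerset_insert hi, Finset.mul_sum]
  congr 1
  · refine Finset.sum_congr rfl (fun T hT => ?_)
    have hTL : T.card ≤ L.card := card_le_card (mem_powerset.1 hT)
    rw [card_insert_of_notMem hi, show L.card + 1 - T.card = (L.card - T.card) + 1 by omega,
      pow_succ]
    ring
  · by_cases hG : Good A b p i S
    · rw [if_pos hG, Finset.mul_sum]
      refine Finset.sum_congr rfl (fun T hT => ?_)
      have hTL : T ⊆ L := mem_powerset.1 hT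
      have hiT : i ∉ T := fun h => hi (hTL h)
      have e1 : (insert i L).card - (insert i T).card = L.card - T.card := by
        rw [card_insert_of_notMem hi, card_insert_of_notMem hiT]; omega
      have e2 : S ∪ insert i T = insert i S ∪ T := by
        rw [union_insert, insert_union]
      have e3 : (∀ i' ∈ insert i T, Good A b p i' (S ∪ (insert i T).filter (fun j => o j < o i')))
          ↔ (∀ i' ∈ T, Good A b p i' (insert i S ∪ T.filter (fun j => o j < o i'))) := by
        constructor
        · intro h i' hi'
          have := h i' (mem_insert_of_mem hi')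
          rwa [filter_insert, if_pos (hmin i' (hTL hi')), union_insert, ← insert_union] at this
        · intro h i' hi'
          rcases mem_insert.1 hi' with rfl | hi'
          · have : (insert i' T).filter (fun j => o j < o i') = ∅ := by
              rw [filter_eq_empty_iff]
              intro j hj
              rcases mem_insert.1 hj with rfl | hj
              · exact lt_irrefl _
              · exact not_lt.2 (hmin j (hTL hj)).le
            rw [this, union_empty]; exact hG
          · rw [filter_insert, if_pos (hmin i' (hTL hi')), union_insert, ← insert_union]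
            exact h i' hi'
      rw [e1, e2, card_insert_of_notMem hiT, pow_succ]
      by_cases hU : U (insert i S ∪ T) ∧ ∀ i' ∈ T, Good A b p i'
        (insert i S ∪ T.filter (fun j => o j < o i'))
      · rw [if_pos ⟨hU.1, e3.2 hU.2⟩, if_pos hU]; ring
      · rw [if_neg (fun h => hU ⟨h.1, e3.1 h.2⟩), if_neg hU]; ring
    · rw [if_neg hG, mul_zero]
      refine Finset.sum_eq_zero (fun T hT => ?_)
      have hTL : T ⊆ L := mem_powerset.1 hT
      have hiT : i ∉ T := fun h => hi (hTL h)
      rw [if_neg, mul_zero]
      rintro ⟨-, h⟩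
      have := h i (mem_insert_self _ _)
      have h2 : (insert i T).filter (fun j => o j < o i) = ∅ := by
        rw [filter_eq_empty_iff]
        intro j hj
        rcases mem_insert.1 hj with rfl | hj
        · exact lt_irrefl _
        · exact not_lt.2 (hmin j (hTL hj)).le
      rw [h2, union_empty] at this
      exact hG this

theorem wt_insert_left (A : X → Finset E) (S Z : Finset X) (c : X → ℝ) (i : X) (G : Finset E) :
    wt A (insert i S) Z c G = wt A S Z c G * (if A i ⊆ G then 1 else 0) := by
  unfold wt
  rw [biUnion_insert]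
  by_cases h1 : A i ⊆ G <;> by_cases h2 : S.biUnion A ⊆ G
  · rw [if_pos (union_subset h1 h2), if_pos h1, if_pos h2]; ring
  · rw [if_neg (fun h => h2 (union_subset_right h)), if_pos h1, if_neg h2]; ring
  · rw [if_neg (fun h => h1 (union_subset_left h)), if_neg h1, if_pos h2]; ring
  · rw [if_neg (fun h => h1 (union_subset_left h)), if_neg h1, if_neg h2]; ring

theorem wt_insert_right (A : X → Finset E) (S Z : Finset X) (c : X → ℝ) (i : X) (hi : i ∉ Z)
    (x : ℝ) (G : Finset E) :
    wt A S (insert i Z) (Function.update c i x) G =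
      (1 - x * (if A i ⊆ G then 1 else 0)) * wt A S Z c G := by
  unfold wt
  rw [prod_insert hi]
  have e : ∏ j ∈ Z, (1 - Function.update c i x j * (if A j ⊆ G then 1 else 0)) =
      ∏ j ∈ Z, (1 - c j * (if A j ⊆ G then 1 else 0)) := by
    refine prod_congr rfl (fun j hj => ?_)
    have : j ≠ i := fun h => hi (h ▸ hj)
    rw [Function.update_of_ne this]
  rw [e, Function.update_self]
  ring

open Classical in
theorem couple_aux (A : X → Finset E) (b t : ℕ) (hA : ∀ i, (A i).card ≤ t) (p π : ℝ)
    (hp0 : 0 < p) (hp1 : p ≤ 1) (hπ0 : 0 ≤ π) (hπ : π * 2 ^ (b + 2) ≤ p ^ t)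
    (o : X → ℕ) (ho : Function.Injective o)
    (U : Finset X → Prop) (hU : ∀ S T, S ⊆ T → U S → U T) :
    ∀ (m : ℕ) (L : Finset X), L.card = m → ∀ (S Z : Finset X), Disjoint Z L → ∀ (c : X → ℝ),
      (∀ j, 0 ≤ c j) → (∀ j, c j ≤ 1 / 2) →
      cfun A b p π o U L S * ∑ G : Finset E, bw p G * wt A S Z c G ≤
        ∑ G : Finset E, bw p G * (wt A S Z c G *
          (if U (S ∪ L.filter (fun j => A j ⊆ G)) then 1 else 0)) := by
  have hπ1 : π ≤ 1 := by
    have h1 : p ^ t ≤ 1 := pow_le_one₀ hp0.le hp1
    have h2 : (1 : ℝ) ≤ 2 ^ (b + 2) := one_le_pow₀ (by norm_num)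
    nlinarith
  have hbw : ∀ G : Finset E, 0 ≤ bw p G := fun G => bw_nonneg hp0.le hp1 G
  intro m
  induction m with
  | zero =>
    intro L hL S Z _ c hc0 hc1
    have hL0 : L = ∅ := card_eq_zero.1 hL
    subst hL0
    have e : cfun A b p π o U ∅ S = if U S then 1 else 0 := by
      unfold cfun
      simp
    rw [e, Finset.mul_sum]
    refine Finset.sum_le_sum (fun G _ => ?_)
    rw [filter_empty, union_empty]
    apply le_of_eq; ring
  | succ m ih =>
    intro L hL S Z hZL c hc0 hc1
    have hne : L.Nonempty := card_pos.1 (by omega)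
    obtain ⟨i, hiL, himin⟩ := exists_min_image L o hne
    set L' := L.erase i with hL'
    have hLins : L = insert i L' := (insert_erase hiL).symm
    have hiL' : i ∉ L' := notMem_erase i L
    have hcard' : L'.card = m := by rw [hL', card_erase_of_mem hiL, hL]; rfl
    have hmin : ∀ j ∈ L', o i < o j := by
      intro j hj
      have hj' := mem_erase.1 hj
      exact lt_of_le_of_ne (himin j hj'.2) (fun h => hj'.1 (ho h).symm)
    have hiZ : i ∉ Z := fun h => (disjoint_left.1 hZL) h hiL
    have hZL' : Disjoint Z L' := hZL.mono_right (erase_subset _ _)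
    have hwt : ∀ G, 0 ≤ wt A S Z c G := fun G => wt_nonneg A S Z c hc0 hc1 G
    set EW : ℝ := ∑ G : Finset E, bw p G * wt A S Z c G with hEW
    have hEW0 : 0 ≤ EW := Finset.sum_nonneg (fun G _ => mul_nonneg (hbw G) (hwt G))
    have hmonoU : ∀ G : Finset E, (if U (S ∪ L'.filter (fun j => A j ⊆ G)) then (1 : ℝ) else 0) ≤
        (if U (S ∪ L.filter (fun j => A j ⊆ G)) then 1 else 0) := by
      intro G
      by_cases h : U (S ∪ L'.filter (fun j => A j ⊆ G))
      · rw [if_pos h, if_pos]
        exact hU _ _ (union_subset_union_right (filter_subset_filter _ (erase_subset _ _))) h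
      · rw [if_neg h]; split_ifs <;> norm_num
    rw [show cfun A b p π o U L S = (1 - π) * cfun A b p π o U L' S +
      π * (if Good A b p i S then cfun A b p π o U L' (insert i S) else 0) by
        conv_lhs => rw [hLins]
        exact cfun_insert A b p π o U L' S i hiL' hmin]
    by_cases hG : Good A b p i S
    · rw [if_pos hG]
      rcases eq_or_lt_of_le hEW0 with h0 | hpos
      · rw [← h0, mul_zero]
        exact Finset.sum_nonneg (fun G _ => mul_nonneg (hbw G)
          (mul_nonneg (hwt G) (by split_ifs <;> norm_num)))
      · have hkey := key_bound A b t hA p hp0 hp1 i S Z hG c hc0 hc1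
        set E1 : ℝ := ∑ G : Finset E, bw p G * (wt A S Z c G * (if A i ⊆ G then 1 else 0))
          with hE1
        have hpt : 0 < p ^ t := pow_pos hp0 t
        have h2b : (0 : ℝ) < 2 ^ (b + 1) := by positivity
        have hE1pos : 0 < E1 := lt_of_lt_of_le (mul_pos (div_pos hpt h2b) hpos) hkey
        have h2π : 2 * π ≤ p ^ t / 2 ^ (b + 1) := by
          rw [le_div_iff₀ h2b]
          calc 2 * π * 2 ^ (b + 1) = π * 2 ^ (b + 2) := by ring
            _ ≤ p ^ t := hπ
        have h2πE : 2 * (π * EW) ≤ E1 := by
          calc 2 * (π * EW) = (2 * π) * EW := by ring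
            _ ≤ p ^ t / 2 ^ (b + 1) * EW := by gcongr
            _ ≤ E1 := hkey
        set x : ℝ := π * EW / E1 with hx
        have hx0 : 0 ≤ x := by positivity
        have hx1 : x ≤ 1 / 2 := by
          rw [hx, div_le_iff₀ hE1pos]; linarith
        have hxE : x * E1 = π * EW := by rw [hx]; field_simp
        have hc0' : ∀ j, 0 ≤ Function.update c i x j := by
          intro j
          by_cases h : j = i
          · subst h; rw [Function.update_self]; exact hx0
          · rw [Function.update_of_ne h]; exact hc0 j
        have hc1' : ∀ j, Function.update c i x j ≤ 1 / 2 := by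
          intro j
          by_cases h : j = i
          · subst h; rw [Function.update_self]; exact hx1
          · rw [Function.update_of_ne h]; exact hc1 j
        have ih1 := ih L' hcard' S (insert i Z)
          (disjoint_insert_left.2 ⟨hiL', hZL'⟩) (Function.update c i x) hc0' hc1'
        have ih2 := ih L' hcard' (insert i S) Z hZL' c hc0 hc1
        have s1 : ∑ G : Finset E, bw p G * wt A S (insert i Z) (Function.update c i x) G =
            (1 - π) * EW := by
          calc ∑ G : Finset E, bw p G * wt A S (insert i Z) (Function.update c i x) G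
              = ∑ G : Finset E, (bw p G * wt A S Z c G - x * (bw p G * (wt A S Z c G *
                  (if A i ⊆ G then 1 else 0)))) := by
                refine Finset.sum_congr rfl (fun G _ => ?_)
                rw [wt_insert_right A S Z c i hiZ x G]; ring
            _ = EW - x * E1 := by rw [Finset.sum_sub_distrib, ← Finset.mul_sum]
            _ = (1 - π) * EW := by rw [hxE]; ring
        have s2 : ∑ G : Finset E, bw p G * wt A (insert i S) Z c G = E1 := by
          refine Finset.sum_congr rfl (fun G _ => ?_)
          rw [wt_insert_left]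
        rw [s1] at ih1
        rw [s2] at ih2
        have ih2' := mul_le_mul_of_nonneg_left ih2 hx0
        have e0 : ((1 - π) * cfun A b p π o U L' S + π * cfun A b p π o U L' (insert i S)) * EW
            = cfun A b p π o U L' S * ((1 - π) * EW) +
              x * (cfun A b p π o U L' (insert i S) * E1) := by
          have : x * (cfun A b p π o U L' (insert i S) * E1) =
            cfun A b p π o U L' (insert i S) * (x * E1) := by ring
          rw [this, hxE]; ring
        rw [e0]
        refine le_trans (add_le_add ih1 ih2') ?_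
        rw [Finset.mul_sum, ← Finset.sum_add_distrib]
        refine Finset.sum_le_sum (fun G _ => ?_)
        rw [wt_insert_right A S Z c i hiZ x G, wt_insert_left]
        by_cases hAi : A i ⊆ G
        · rw [if_pos hAi, mul_one]
          have e1 : insert i S ∪ L'.filter (fun j => A j ⊆ G) =
              S ∪ L.filter (fun j => A j ⊆ G) := by
            rw [hLins, filter_insert, if_pos hAi, union_insert, insert_union]
          rw [e1]
          have h1 := hmonoU G
          have h3 : 0 ≤ bw p G * ((1 - x) * wt A S Z c G) :=
            mul_nonneg (hbw G) (mul_nonneg (by linarith) (hwt G))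
          have h4 := mul_le_mul_of_nonneg_left h1 h3
          have e5 : bw p G * ((1 - x) * wt A S Z c G *
              (if U (S ∪ L'.filter (fun j => A j ⊆ G)) then (1 : ℝ) else 0)) =
              bw p G * ((1 - x) * wt A S Z c G) *
              (if U (S ∪ L'.filter (fun j => A j ⊆ G)) then (1 : ℝ) else 0) := by ring
          rw [e5]
          refine le_trans (add_le_add_left h4 _) ?_
          apply le_of_eq
          ring
        · rw [if_neg hAi]
          have h1 := hmonoU G
          have h3 : 0 ≤ bw p G * wt A S Z c G := mul_nonneg (hbw G) (hwt G)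
          have h4 := mul_le_mul_of_nonneg_left h1 h3
          have e5 : bw p G * ((1 - x * 0) * wt A S Z c G *
              (if U (S ∪ L'.filter (fun j => A j ⊆ G)) then (1 : ℝ) else 0)) =
              bw p G * wt A S Z c G *
              (if U (S ∪ L'.filter (fun j => A j ⊆ G)) then (1 : ℝ) else 0) := by ring
          rw [e5]
          have e6 : x * (bw p G * (wt A S Z c G * 0 *
              (if U (insert i S ∪ L'.filter (fun j => A j ⊆ G)) then (1 : ℝ) else 0))) = 0 := by
            ring
          rw [e6, add_zero]
          refine le_trans h4 (le_of_eq ?_)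
          ring
    · rw [if_neg hG, mul_zero, add_zero]
      have ih1 := ih L' hcard' S Z hZL' c hc0 hc1
      have hf := cfun_nonneg A b p π hπ0 hπ1 o U L' S
      have h1 : (1 - π) * cfun A b p π o U L' S * EW ≤ cfun A b p π o U L' S * EW := by
        have : 0 ≤ cfun A b p π o U L' S * EW := mul_nonneg hf hEW0
        nlinarith
      refine le_trans h1 (le_trans ih1 (Finset.sum_le_sum (fun G _ => ?_)))
      exact mul_le_mul_of_nonneg_left (mul_le_mul_of_nonneg_left (hmonoU G) (hwt G)) (hbw G)

/-- the thinned coupling. -/
theorem couple (A : X → Finset E) (b t : ℕ) (hA : ∀ i, (A i).card ≤ t) (p π : ℝ)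
    (hp0 : 0 < p) (hp1 : p ≤ 1) (hπ0 : 0 ≤ π) (hπ : π * 2 ^ (b + 2) ≤ p ^ t)
    (o : X → ℕ) (ho : Function.Injective o)
    (U : Finset X → Prop) (hU : ∀ S T, S ⊆ T → U S → U T) :
    bP π (fun T => U T ∧ ∀ i ∈ T, Good A b p i (T.filter (fun j => o j < o i))) ≤
      bP p (fun G => U (univ.filter (fun i => A i ⊆ G))) := by
  classical
  have h := couple_aux A b t hA p π hp0 hp1 hπ0 hπ o ho U hU _ (univ : Finset X) rfl ∅ ∅
    (disjoint_empty_left _) (fun _ => 0) (fun _ => le_rfl) (fun _ => by norm_num)
  have e1 : ∑ G : Finset E, bw p G * wt A ∅ ∅ (fun _ => 0) G = 1 := by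
    rw [← sum_bw (X := E) p]
    refine Finset.sum_congr rfl (fun G _ => ?_)
    unfold wt; simp
  rw [e1, mul_one] at h
  have e2 : bP π (fun T => U T ∧ ∀ i ∈ T, Good A b p i (T.filter (fun j => o j < o i))) =
      cfun A b p π o U univ ∅ := by
    unfold bP cfun bw
    rw [powerset_univ]
    refine Finset.sum_congr rfl (fun T _ => ?_)
    simp only [empty_union, card_univ]
    by_cases h : U T ∧ ∀ i ∈ T, Good A b p i (T.filter (fun j => o j < o i))
    · rw [if_pos h, if_pos h, mul_one]
    · rw [if_neg h, if_neg h, mul_zero]
  have e3 : ∑ G : Finset E, bw p G * (wt A ∅ ∅ (fun _ => 0) G *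
      (if U (∅ ∪ (univ : Finset X).filter (fun j => A j ⊆ G)) then 1 else 0)) =
      bP p (fun G => U (univ.filter (fun i => A i ⊆ G))) := by
    unfold bP
    refine Finset.sum_congr rfl (fun G _ => ?_)
    unfold wt
    simp only [empty_union, biUnion_empty, empty_subset, if_true, prod_empty, mul_one, one_mul]
    by_cases h : U (univ.filter (fun i => A i ⊆ G))
    · rw [if_pos h, if_pos h, mul_one]
    · rw [if_neg h, if_neg h, mul_zero]
  rw [e2, ← e3]
  exact h

end Pool.Agent.TFactor
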