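import Mathlib
import Pool.Agent.Work.MP_5010fd_co.Bern

namespace Pool.Agent.TFactor

open Finset

/-- number of embeddings sending `x` to `v`. -/
private theorem card_fix {V : Type} [Fintype V] [DecidableEq V] {s : ℕ} (x : Fin s) (v : V) :
    (univ.filter (fun ψ : Fin s ↪ V => ψ x = v)).card ≤ Fintype.card V ^ (s - 1) := by
  classical
  have hc : Fintype.card ({y : Fin s // y ≠ x} → V) = Fintype.card V ^ (s - 1) := by
    rw [Fintype.card_fun]
    congr 1
    rw [Fintype.card_subtype_compl]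
    simp
  rw [← hc, ← Finset.card_univ]
  refine Finset.card_le_card_of_injOn (fun ψ => fun y : {y : Fin s // y ≠ x} => ψ y.1)
    (fun _ _ => by simp) ?_
  intro ψ hψ φ hφ h
  simp only [Finset.coe_filter, Finset.mem_univ, true_and, Set.mem_ofPred_eq] at hψ hφ
  ext y
  by_cases hy : y = x
  · subst hy
    rw [hψ, hφ]
  · exact congrFun h ⟨y, hy⟩

private theorem card_through {V : Type} [Fintype V] [DecidableEq V] {s : ℕ} (v : V) :
    (univ.filter (fun ψ : Fin s ↪ V => v ∈ im ψ)).card ≤ s * Fintype.card V ^ (s - 1) := by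
  classical
  have hsub : (univ.filter (fun ψ : Fin s ↪ V => v ∈ im ψ)) ⊆
      (univ : Finset (Fin s)).biUnion (fun x => univ.filter (fun ψ : Fin s ↪ V => ψ x = v)) := by
    intro ψ hψ
    simp only [Finset.mem_filter, Finset.mem_univ, true_and, im, Finset.mem_map] at hψ
    obtain ⟨x, hx⟩ := hψ
    simp only [Finset.mem_biUnion, Finset.mem_filter, Finset.mem_univ, true_and]
    exact ⟨x, hx⟩
  refine (Finset.card_le_card hsub).trans (Finset.card_biUnion_le.trans ?_)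
  calc ∑ x : Fin s, (univ.filter (fun ψ : Fin s ↪ V => ψ x = v)).card
      ≤ ∑ _x : Fin s, Fintype.card V ^ (s - 1) := Finset.sum_le_sum (fun x _ => card_fix x v)
    _ = s * Fintype.card V ^ (s - 1) := by simp

private theorem choose_bound (M r : ℕ) (B π : ℝ) (hB : (M : ℝ) ≤ B) (h0 : 0 ≤ π) :
    (M.choose r : ℝ) * π ^ r ≤ ((2 : ℝ) ^ r)⁻¹ * Real.exp (2 * B * π) := by
  have hB0 : 0 ≤ B := le_trans (Nat.cast_nonneg M) hB
  have h1 : (M.choose r : ℝ) ≤ (M : ℝ) ^ r / r.factorial := Nat.choose_le_pow_div r M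
  have h2 : (2 * B * π) ^ r / r.factorial ≤ Real.exp (2 * B * π) :=
    Real.pow_div_factorial_le_exp _ (by positivity) r
  have h3 : (M : ℝ) ^ r ≤ B ^ r := pow_le_pow_left₀ (Nat.cast_nonneg M) hB r
  have hf : (0 : ℝ) < r.factorial := by exact_mod_cast Nat.factorial_pos r
  calc (M.choose r : ℝ) * π ^ r ≤ (M : ℝ) ^ r / r.factorial * π ^ r :=
        mul_le_mul_of_nonneg_right h1 (pow_nonneg h0 r)
    _ ≤ B ^ r / r.factorial * π ^ r := by gcongr
    _ = ((2 : ℝ) ^ r)⁻¹ * ((2 * B * π) ^ r / r.factorial) := by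
        rw [mul_pow, mul_pow]
        have h2r : (2 : ℝ) ^ r ≠ 0 := by positivity
        field_simp
    _ ≤ ((2 : ℝ) ^ r)⁻¹ * Real.exp (2 * B * π) :=
        mul_le_mul_of_nonneg_left h2 (by positivity)

theorem prob_not_E1 {V : Type} [Fintype V] [DecidableEq V] {s : ℕ} (π : ℝ) (h0 : 0 ≤ π)
    (h1 : π ≤ 1) (Δ : ℕ) :
    bP π (fun T : Finset (Fin s ↪ V) => ¬ E1 Δ T) ≤
      (Fintype.card V : ℝ) * ((2 : ℝ) ^ (Δ + 1))⁻¹ *
        Real.exp (2 * s * (Fintype.card V : ℝ) ^ (s - 1) * π) := by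
  classical
  set D : Finset (Finset (Fin s ↪ V)) := (univ : Finset V).biUnion
    (fun v => powersetCard (Δ + 1) (univ.filter (fun ψ : Fin s ↪ V => v ∈ im ψ))) with hD
  have hmono : bP π (fun T : Finset (Fin s ↪ V) => ¬ E1 Δ T) ≤
      bP π (fun T : Finset (Fin s ↪ V) => ∃ Y ∈ D, Y ⊆ T) := by
    apply bP_mono h0 h1
    intro T hT
    unfold E1 at hT
    push Not at hT
    obtain ⟨v, hv⟩ := hT
    obtain ⟨Y, hY1, hY2⟩ := Finset.exists_subset_card_eq (Nat.succ_le_of_lt hv)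
    refine ⟨Y, ?_, hY1.trans (Finset.filter_subset _ _)⟩
    rw [hD, Finset.mem_biUnion]
    refine ⟨v, Finset.mem_univ _, ?_⟩
    rw [Finset.mem_powersetCard]
    refine ⟨?_, hY2⟩
    intro ψ hψ
    have := hY1 hψ
    simp only [Finset.mem_filter, Finset.mem_univ, true_and] at this ⊢
    exact this.2
  refine hmono.trans ((bP_exists_subset_le h0 h1 D).trans ?_)
  have hDc : ∑ Y ∈ D, π ^ Y.card = (D.card : ℝ) * π ^ (Δ + 1) := by
    rw [Finset.sum_congr rfl (g := fun _ => π ^ (Δ + 1)), Finset.sum_const, nsmul_eq_mul]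
    intro Y hY
    rw [hD, Finset.mem_biUnion] at hY
    obtain ⟨v, _, hv⟩ := hY
    rw [(Finset.mem_powersetCard.mp hv).2]
  rw [hDc]
  have hcard : D.card ≤ ∑ v : V,
      (univ.filter (fun ψ : Fin s ↪ V => v ∈ im ψ)).card.choose (Δ + 1) := by
    rw [hD]
    refine Finset.card_biUnion_le.trans (le_of_eq ?_)
    exact Finset.sum_congr rfl (fun v _ => Finset.card_powersetCard _ _)
  calc (D.card : ℝ) * π ^ (Δ + 1)
      ≤ ((∑ v : V, (univ.filter (fun ψ : Fin s ↪ V => v ∈ im ψ)).card.choose (Δ + 1) : ℕ) : ℝ) *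
          π ^ (Δ + 1) :=
        mul_le_mul_of_nonneg_right (by exact_mod_cast hcard) (pow_nonneg h0 _)
    _ = ∑ v : V, (((univ.filter (fun ψ : Fin s ↪ V => v ∈ im ψ)).card.choose (Δ + 1) : ℕ) : ℝ) *
          π ^ (Δ + 1) := by
        push_cast
        rw [Finset.sum_mul]
    _ ≤ ∑ _v : V, ((2 : ℝ) ^ (Δ + 1))⁻¹ *
        Real.exp (2 * (s * (Fintype.card V : ℝ) ^ (s - 1)) * π) := by
        refine Finset.sum_le_sum (fun v _ => ?_)
        apply choose_bound _ _ _ _ _ h0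
        have := card_through (s := s) v
        exact_mod_cast this
    _ = (Fintype.card V : ℝ) * ((2 : ℝ) ^ (Δ + 1))⁻¹ *
        Real.exp (2 * s * (Fintype.card V : ℝ) ^ (s - 1) * π) := by
        rw [Finset.sum_const, Finset.card_univ, nsmul_eq_mul]
        ring_nf

end Pool.Agent.TFactor
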