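import Mathlib
import Pool.Agent.Work.MP_5010fd_co.Bern

namespace Pool.Agent.TFactor

open Finset

/-- number of sets of `m` embeddings whose images together span at most `w` vertices. -/
private theorem card_span {V : Type} [Fintype V] [DecidableEq V] {s : ℕ} (m w : ℕ)
    (hw : 1 ≤ w) :
    ((powersetCard m (univ : Finset (Fin s ↪ V))).filter
      (fun Y => Y.Nonempty ∧ (Y.biUnion im).Nonempty ∧ (Y.biUnion im).card ≤ w)).card ≤
      Fintype.card V ^ w * (w ^ s) ^ m := by
  classical
  set R : (Fin w → V) → Finset (Fin s ↪ V) :=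
    fun f => univ.filter (fun ψ => im ψ ⊆ univ.image f) with hR
  have hRc : ∀ f, (R f).card ≤ w ^ s := by
    intro f
    have hc : (univ : Finset (Fin s → Fin w)).card = w ^ s := by simp
    rw [← hc]
    have hex : ∀ ψ ∈ R f, ∃ g : Fin s → Fin w, ∀ x, f (g x) = ψ x := by
      intro ψ hψ
      simp only [hR, Finset.mem_filter, Finset.mem_univ, true_and] at hψ
      have : ∀ x, ∃ y, f y = ψ x := by
        intro x
        have h1 : ψ x ∈ im ψ := by simp [im]
        have h2 := hψ h1
        simp only [Finset.mem_image, Finset.mem_univ, true_and] at h2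
        exact h2
      choose g hg using this
      exact ⟨g, hg⟩
    have : Nonempty (Fin w) := ⟨⟨0, hw⟩⟩
    refine Finset.card_le_card_of_injOn
      (fun ψ => if h : ∃ g : Fin s → Fin w, ∀ x, f (g x) = ψ x then h.choose
        else fun _ => ⟨0, hw⟩) (fun _ _ => by simp) ?_
    intro ψ hψ φ hφ h
    have e1 := hex ψ hψ
    have e2 := hex φ hφ
    simp only [dif_pos e1, dif_pos e2] at h
    ext x
    rw [← e1.choose_spec x, ← e2.choose_spec x, h]
  have hsub : (powersetCard m (univ : Finset (Fin s ↪ V))).filter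
      (fun Y => Y.Nonempty ∧ (Y.biUnion im).Nonempty ∧ (Y.biUnion im).card ≤ w) ⊆
      (univ : Finset (Fin w → V)).biUnion (fun f => powersetCard m (R f)) := by
    intro Y hY
    rw [Finset.mem_filter, Finset.mem_powersetCard] at hY
    obtain ⟨⟨_, hYm⟩, hYne, ⟨v0, hv0⟩, hYw⟩ := hY
    have hex : ∃ f : Fin w → V, Y.biUnion im ⊆ univ.image f := by
      have hle : (Y.biUnion im).card ≤ (univ : Finset (Fin w)).card := by simpa using hYw
      -- enumerate the union
      let e := (Y.biUnion im).equivFin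
      refine ⟨fun i => if h : i.1 < (Y.biUnion im).card then (e.symm ⟨i.1, h⟩).1 else v0, ?_⟩
      intro v hv
      rw [Finset.mem_image]
      refine ⟨⟨(e ⟨v, hv⟩).1, lt_of_lt_of_le (e ⟨v, hv⟩).2 hYw⟩, Finset.mem_univ _, ?_⟩
      simp
    obtain ⟨f, hf⟩ := hex
    rw [Finset.mem_biUnion]
    refine ⟨f, Finset.mem_univ _, ?_⟩
    rw [Finset.mem_powersetCard]
    refine ⟨?_, hYm⟩
    intro ψ hψ
    simp only [hR, Finset.mem_filter, Finset.mem_univ, true_and]
    exact (Finset.subset_biUnion_of_mem im hψ).trans hf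
  refine (Finset.card_le_card hsub).trans (Finset.card_biUnion_le.trans ?_)
  calc ∑ f : Fin w → V, (powersetCard m (R f)).card
      ≤ ∑ _f : Fin w → V, (w ^ s) ^ m := by
        refine Finset.sum_le_sum (fun f _ => ?_)
        rw [Finset.card_powersetCard]
        exact (Nat.choose_le_pow _ _).trans (Nat.pow_le_pow_left (hRc f) m)
    _ = Fintype.card V ^ w * (w ^ s) ^ m := by simp

theorem prob_not_E2 {V : Type} [Fintype V] [DecidableEq V] {s : ℕ} (hs : 2 ≤ s) (t : ℕ)
    (π : ℝ) (h0 : 0 ≤ π) (h1 : π ≤ 1) :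
    bP π (fun T : Finset (Fin s ↪ V) => ¬ E2 t T) ≤
      ∑ m ∈ Icc 1 (2 * t), ((m * s : ℕ) : ℝ) ^ (s * m) *
        (Fintype.card V : ℝ) ^ (m * (s - 1) - 1) * π ^ m := by
  classical
  set D : ℕ → Finset (Finset (Fin s ↪ V)) := fun m =>
    (powersetCard m (univ : Finset (Fin s ↪ V))).filter
      (fun Y => Y.Nonempty ∧ (Y.biUnion im).Nonempty ∧ (Y.biUnion im).card ≤ m * (s - 1) - 1)
    with hD
  have hmono : bP π (fun T : Finset (Fin s ↪ V) => ¬ E2 t T) ≤
      bP π (fun T : Finset (Fin s ↪ V) => ∃ Y ∈ (Icc 1 (2 * t)).biUnion D, Y ⊆ T) := by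
    apply bP_mono h0 h1
    intro T hT
    unfold E2 at hT
    push Not at hT
    obtain ⟨Y, hYT, hYne, hYc, hlt⟩ := hT
    refine ⟨Y, ?_, hYT⟩
    rw [Finset.mem_biUnion]
    have hpos : 1 ≤ Y.card := Finset.card_pos.mpr hYne
    refine ⟨Y.card, Finset.mem_Icc.mpr ⟨hpos, hYc⟩, ?_⟩
    simp only [hD, Finset.mem_filter, Finset.mem_powersetCard]
    refine ⟨⟨Finset.subset_univ _, trivial⟩, hYne, ?_, by omega⟩
    obtain ⟨ψ, hψ⟩ := hYne
    exact ⟨ψ ⟨0, by omega⟩, Finset.mem_biUnion.mpr ⟨ψ, hψ, by simp [im]⟩⟩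
  refine hmono.trans ((bP_exists_subset_le h0 h1 _).trans ?_)
  have hdisj : Set.PairwiseDisjoint (↑(Icc 1 (2 * t)) : Set ℕ) D := by
    intro a _ b _ hab
    rw [Function.onFun, Finset.disjoint_left]
    intro Y hYa hYb
    simp only [hD, Finset.mem_filter, Finset.mem_powersetCard] at hYa hYb
    exact hab (hYa.1.2.symm.trans hYb.1.2)
  rw [Finset.sum_biUnion hdisj]
  refine Finset.sum_le_sum (fun m hm => ?_)
  rw [Finset.mem_Icc] at hm
  have e1 : ∑ Y ∈ D m, π ^ Y.card = ((D m).card : ℝ) * π ^ m := by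
    rw [Finset.sum_congr rfl (g := fun _ => π ^ m), Finset.sum_const, nsmul_eq_mul]
    intro Y hY
    simp only [hD, Finset.mem_filter, Finset.mem_powersetCard] at hY
    rw [hY.1.2]
  rw [e1]
  refine mul_le_mul_of_nonneg_right ?_ (pow_nonneg h0 m)
  rcases Nat.lt_or_ge (m * (s - 1) - 1) 1 with hw | hw
  · -- no such set: the union has at least two elements
    have hempty : D m = ∅ := by
      rw [Finset.eq_empty_iff_forall_notMem]
      intro Y hY
      simp only [hD, Finset.mem_filter, Finset.mem_powersetCard] at hY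
      obtain ⟨_, _, hne, hc⟩ := hY
      have := Finset.card_pos.mpr hne
      omega
    rw [hempty]
    simp only [Finset.card_empty, Nat.cast_zero]
    positivity
  · have hc := card_span (V := V) (s := s) m (m * (s - 1) - 1) hw
    have hle : (m * (s - 1) - 1) ≤ m * s :=
      (Nat.sub_le _ _).trans (Nat.mul_le_mul_left m (Nat.sub_le s 1))
    have h2 : (D m).card ≤ Fintype.card V ^ (m * (s - 1) - 1) * (m * s) ^ (s * m) := by
      refine hc.trans (Nat.mul_le_mul_left _ ?_)
      rw [pow_mul]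
      exact Nat.pow_le_pow_left (Nat.pow_le_pow_left hle s) m
    have h3 : ((D m).card : ℝ) ≤
        ((Fintype.card V ^ (m * (s - 1) - 1) * (m * s) ^ (s * m) : ℕ) : ℝ) := by
      exact_mod_cast h2
    refine h3.trans (le_of_eq ?_)
    push_cast
    ring

end Pool.Agent.TFactor
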