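import Mathlib
import Pool.Agent.Work.MP_5010fd_co.Defs

namespace Pool.Agent.TFactor

open Finset

namespace QC

variable {s : ℕ}

/-- `W` is closed: edges of `J` meeting `W` are inside `W`. -/
def Closed (J : Finset (Finset (Fin s))) (W : Finset (Fin s)) : Prop :=
  ∀ e ∈ J, (e ∩ W).Nonempty → e ⊆ W

/-- embeddings with prescribed values on `U` mapping the edges of `J` into `L`. -/
noncomputable def emb {V : Type} [Fintype V] [DecidableEq V] (J : Finset (Finset (Fin s)))
    (L : Finset (Finset V)) (U : Finset (Fin s)) (f : Fin s → V) : Finset (Fin s ↪ V) :=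
  univ.filter fun ψ => (∀ x ∈ U, ψ x = f x) ∧ ∀ e ∈ J, e.map ψ ∈ L

theorem restrict {V : Type} [Fintype V] [DecidableEq V] (J : Finset (Finset (Fin s)))
    (L : Finset (Finset V)) (A : Finset V) (B : ℕ) (R : Finset (Fin s)) :
    ∀ (U : Finset (Fin s)) (f : Fin s → V), (∀ g, (emb J L (U ∪ R) g).card ≤ B) →
      (univ.filter (fun ψ : Fin s ↪ V => ((∀ x ∈ U, ψ x = f x) ∧ ∀ e ∈ J, e.map ψ ∈ L) ∧
        ∀ x ∈ R, ψ x ∈ A)).card ≤ A.card ^ R.card * B := by
  induction R using Finset.induction_on with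
  | empty =>
    intro U f h
    have h1 := h f
    rw [Finset.union_empty] at h1
    simpa [emb] using h1
  | insert r R hr ih =>
    intro U f h
    have hsub : (univ.filter (fun ψ : Fin s ↪ V =>
        ((∀ x ∈ U, ψ x = f x) ∧ ∀ e ∈ J, e.map ψ ∈ L) ∧ ∀ x ∈ insert r R, ψ x ∈ A)) ⊆
        A.biUnion (fun v => univ.filter (fun ψ : Fin s ↪ V =>
          ((∀ x ∈ insert r U, ψ x = Function.update f r v x) ∧ ∀ e ∈ J, e.map ψ ∈ L) ∧
            ∀ x ∈ R, ψ x ∈ A)) := by
      intro ψ hψ
      rw [Finset.mem_filter] at hψ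
      obtain ⟨-, ⟨h1, h2⟩, h3⟩ := hψ
      rw [Finset.mem_biUnion]
      refine ⟨ψ r, h3 r (Finset.mem_insert_self r R), ?_⟩
      rw [Finset.mem_filter]
      refine ⟨Finset.mem_univ _, ⟨?_, h2⟩, fun x hx => h3 x (Finset.mem_insert_of_mem hx)⟩
      intro x hx
      by_cases hxr : x = r
      · subst hxr
        simp
      · rw [Function.update_of_ne hxr]
        exact h1 x ((Finset.mem_insert.mp hx).resolve_left hxr)
    refine (Finset.card_le_card hsub).trans ?_
    refine Finset.card_biUnion_le.trans ?_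
    have hb : ∀ v ∈ A, (univ.filter (fun ψ : Fin s ↪ V =>
          ((∀ x ∈ insert r U, ψ x = Function.update f r v x) ∧ ∀ e ∈ J, e.map ψ ∈ L) ∧
            ∀ x ∈ R, ψ x ∈ A)).card ≤ A.card ^ R.card * B := by
      intro v _
      refine ih (insert r U) (Function.update f r v) ?_
      intro g
      have := h g
      rwa [Finset.insert_union, ← Finset.union_insert]
    refine (Finset.sum_le_card_nsmul A _ _ hb).trans ?_
    rw [Finset.card_insert_of_notMem hr, smul_eq_mul, pow_succ]
    exact le_of_eq (by ring)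

theorem edge_step {V : Type} [Fintype V] [DecidableEq V] {k : ℕ} (J : Finset (Finset (Fin s)))
    (hJ : ∀ e ∈ J, e.card = k) (L : Finset (Finset V)) (hL : ∀ e ∈ L, e.card = k) (D : ℕ)
    (hD : ∀ v, (L.filter (fun e => v ∈ e)).card ≤ D) (U : Finset (Fin s))
    (e : Finset (Fin s)) (he : e ∈ J) (hU : (e ∩ U).Nonempty) (B : ℕ)
    (hB : ∀ g, (emb J L (U ∪ e) g).card ≤ B) (f : Fin s → V) :
    (emb J L U f).card ≤ D * k ^ k * B := by
  obtain ⟨u, hu⟩ := hU
  rw [Finset.mem_inter] at hu
  have hsub : emb J L U f ⊆ (L.filter (fun e' => f u ∈ e')).biUnion (fun e' =>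
      univ.filter (fun ψ : Fin s ↪ V => ((∀ x ∈ U, ψ x = f x) ∧ ∀ e ∈ J, e.map ψ ∈ L) ∧
        ∀ x ∈ e, ψ x ∈ e')) := by
    intro ψ hψ
    rw [emb, Finset.mem_filter] at hψ
    obtain ⟨-, h1, h2⟩ := hψ
    rw [Finset.mem_biUnion]
    refine ⟨e.map ψ, ?_, ?_⟩
    · rw [Finset.mem_filter]
      refine ⟨h2 e he, ?_⟩
      rw [← h1 u hu.2]
      exact Finset.mem_map_of_mem ψ hu.1
    · rw [Finset.mem_filter]
      exact ⟨Finset.mem_univ _, ⟨h1, h2⟩, fun x hx => Finset.mem_map_of_mem ψ hx⟩
  refine (Finset.card_le_card hsub).trans ?_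
  refine Finset.card_biUnion_le.trans ?_
  have hb : ∀ e' ∈ L.filter (fun e' => f u ∈ e'), (univ.filter (fun ψ : Fin s ↪ V =>
      ((∀ x ∈ U, ψ x = f x) ∧ ∀ e ∈ J, e.map ψ ∈ L) ∧ ∀ x ∈ e, ψ x ∈ e')).card ≤
        k ^ k * B := by
    intro e' he'
    have := restrict J L e' B e U f hB
    rwa [hL e' (Finset.mem_filter.mp he').1, hJ e he] at this
  refine (Finset.sum_le_card_nsmul _ _ _ hb).trans ?_
  rw [smul_eq_mul, mul_assoc]
  exact Nat.mul_le_mul_right _ (hD _)

/-- edges of `J` inside `W` but not inside `U`. -/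
def new (J : Finset (Finset (Fin s))) (U W : Finset (Fin s)) : Finset (Finset (Fin s)) :=
  J.filter fun e => e ⊆ W ∧ ¬ e ⊆ U

theorem explore {V : Type} [Fintype V] [DecidableEq V] {k : ℕ} (hk : 1 ≤ k)
    (J : Finset (Finset (Fin s)))
    (hJ : ∀ e ∈ J, e.card = k) (L : Finset (Finset V)) (hL : ∀ e ∈ L, e.card = k) (D : ℕ)
    (hD1 : 1 ≤ D)
    (hD : ∀ v, (L.filter (fun e => v ∈ e)).card ≤ D) (W : Finset (Fin s)) (hW : Closed J W)
    (B : ℕ) (hB : ∀ g, (emb J L W g).card ≤ B) :
    ∀ (n : ℕ) (U : Finset (Fin s)), U ⊆ W → (∀ W', Closed J W' → U ⊆ W' → W ⊆ W') →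
      (new J U W).card ≤ n → ∀ f, (emb J L U f).card ≤ (D * k ^ k) ^ n * B := by
  have hpos : 1 ≤ D * k ^ k := Nat.one_le_iff_ne_zero.mpr
    (Nat.mul_ne_zero (by omega) (pow_ne_zero _ (by omega)))
  have hclosed : ∀ (n : ℕ) (U : Finset (Fin s)), U ⊆ W →
      (∀ W', Closed J W' → U ⊆ W' → W ⊆ W') → Closed J U → ∀ f,
        (emb J L U f).card ≤ (D * k ^ k) ^ n * B := by
    intro n U hUW hmin hcl f
    have : U = W := Finset.Subset.antisymm hUW (hmin U hcl (Finset.Subset.refl U))
    subst this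
    refine (hB f).trans ?_
    exact Nat.le_mul_of_pos_left B (Nat.one_le_pow _ _ hpos)
  intro n
  induction n with
  | zero =>
    intro U hUW hmin hn f
    apply hclosed 0 U hUW hmin _ f
    intro e he hne
    by_contra hcon
    have heW : e ⊆ W := hW e he (hne.mono (Finset.inter_subset_inter_left hUW))
    have : e ∈ new J U W := by
      rw [new, Finset.mem_filter]
      exact ⟨he, heW, hcon⟩
    have h2 := Finset.card_pos.mpr ⟨e, this⟩
    omega
  | succ n ih =>
    intro U hUW hmin hn f
    by_cases hcl : Closed J U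
    · exact hclosed (n + 1) U hUW hmin hcl f
    · unfold Closed at hcl
      push Not at hcl
      obtain ⟨e, he, hne, hnot⟩ := hcl
      have heW : e ⊆ W := hW e he (hne.mono (Finset.inter_subset_inter_left hUW))
      have hU1 : U ∪ e ⊆ W := Finset.union_subset hUW heW
      have hmin1 : ∀ W', Closed J W' → U ∪ e ⊆ W' → W ⊆ W' := fun W' h1 h2 =>
        hmin W' h1 (Finset.union_subset_left h2)
      have hn1 : (new J (U ∪ e) W).card ≤ n := by
        have : new J (U ∪ e) W ⊆ (new J U W).erase e := by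
          intro e1 he1
          rw [new, Finset.mem_filter] at he1
          rw [Finset.mem_erase, new, Finset.mem_filter]
          refine ⟨?_, he1.1, he1.2.1, fun h => he1.2.2 (h.trans Finset.subset_union_left)⟩
          rintro rfl
          exact he1.2.2 Finset.subset_union_right
        have h3 := Finset.card_le_card this
        rw [Finset.card_erase_of_mem] at h3
        · omega
        · rw [new, Finset.mem_filter]
          exact ⟨he, heW, hnot⟩
      have h4 := edge_step J hJ L hL D hD U e he hne ((D * k ^ k) ^ n * B)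
        (ih (U ∪ e) hU1 hmin1 hn1) f
      refine h4.trans (le_of_eq ?_)
      rw [pow_succ]
      ring

theorem exists_closure (J : Finset (Finset (Fin s))) (U : Finset (Fin s)) :
    ∃ W, Closed J W ∧ U ⊆ W ∧ ∀ W', Closed J W' → U ⊆ W' → W ⊆ W' := by
  classical
  refine ⟨univ.filter (fun x => ∀ W', Closed J W' → U ⊆ W' → x ∈ W'), ?_, ?_, ?_⟩
  · intro e he hne x hx
    obtain ⟨z, hz⟩ := hne
    rw [Finset.mem_inter, Finset.mem_filter] at hz
    rw [Finset.mem_filter]
    refine ⟨Finset.mem_univ _, fun W' h1 h2 => ?_⟩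
    exact h1 e he ⟨z, Finset.mem_inter.mpr ⟨hz.1, hz.2.2 W' h1 h2⟩⟩ hx
  · intro x hx
    rw [Finset.mem_filter]
    exact ⟨Finset.mem_univ _, fun W' _ h2 => h2 hx⟩
  · intro W' h1 h2 x hx
    exact (Finset.mem_filter.mp hx).2 W' h1 h2

theorem Closed.compl {J : Finset (Finset (Fin s))} {U : Finset (Fin s)} (h : Closed J U) :
    Closed J Uᶜ := by
  intro e he hne x hx
  rw [Finset.mem_compl]
  intro hxU
  have h1 := h e he ⟨x, Finset.mem_inter.mpr ⟨hx, hxU⟩⟩
  obtain ⟨z, hz⟩ := hne
  rw [Finset.mem_inter, Finset.mem_compl] at hz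
  exact hz.2 (h1 hz.1)

theorem Closed.union {J : Finset (Finset (Fin s))} {U W : Finset (Fin s)} (h : Closed J U)
    (h' : Closed J W) : Closed J (U ∪ W) := by
  intro e he hne
  obtain ⟨z, hz⟩ := hne
  rw [Finset.mem_inter, Finset.mem_union] at hz
  rcases hz.2 with h1 | h1
  · exact (h e he ⟨z, Finset.mem_inter.mpr ⟨hz.1, h1⟩⟩).trans Finset.subset_union_left
  · exact (h' e he ⟨z, Finset.mem_inter.mpr ⟨hz.1, h1⟩⟩).trans Finset.subset_union_right

theorem closed_bound {k : ℕ} (hk : 2 ≤ k) (F : Finset (Finset (Fin s)))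
    (hF : ∀ e ∈ F, e.card = k) (hbal : Bal1 F) (J : Finset (Finset (Fin s))) (hJ : J ⊆ F)
    (hJF : J ≠ F) :
    ∀ (m : ℕ) (U : Finset (Fin s)), Closed J U → Uᶜ.card ≤ m →
      ∃ a : ℕ, F.card * a + (s - 1) * (J.filter (fun e => ¬ e ⊆ U)).card ≤
          F.card * Uᶜ.card ∧
        ∀ (V : Type) [Fintype V] [DecidableEq V] (D : ℕ) (L : Finset (Finset V)), 1 ≤ D →
          (∀ e ∈ L, e.card = k) → (∀ v, (L.filter (fun e => v ∈ e)).card ≤ D) →
          ∀ f, (emb J L U f).card ≤
            (D * k ^ k) ^ (J.filter (fun e => ¬ e ⊆ U)).card * (Fintype.card V) ^ a := by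
  intro m
  induction m with
  | zero =>
    intro U hU hm
    have hU1 : U = univ := by
      have : Uᶜ = ∅ := Finset.card_eq_zero.mp (by omega)
      rw [← compl_compl U, this]; simp
    subst hU1
    refine ⟨0, by simp, ?_⟩
    intro V _ _ D L _ _ _ f
    have : (J.filter (fun e => ¬ e ⊆ (univ : Finset (Fin s)))).card = 0 := by simp
    rw [this, pow_zero, pow_zero, mul_one]
    rw [Finset.card_le_one]
    intro ψ hψ ψ' hψ'
    rw [emb, Finset.mem_filter] at hψ hψ'
    ext x
    rw [hψ.2.1 x (Finset.mem_univ x), hψ'.2.1 x (Finset.mem_univ x)]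
  | succ m ih =>
    intro U hU hm
    by_cases hm' : Uᶜ.card ≤ m
    · exact ih U hU hm'
    have hne : Uᶜ.Nonempty := Finset.card_pos.mp (by omega)
    obtain ⟨x, hx⟩ := hne
    obtain ⟨W, hWc, hxW, hWmin⟩ := exists_closure J {x}
    have hxW' : x ∈ W := hxW (Finset.mem_singleton_self x)
    have hWU : W ⊆ Uᶜ := hWmin Uᶜ hU.compl (Finset.singleton_subset_iff.mpr hx)
    have hdisj : Disjoint U W := Finset.disjoint_right.mpr fun y hy =>
      Finset.mem_compl.mp (hWU hy)
    have hU2 : Closed J (U ∪ W) := hU.union hWc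
    have hcard : (U ∪ W)ᶜ.card + W.card = Uᶜ.card := by
      rw [Finset.compl_union, ← Finset.sdiff_eq_inter_compl]
      exact Finset.card_sdiff_add_card_eq_card hWU
    have hWpos : 1 ≤ W.card := Finset.card_pos.mpr ⟨x, hxW'⟩
    obtain ⟨a, ha, hcount⟩ := ih (U ∪ W) hU2 (by omega)
    set P := J.filter (fun e => e ⊆ W) with hP
    have hedge : ∀ e ∈ J, e.Nonempty := fun e he => by
      rw [← Finset.card_pos, hF e (hJ he)]; omega
    have hsplit : (J.filter (fun e => ¬ e ⊆ U)).card =
        (J.filter (fun e => ¬ e ⊆ U ∪ W)).card + P.card := by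
      rw [← Finset.card_union_of_disjoint]
      · congr 1
        ext e
        simp only [Finset.mem_filter, Finset.mem_union, hP]
        constructor
        · rintro ⟨he, hnU⟩
          by_cases h1 : e ⊆ U ∪ W
          · right
            refine ⟨he, ?_⟩
            obtain ⟨y, hy, hyU⟩ := Finset.not_subset.mp hnU
            have hyW : y ∈ W := (Finset.mem_union.mp (h1 hy)).resolve_left hyU
            exact hWc e he ⟨y, Finset.mem_inter.mpr ⟨hy, hyW⟩⟩
          · left
            exact ⟨he, h1⟩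
        · rintro (⟨he, h1⟩ | ⟨he, h1⟩)
          · exact ⟨he, fun h => h1 (h.trans Finset.subset_union_left)⟩
          · refine ⟨he, fun h => ?_⟩
            obtain ⟨y, hy⟩ := hedge e he
            exact (Finset.disjoint_left.mp hdisj (h hy)) (h1 hy)
      · rw [Finset.disjoint_left]
        intro e h1 h2
        exact (Finset.mem_filter.mp h1).2 ((Finset.mem_filter.mp h2).2.trans
          Finset.subset_union_right)
    have hPineq : F.card + (s - 1) * P.card ≤ F.card * W.card := by
      rcases Finset.eq_empty_or_nonempty P with hPe | hPne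
      · rw [hPe]
        simp only [Finset.card_empty, mul_zero, add_zero]
        exact Nat.le_mul_of_pos_right _ hWpos
      · have hPF : P ⊆ F := (Finset.filter_subset _ _).trans hJ
        have hPneF : P ≠ F := by
          intro h
          apply hJF
          refine Finset.Subset.antisymm hJ ?_
          rw [← h]
          exact Finset.filter_subset _ _
        have h1 := hbal P hPF hPne hPneF
        have h2 : (P.biUnion id).card ≤ W.card := by
          apply Finset.card_le_card
          intro y hy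
          rw [Finset.mem_biUnion] at hy
          obtain ⟨e, he, hye⟩ := hy
          exact (Finset.mem_filter.mp he).2 hye
        have h3 : F.card * ((P.biUnion id).card - 1) ≤ F.card * (W.card - 1) :=
          Nat.mul_le_mul_left _ (by omega)
        have h4 : F.card * (W.card - 1) + F.card = F.card * W.card := by
          rw [← Nat.mul_succ]
          congr 1
          omega
        omega
    refine ⟨a + 1, ?_, ?_⟩
    · rw [hsplit, ← hcard, mul_add, mul_add, mul_add, mul_one]
      omega
    · intro V _ _ D L hD1 hL hD f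
      have h1 : ∀ g, (emb J L (U ∪ W) g).card ≤
          (D * k ^ k) ^ (J.filter (fun e => ¬ e ⊆ U ∪ W)).card * (Fintype.card V) ^ a :=
        hcount V D L hD1 hL hD
      have hmin : ∀ W', Closed J W' → insert x U ⊆ W' → U ∪ W ⊆ W' := by
        intro W' h1 h2
        apply Finset.union_subset
        · exact (Finset.subset_insert x U).trans h2
        · exact hWmin W' h1 (Finset.singleton_subset_iff.mpr (h2 (Finset.mem_insert_self x U)))
      have hnew : (new J (insert x U) (U ∪ W)).card ≤ P.card := by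
        apply Finset.card_le_card
        intro e he
        rw [new, Finset.mem_filter] at he
        rw [hP, Finset.mem_filter]
        refine ⟨he.1, ?_⟩
        obtain ⟨y, hy, hyU⟩ := Finset.not_subset.mp he.2.2
        have hyU' : y ∉ U := fun h => hyU (Finset.mem_insert_of_mem h)
        have hyW : y ∈ W := (Finset.mem_union.mp (he.2.1 hy)).resolve_left hyU'
        exact hWc e he.1 ⟨y, Finset.mem_inter.mpr ⟨hy, hyW⟩⟩
      have h2 := explore (by omega : 1 ≤ k) J (fun e he => hF e (hJ he)) L hL D hD1 hD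
        (U ∪ W) hU2 _ h1 P.card (insert x U)
        (Finset.insert_subset (Finset.mem_union_right _ hxW') Finset.subset_union_left)
        hmin hnew
      have h3 := restrict J L (univ : Finset V)
        ((D * k ^ k) ^ P.card * ((D * k ^ k) ^ (J.filter (fun e => ¬ e ⊆ U ∪ W)).card *
          (Fintype.card V) ^ a)) {x} U f (by
          intro g
          have := h2 g
          rwa [Finset.union_comm, ← Finset.insert_eq])
      have h4 : (emb J L U f) = (univ.filter (fun ψ : Fin s ↪ V =>
          ((∀ x ∈ U, ψ x = f x) ∧ ∀ e ∈ J, e.map ψ ∈ L) ∧ ∀ y ∈ ({x} : Finset (Fin s)),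
            ψ y ∈ (univ : Finset V))) := by
        rw [emb]
        apply Finset.filter_congr
        intro ψ _
        simp
      rw [h4]
      refine h3.trans (le_of_eq ?_)
      rw [Finset.card_univ, Finset.card_singleton, hsplit, pow_add, pow_succ]
      ring

end QC

/-- the number of embeddings which map all edges of `J` into a sparse hypergraph `L` and at
least one edge into the small set `E0`. -/
theorem qcount {k s : ℕ} (hk : 2 ≤ k) (F : Finset (Finset (Fin s)))
    (hF : ∀ e ∈ F, e.card = k) (hbal : Bal1 F) (J : Finset (Finset (Fin s))) (hJ : J ⊆ F)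
    (hJne : J.Nonempty) (hJF : J ≠ F) :
    ∃ a C0 : ℕ, F.card * a + 1 ≤ (s - 1) * (F.card - J.card) ∧
      ∀ (V : Type) [Fintype V] [DecidableEq V] (D : ℕ) (L E0 : Finset (Finset V)), 1 ≤ D →
        (∀ e ∈ L, e.card = k) → (∀ v, (L.filter (fun e => v ∈ e)).card ≤ D) → E0 ⊆ L →
        E0.card ≤ F.card →
        (univ.filter (fun ψ : Fin s ↪ V => (∀ e ∈ J, e.map ψ ∈ L) ∧
          ∃ e ∈ J, e.map ψ ∈ E0)).card ≤ C0 * D ^ F.card * (Fintype.card V) ^ a := by
  classical
  have hFpos : 1 ≤ F.card := Finset.card_pos.mpr (hJne.mono hJ)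
  have hJF' : J.card ≤ F.card := Finset.card_le_card hJ
  -- for each edge a bound
  have key : ∀ e ∈ J, ∃ a : ℕ, F.card * a + 1 ≤ (s - 1) * (F.card - J.card) ∧
      ∀ (V : Type) [Fintype V] [DecidableEq V] (D : ℕ) (L : Finset (Finset V)), 1 ≤ D →
        (∀ e ∈ L, e.card = k) → (∀ v, (L.filter (fun e => v ∈ e)).card ≤ D) →
        ∀ f, (QC.emb J L e f).card ≤ (D * k ^ k) ^ F.card * (Fintype.card V) ^ a := by
    intro e he
    obtain ⟨W, hWc, heW, hWmin⟩ := QC.exists_closure J e
    obtain ⟨a, ha, hcount⟩ := QC.closed_bound hk F hF hbal J hJ hJF Wᶜ.card W hWc le_rfl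
    set P := J.filter (fun e => e ⊆ W) with hP
    have heP : e ∈ P := Finset.mem_filter.mpr ⟨he, heW⟩
    have hsplit : P.card + (J.filter (fun e => ¬ e ⊆ W)).card = J.card :=
      Finset.card_filter_add_card_filter_not _
    have hPF : P ⊆ F := (Finset.filter_subset _ _).trans hJ
    have hPneF : P ≠ F := by
      intro h
      apply hJF
      refine Finset.Subset.antisymm hJ ?_
      rw [← h]
      exact Finset.filter_subset _ _
    have h1 := hbal P hPF ⟨e, heP⟩ hPneF
    have h2 : (P.biUnion id).card ≤ W.card := by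
      apply Finset.card_le_card
      intro y hy
      rw [Finset.mem_biUnion] at hy
      obtain ⟨e, he, hye⟩ := hy
      exact (Finset.mem_filter.mp he).2 hye
    have hWs : W.card ≤ s := by
      have := Finset.card_le_univ W
      simpa using this
    have hWc' : Wᶜ.card = s - W.card := by
      rw [Finset.card_compl, Fintype.card_fin]
    have hWpos : 2 ≤ W.card := by
      have := Finset.card_le_card heW
      rw [hF e (hJ he)] at this
      omega
    refine ⟨a, ?_, ?_⟩
    · have h3 : F.card * ((P.biUnion id).card - 1) ≤ F.card * (W.card - 1) :=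
        Nat.mul_le_mul_left _ (by omega)
      have h4 : F.card * (W.card - 1) + F.card * Wᶜ.card = F.card * (s - 1) := by
        rw [← mul_add]
        congr 1
        omega
      have h5 : (s - 1) * P.card + (s - 1) * (J.filter (fun e => ¬ e ⊆ W)).card =
          (s - 1) * J.card := by
        rw [← mul_add, hsplit]
      have h6 : (s - 1) * (F.card - J.card) + (s - 1) * J.card = F.card * (s - 1) := by
        rw [← mul_add, Nat.sub_add_cancel hJF', mul_comm]
      omega
    · intro V _ _ D L hD1 hL hD f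
      have h3 := QC.explore (by omega : 1 ≤ k) J (fun e he => hF e (hJ he)) L hL D hD1 hD
        W hWc _ (hcount V D L hD1 hL hD) P.card e heW hWmin (by
          apply Finset.card_le_card
          intro e1 he1
          rw [QC.new, Finset.mem_filter] at he1
          exact Finset.mem_filter.mpr ⟨he1.1, he1.2.1⟩) f
      refine h3.trans ?_
      rw [← mul_assoc, ← pow_add, hsplit]
      apply Nat.mul_le_mul_right
      apply Nat.pow_le_pow_right
      · exact Nat.one_le_iff_ne_zero.mpr
          (Nat.mul_ne_zero (by omega) (pow_ne_zero _ (by omega)))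
      · exact hJF'
  obtain ⟨e1, he1⟩ := hJne
  obtain ⟨a1, ha1, -⟩ := key e1 he1
  set M := (s - 1) * (F.card - J.card) with hM
  refine ⟨(M - 1) / F.card, F.card * F.card * k ^ k * (k ^ k) ^ F.card, ?_, ?_⟩
  · have := Nat.mul_div_le (M - 1) F.card
    omega
  · intro V _ _ D L E0 hD1 hL hD hE0 hE0c
    have hspos : 0 < s := by
      have h1 : 1 ≤ e1.card := by rw [hF e1 (hJ he1)]; omega
      have h2 := Finset.card_le_univ e1
      rw [Fintype.card_fin] at h2
      omega
    rcases Nat.eq_zero_or_pos (Fintype.card V) with hV0 | hVpos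
    · have hemp : IsEmpty V := Fintype.card_eq_zero_iff.mp hV0
      have : (univ.filter (fun ψ : Fin s ↪ V => (∀ e ∈ J, e.map ψ ∈ L) ∧
          ∃ e ∈ J, e.map ψ ∈ E0)) = ∅ := by
        apply Finset.eq_empty_of_forall_notMem
        intro ψ _
        exact hemp.elim (ψ ⟨0, hspos⟩)
      rw [this]
      simp
    have hsub : (univ.filter (fun ψ : Fin s ↪ V => (∀ e ∈ J, e.map ψ ∈ L) ∧
        ∃ e ∈ J, e.map ψ ∈ E0)) ⊆ (J ×ˢ E0).biUnion (fun pe =>
          univ.filter (fun ψ : Fin s ↪ V => ((∀ x ∈ (∅ : Finset (Fin s)), ψ x = ψ x) ∧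
            ∀ e ∈ J, e.map ψ ∈ L) ∧ ∀ x ∈ pe.1, ψ x ∈ pe.2)) := by
      intro ψ hψ
      rw [Finset.mem_filter] at hψ
      obtain ⟨-, h1, e, he, he2⟩ := hψ
      rw [Finset.mem_biUnion]
      refine ⟨(e, e.map ψ), Finset.mem_product.mpr ⟨he, he2⟩, ?_⟩
      rw [Finset.mem_filter]
      exact ⟨Finset.mem_univ _, ⟨by simp, h1⟩, fun x hx => Finset.mem_map_of_mem ψ hx⟩
    refine (Finset.card_le_card hsub).trans ?_
    refine Finset.card_biUnion_le.trans ?_
    have hb : ∀ pe ∈ J ×ˢ E0, (univ.filter (fun ψ : Fin s ↪ V =>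
        ((∀ x ∈ (∅ : Finset (Fin s)), ψ x = ψ x) ∧
            ∀ e ∈ J, e.map ψ ∈ L) ∧ ∀ x ∈ pe.1, ψ x ∈ pe.2)).card ≤
          k ^ k * ((D * k ^ k) ^ F.card * (Fintype.card V) ^ ((M - 1) / F.card)) := by
      intro pe hpe
      rw [Finset.mem_product] at hpe
      obtain ⟨a, ha, hc⟩ := key pe.1 hpe.1
      have h0 : (∅ : Finset (Fin s)) ∪ pe.1 = pe.1 := Finset.empty_union _
      obtain ⟨v0⟩ : Nonempty V := Fintype.card_pos_iff.mp hVpos
      have h1 := QC.restrict J L pe.2 ((D * k ^ k) ^ F.card * (Fintype.card V) ^ a) pe.1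
        ∅ (fun _ => v0) (by rw [h0]; exact hc V D L hD1 hL hD)
      rw [hL pe.2 (hE0 hpe.2), hF pe.1 (hJ hpe.1)] at h1
      have h2 : (univ.filter (fun ψ : Fin s ↪ V =>
        ((∀ x ∈ (∅ : Finset (Fin s)), ψ x = ψ x) ∧
            ∀ e ∈ J, e.map ψ ∈ L) ∧ ∀ x ∈ pe.1, ψ x ∈ pe.2)) =
          (univ.filter (fun ψ : Fin s ↪ V =>
        ((∀ x ∈ (∅ : Finset (Fin s)), ψ x = (fun _ => v0 : Fin s → V) x) ∧
            ∀ e ∈ J, e.map ψ ∈ L) ∧ ∀ x ∈ pe.1, ψ x ∈ pe.2)) := by
        apply Finset.filter_congr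
        intro ψ _
        simp
      rw [h2]
      refine h1.trans ?_
      apply Nat.mul_le_mul_left
      apply Nat.mul_le_mul_left
      apply Nat.pow_le_pow_right hVpos
      rw [Nat.le_div_iff_mul_le hFpos]
      rw [mul_comm]
      omega
    refine (Finset.sum_le_card_nsmul _ _ _ hb).trans ?_
    rw [smul_eq_mul, Finset.card_product]
    have h5 : J.card * E0.card ≤ F.card * F.card := Nat.mul_le_mul hJF' hE0c
    calc J.card * E0.card *
          (k ^ k * ((D * k ^ k) ^ F.card * (Fintype.card V) ^ ((M - 1) / F.card)))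
        ≤ F.card * F.card *
          (k ^ k * ((D * k ^ k) ^ F.card * (Fintype.card V) ^ ((M - 1) / F.card))) :=
          Nat.mul_le_mul_right _ h5
      _ = F.card * F.card * k ^ k * (k ^ k) ^ F.card * D ^ F.card *
            (Fintype.card V) ^ ((M - 1) / F.card) := by
          rw [mul_pow]; ring

end Pool.Agent.TFactor
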