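import Mathlib
import Pool.Agent.Work.MP_5010fd_co.QCount

namespace Pool.Agent.TFactor

open Finset

/-- the elementary estimate behind `qsum` -/
private theorem qsum_real {t r a s : ℕ} (ht : t ≠ 0) (hr : r ≤ t) {N : ℕ} (hN : 1 ≤ N)
    (ha : t * a + 1 ≤ (s - 1) * r) {p Λ : ℝ} (hp : 0 < p) (hΛ : 1 ≤ Λ)
    (h : p ^ t ≤ Λ / (N : ℝ) ^ (s - 1)) :
    p ^ r * (N : ℝ) ^ a ≤ Λ * (N : ℝ) ^ (-(1 / (t : ℝ))) := by
  have hN1 : (1 : ℝ) ≤ N := by exact_mod_cast hN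
  have hN0 : (0 : ℝ) < N := by linarith
  have hy : 0 ≤ Λ * (N : ℝ) ^ (-(1 / (t : ℝ))) := by positivity
  refine le_of_pow_le_pow_left₀ ht hy ?_
  have e1 : (Λ * (N : ℝ) ^ (-(1 / (t : ℝ)))) ^ t = Λ ^ t * (N : ℝ)⁻¹ := by
    rw [mul_pow]
    congr 1
    rw [← Real.rpow_natCast, ← Real.rpow_mul hN0.le]
    have : -(1 / (t : ℝ)) * (t : ℝ) = -1 := by
      have : (t : ℝ) ≠ 0 := by exact_mod_cast ht
      field_simp
    rw [this, Real.rpow_neg_one]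
  have e2 : (p ^ r * (N : ℝ) ^ a) ^ t = (p ^ t) ^ r * (N : ℝ) ^ (t * a) := by
    rw [mul_pow, ← pow_mul, ← pow_mul, ← pow_mul, mul_comm r t, mul_comm a t]
  rw [e1, e2]
  have h1 : (p ^ t) ^ r ≤ (Λ / (N : ℝ) ^ (s - 1)) ^ r := by gcongr
  calc (p ^ t) ^ r * (N : ℝ) ^ (t * a) ≤ (Λ / (N : ℝ) ^ (s - 1)) ^ r * (N : ℝ) ^ (t * a) := by
        gcongr
    _ = Λ ^ r * ((N : ℝ) ^ (t * a) / (N : ℝ) ^ ((s - 1) * r)) := by
        rw [div_pow, ← pow_mul]; ring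
    _ ≤ Λ ^ t * (N : ℝ)⁻¹ := by
        have h2 : Λ ^ r ≤ Λ ^ t := pow_le_pow_right₀ hΛ hr
        have h3 : (N : ℝ) ^ (t * a) / (N : ℝ) ^ ((s - 1) * r) ≤ (N : ℝ)⁻¹ := by
          rw [div_le_iff₀ (by positivity), ← div_eq_inv_mul, le_div_iff₀ hN0, ← pow_succ]
          exact pow_le_pow_right₀ hN1 ha
        gcongr

/-- the expected number of dangerous copies. -/
theorem qsum {k s : ℕ} (hk : 2 ≤ k) (F : Finset (Finset (Fin s)))
    (hF : ∀ e ∈ F, e.card = k) (hne : F.Nonempty) (hbal : Bal1 F) :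
    ∃ C1 : ℝ, 0 < C1 ∧
      ∀ (V : Type) [Fintype V] [DecidableEq V] (D : ℕ) (L E0 : Finset (Finset V)), 1 ≤ D →
        (∀ e ∈ L, e.card = k) → (∀ v, (L.filter (fun e => v ∈ e)).card ≤ D) → E0 ⊆ L →
        E0.card ≤ F.card → 1 ≤ Fintype.card V →
        ∀ p Λ : ℝ, 0 < p → p ≤ 1 → 1 ≤ Λ →
          p ^ F.card ≤ Λ / (Fintype.card V : ℝ) ^ (s - 1) →
          ∑ ψ ∈ univ.filter (fun ψ : Fin s ↪ V => ¬ EA F ψ ⊆ L ∧ (EA F ψ ∩ E0).Nonempty),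
            p ^ (EA F ψ \ L).card ≤
              C1 * (D : ℝ) ^ F.card * Λ *
                (Fintype.card V : ℝ) ^ (-(1 / (F.card : ℝ))) := by
  have hq := fun (J : Finset (Finset (Fin s))) (hJ : J ⊆ F) (hJne : J.Nonempty) (hJF : J ≠ F) =>
    qcount hk F hF hbal J hJ hJne hJF
  choose! a C0 ha hC0 using hq
  set 𝓙 : Finset (Finset (Finset (Fin s))) :=
    F.powerset.filter (fun J => J.Nonempty ∧ J ≠ F) with h𝓙
  refine ⟨∑ J ∈ 𝓙, (C0 J : ℝ) + 1, by positivity, ?_⟩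
  intro V _ _ D L E0 hD hL hdeg hE0L hE0 hN p Λ hp hp1 hΛ hpΛ
  set N := Fintype.card V with hNdef
  set t := F.card with ht
  have ht0 : t ≠ 0 := by
    rw [ht]; exact Finset.card_ne_zero.2 hne
  set Jm : (Fin s ↪ V) → Finset (Finset (Fin s)) :=
    fun ψ => F.filter (fun e => e.map ψ ∈ L) with hJm
  set Ψ := univ.filter (fun ψ : Fin s ↪ V => ¬ EA F ψ ⊆ L ∧ (EA F ψ ∩ E0).Nonempty) with hΨ
  have hcard : ∀ ψ : Fin s ↪ V, (EA F ψ \ L).card = t - (Jm ψ).card := by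
    intro ψ
    have e1 : EA F ψ \ L = (F.filter (fun e => e.map ψ ∉ L)).image (fun e => e.map ψ) := by
      ext x
      simp only [EA, mem_sdiff, mem_image, mem_filter]
      constructor
      · rintro ⟨⟨e, he, rfl⟩, hx⟩
        exact ⟨e, ⟨he, hx⟩, rfl⟩
      · rintro ⟨e, ⟨he, hx⟩, rfl⟩
        exact ⟨⟨e, he, rfl⟩, hx⟩
    rw [e1, card_image_of_injective _ (Finset.map_injective ψ)]
    have := Finset.card_filter_add_card_filter_not (s := F) (fun e => e.map ψ ∈ L)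
    simp only [hJm]
    omega
  have hmaps : ∀ ψ ∈ Ψ, Jm ψ ∈ 𝓙 := by
    intro ψ hψ
    rw [hΨ, mem_filter] at hψ
    obtain ⟨-, h1, h2⟩ := hψ
    rw [h𝓙, mem_filter, mem_powerset]
    refine ⟨filter_subset _ _, ?_, ?_⟩
    · obtain ⟨x, hx⟩ := h2
      rw [mem_inter, EA, mem_image] at hx
      obtain ⟨⟨e, he, rfl⟩, hx2⟩ := hx
      exact ⟨e, mem_filter.2 ⟨he, hE0L hx2⟩⟩
    · intro h
      apply h1
      intro x hx
      rw [EA, mem_image] at hx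
      obtain ⟨e, he, rfl⟩ := hx
      rw [← h] at he
      exact (mem_filter.1 he).2
  rw [← Finset.sum_fiberwise_of_maps_to hmaps]
  have hone : ∀ J ∈ 𝓙, ∑ ψ ∈ Ψ.filter (fun ψ => Jm ψ = J), p ^ (EA F ψ \ L).card ≤
      (C0 J : ℝ) * ((D : ℝ) ^ t * Λ * (N : ℝ) ^ (-(1 / (t : ℝ)))) := by
    intro J hJ
    rw [h𝓙, mem_filter, mem_powerset] at hJ
    obtain ⟨hJF, hJne, hJne'⟩ := hJ
    have h1 : ∑ ψ ∈ Ψ.filter (fun ψ => Jm ψ = J), p ^ (EA F ψ \ L).card =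
        ((Ψ.filter (fun ψ => Jm ψ = J)).card : ℝ) * p ^ (t - J.card) := by
      rw [← nsmul_eq_mul, ← Finset.sum_const]
      refine Finset.sum_congr rfl fun ψ hψ => ?_
      rw [hcard ψ, (mem_filter.1 hψ).2]
    have h2 : (Ψ.filter (fun ψ => Jm ψ = J)).card ≤ C0 J * D ^ t * N ^ (a J) := by
      refine le_trans (card_le_card ?_)
        (hC0 J hJF hJne hJne' V D L E0 hD hL hdeg hE0L hE0)
      intro ψ hψ
      rw [mem_filter] at hψ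
      obtain ⟨hψ1, hψ2⟩ := hψ
      rw [hΨ, mem_filter] at hψ1
      obtain ⟨-, -, x, hx⟩ := hψ1
      rw [mem_inter, EA, mem_image] at hx
      obtain ⟨⟨e, he, rfl⟩, hx2⟩ := hx
      rw [mem_filter]
      refine ⟨mem_univ _, ?_, e, ?_, hx2⟩
      · intro e' he'
        rw [← hψ2] at he'
        exact (mem_filter.1 he').2
      · rw [← hψ2]
        exact mem_filter.2 ⟨he, hE0L hx2⟩
    have h2' : ((Ψ.filter (fun ψ => Jm ψ = J)).card : ℝ) ≤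
        (C0 J : ℝ) * (D : ℝ) ^ t * (N : ℝ) ^ (a J) := by exact_mod_cast h2
    have h3 := qsum_real (s := s) ht0 (Nat.sub_le t J.card) hN (ha J hJF hJne hJne') hp hΛ hpΛ
    rw [h1]
    calc ((Ψ.filter (fun ψ => Jm ψ = J)).card : ℝ) * p ^ (t - J.card) ≤
          ((C0 J : ℝ) * (D : ℝ) ^ t * (N : ℝ) ^ (a J)) * p ^ (t - J.card) := by gcongr
      _ = (C0 J : ℝ) * (D : ℝ) ^ t * (p ^ (t - J.card) * (N : ℝ) ^ (a J)) := by ring
      _ ≤ (C0 J : ℝ) * (D : ℝ) ^ t * (Λ * (N : ℝ) ^ (-(1 / (t : ℝ)))) := by gcongr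
      _ = _ := by ring
  refine (Finset.sum_le_sum hone).trans ?_
  rw [← Finset.sum_mul]
  have hnn : 0 ≤ (D : ℝ) ^ t * Λ * (N : ℝ) ^ (-(1 / (t : ℝ))) := by positivity
  nlinarith

end Pool.Agent.TFactor
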