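import Mathlib
import Pool.Agent.Work.MP_5010fd_co.Bern

namespace Pool.Agent.TFactor

open Finset

variable {X : Type} [Fintype X] [DecidableEq X]

/-- The expected value of a function of `W ∪ B`, read backwards. -/
private theorem sum_bw_union {p : ℝ} (hp : 0 < p) (B : Finset X) (f : Finset X → ℝ) :
    ∑ W : Finset X, bw p W * f (W ∪ B) =
      (p⁻¹) ^ B.card * ∑ W : Finset X, bw p W * (if B ⊆ W then f W else 0) := by
  rw [sum_bw_superset, ← mul_assoc, ← mul_pow, inv_mul_cancel₀ hp.ne', one_pow, one_mul]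

/-- Probability that the random set covers the part of `S'` outside `S`. -/
private theorem sum_bw_cover (p : ℝ) (S S' : Finset X) :
    ∑ W : Finset X, bw p W * (if S' ⊆ W ∪ S then (1 : ℝ) else 0) = p ^ (S' \ S).card := by
  classical
  rw [← bP_superset p (S' \ S)]
  unfold bP
  refine sum_congr rfl fun W _ => ?_
  have e : S' ⊆ W ∪ S ↔ S' \ S ⊆ W := by
    constructor
    · intro h x hx
      rw [mem_sdiff] at hx
      exact (mem_union.1 (h hx.1)).resolve_right hx.2
    · intro h x hx
      by_cases hs : x ∈ S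
      · exact mem_union_right _ hs
      · exact mem_union_left _ (h (mem_sdiff.2 ⟨hx, hs⟩))
  by_cases hc : S' \ S ⊆ W
  · rw [if_pos (e.2 hc), if_pos hc, mul_one]
  · rw [if_neg (fun h => hc (e.1 h)), if_neg hc, mul_zero]

/-- The overlap sum. -/
private theorem overlap_sum {q p : ℝ} {r m : ℕ} (μ : Finset X → ℝ) (h : IsSpread q r μ)
    (hq : 0 < q) (hp0 : 0 < p) (S : Finset X) (hS : S.card ≤ r) :
    (∑ S' : Finset X, if m ≤ (S ∩ S').card then μ S' * (p⁻¹) ^ (S ∩ S').card else 0) ≤
      ∑ l ∈ Icc m r, (r.choose l : ℝ) * (q / p) ^ l := by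
  classical
  obtain ⟨hμ0, -, -, hμs⟩ := h
  have hpi : 0 ≤ p⁻¹ := inv_nonneg.2 hp0.le
  calc (∑ S' : Finset X, if m ≤ (S ∩ S').card then μ S' * (p⁻¹) ^ (S ∩ S').card else 0)
      ≤ ∑ S' : Finset X, ∑ I ∈ S.powerset with m ≤ I.card,
          (p⁻¹) ^ I.card * (if I ⊆ S' then μ S' else 0) := by
        refine sum_le_sum fun S' _ => ?_
        have hnn : ∀ I ∈ S.powerset.filter (fun I => m ≤ I.card),
            0 ≤ (p⁻¹) ^ I.card * (if I ⊆ S' then μ S' else 0) := by
          intro I _
          refine mul_nonneg (pow_nonneg hpi _) ?_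
          split_ifs
          · exact hμ0 _
          · exact le_refl _
        split_ifs with hm
        · have hmem : S ∩ S' ∈ S.powerset.filter (fun I => m ≤ I.card) :=
            mem_filter.2 ⟨mem_powerset.2 inter_subset_left, hm⟩
          refine le_trans (le_of_eq ?_) (single_le_sum hnn hmem)
          rw [if_pos inter_subset_right, mul_comm]
        · exact sum_nonneg hnn
    _ = ∑ I ∈ S.powerset with m ≤ I.card,
          (p⁻¹) ^ I.card * ∑ S' : Finset X, (if I ⊆ S' then μ S' else 0) := by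
        rw [sum_comm]
        refine sum_congr rfl fun I _ => ?_
        rw [mul_sum]
    _ ≤ ∑ I ∈ S.powerset with m ≤ I.card, (q / p) ^ I.card := by
        refine sum_le_sum fun I _ => ?_
        rw [div_eq_inv_mul, mul_pow]
        exact mul_le_mul_of_nonneg_left (hμs I) (pow_nonneg hpi _)
    _ = ∑ l ∈ Icc m S.card, ∑ I ∈ powersetCard l S, (q / p) ^ I.card := by
        rw [← sum_biUnion]
        · refine sum_congr ?_ fun _ _ => rfl
          ext I
          simp only [mem_filter, mem_powerset, mem_biUnion, mem_Icc, mem_powersetCard]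
          constructor
          · rintro ⟨h1, h2⟩
            exact ⟨I.card, ⟨h2, card_le_card h1⟩, h1, rfl⟩
          · rintro ⟨l, ⟨h1, h2⟩, h3, h4⟩
            exact ⟨h3, by omega⟩
        · intro a _ b _ hab
          simp only [Function.onFun]
          rw [disjoint_left]
          intro I hI hI'
          rw [mem_powersetCard] at hI hI'
          exact hab (by omega)
    _ = ∑ l ∈ Icc m S.card, (S.card.choose l : ℝ) * (q / p) ^ l := by
        refine sum_congr rfl fun l _ => ?_
        rw [sum_congr rfl (fun I hI => by rw [(mem_powersetCard.1 hI).2] :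
          ∀ I ∈ powersetCard l S, (q / p) ^ I.card = (q / p) ^ l), sum_const, card_powersetCard,
          nsmul_eq_mul]
    _ ≤ ∑ l ∈ Icc m S.card, (r.choose l : ℝ) * (q / p) ^ l := by
        refine sum_le_sum fun l _ => ?_
        refine mul_le_mul_of_nonneg_right ?_ (pow_nonneg (div_nonneg hq.le hp0.le) _)
        exact_mod_cast Nat.choose_le_choose l hS
    _ ≤ ∑ l ∈ Icc m r, (r.choose l : ℝ) * (q / p) ^ l := by
        refine sum_le_sum_of_subset_of_nonneg (Icc_subset_Icc_right hS) fun l _ _ => ?_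
        exact mul_nonneg (Nat.cast_nonneg _) (pow_nonneg (div_nonneg hq.le hp0.le) _)

/-- One step of the spread argument.  A pair `(S, W)` is bad if every member `S'` of the support
of `μ` with `S' ⊆ S ∪ W` has at least `m` elements outside `W`. -/
theorem spread_step {q p δ : ℝ} {r m : ℕ} (μ : Finset X → ℝ) (h : IsSpread q r μ)
    (hq : 0 < q) (hp0 : 0 < p) (hp1 : p ≤ 1) (hδ : 0 < δ) :
    ∑ S : Finset X, μ S * bP p (fun W => ∀ S', μ S' ≠ 0 → S' ⊆ S ∪ W → m ≤ (S' \ W).card) ≤
      δ + δ⁻¹ * ∑ l ∈ Icc m r, (r.choose l : ℝ) * (q / p) ^ l := by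
  classical
  have hsp := h
  obtain ⟨hμ0, hμ1, hμr, hμs⟩ := h
  have hpi : 0 ≤ p⁻¹ := inv_nonneg.2 hp0.le
  have hbw : ∀ W : Finset X, 0 ≤ bw p W := fun W => bw_nonneg hp0.le hp1 W
  set D : Finset X → ℝ := fun Z => ∑ S : Finset X, (p⁻¹) ^ S.card *
    (if S ⊆ Z then μ S else 0) with hD
  set R : ℝ := ∑ l ∈ Icc m r, (r.choose l : ℝ) * (q / p) ^ l with hR
  -- first part
  have part1 : ∑ S : Finset X, μ S * ∑ W : Finset X, bw p W *
      (if D (W ∪ S) < δ then (1 : ℝ) else 0) ≤ δ := by
    calc ∑ S : Finset X, μ S * ∑ W : Finset X, bw p W *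
        (if D (W ∪ S) < δ then (1 : ℝ) else 0)
        = ∑ S : Finset X, ∑ Z : Finset X, (bw p Z * (if D Z < δ then (1 : ℝ) else 0)) *
            ((p⁻¹) ^ S.card * (if S ⊆ Z then μ S else 0)) := by
          refine sum_congr rfl fun S _ => ?_
          rw [sum_bw_union hp0 S (fun Z => if D Z < δ then (1 : ℝ) else 0), mul_sum, mul_sum]
          refine sum_congr rfl fun Z _ => ?_
          split_ifs <;> ring
      _ = ∑ Z : Finset X, (bw p Z * (if D Z < δ then (1 : ℝ) else 0)) * D Z := by
          rw [sum_comm]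
          refine sum_congr rfl fun Z _ => ?_
          rw [← mul_sum]
      _ ≤ ∑ Z : Finset X, bw p Z * δ := by
          refine sum_le_sum fun Z _ => ?_
          split_ifs with hc
          · rw [mul_one]
            exact mul_le_mul_of_nonneg_left hc.le (hbw Z)
          · rw [mul_zero, zero_mul]
            exact mul_nonneg (hbw Z) hδ.le
      _ = δ := by rw [← sum_mul, sum_bw, one_mul]
  -- pointwise
  have key : ∀ S : Finset X,
      bP p (fun W => ∀ S', μ S' ≠ 0 → S' ⊆ S ∪ W → m ≤ (S' \ W).card) ≤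
        (∑ W : Finset X, bw p W * (if D (W ∪ S) < δ then (1 : ℝ) else 0)) +
        δ⁻¹ * ∑ S' : Finset X,
          if m ≤ (S ∩ S').card then μ S' * (p⁻¹) ^ (S ∩ S').card else 0 := by
    intro S
    have e1 : ∀ S' : Finset X,
        (if m ≤ (S ∩ S').card then μ S' * (p⁻¹) ^ (S ∩ S').card else 0) =
        ∑ W : Finset X, bw p W * (if m ≤ (S ∩ S').card then
          (p⁻¹) ^ S'.card * (if S' ⊆ W ∪ S then μ S' else 0) else 0) := by
      intro S'
      split_ifs with hm
      · have e2 : ∀ W : Finset X, bw p W *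
            ((p⁻¹) ^ S'.card * (if S' ⊆ W ∪ S then μ S' else 0)) =
            ((p⁻¹) ^ S'.card * μ S') * (bw p W * (if S' ⊆ W ∪ S then (1 : ℝ) else 0)) := by
          intro W
          split_ifs <;> ring
        simp only [e2]
        rw [← mul_sum, sum_bw_cover]
        have e3 : S'.card = (S ∩ S').card + (S' \ S).card := by
          rw [inter_comm, card_inter_add_card_sdiff]
        rw [e3, pow_add]
        have e4 : (p⁻¹) ^ (S' \ S).card * p ^ (S' \ S).card = 1 := by
          rw [← mul_pow, inv_mul_cancel₀ hp0.ne', one_pow]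
        calc μ S' * (p⁻¹) ^ (S ∩ S').card = μ S' * (p⁻¹) ^ (S ∩ S').card * 1 := by ring
          _ = μ S' * (p⁻¹) ^ (S ∩ S').card * ((p⁻¹) ^ (S' \ S).card * p ^ (S' \ S).card) := by
            rw [e4]
          _ = _ := by ring
      · simp
    simp only [e1]
    rw [sum_comm, mul_sum, ← sum_add_distrib]
    unfold bP
    refine sum_le_sum fun W _ => ?_
    rw [← mul_sum]
    have hnn : 0 ≤ ∑ S' : Finset X, (if m ≤ (S ∩ S').card then
          (p⁻¹) ^ S'.card * (if S' ⊆ W ∪ S then μ S' else 0) else 0) := by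
      refine sum_nonneg fun S' _ => ?_
      split_ifs
      · exact mul_nonneg (pow_nonneg hpi _) (hμ0 _)
      · simp
      · exact le_refl _
    by_cases hbad : ∀ S', μ S' ≠ 0 → S' ⊆ S ∪ W → m ≤ (S' \ W).card
    · rw [if_pos hbad]
      by_cases hd : D (W ∪ S) < δ
      · rw [if_pos hd, mul_one]
        have := mul_nonneg (inv_nonneg.2 hδ.le) (mul_nonneg (hbw W) hnn)
        linarith
      · rw [if_neg hd, mul_zero, zero_add]
        have hle : D (W ∪ S) ≤ ∑ S' : Finset X, (if m ≤ (S ∩ S').card then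
          (p⁻¹) ^ S'.card * (if S' ⊆ W ∪ S then μ S' else 0) else 0) := by
          simp only [hD]
          refine sum_le_sum fun S' _ => ?_
          by_cases hz : S' ⊆ W ∪ S
          · by_cases hμ : μ S' = 0
            · simp [hμ]
            · have h1 : m ≤ (S' \ W).card := hbad S' hμ (by rwa [union_comm])
              have h2 : S' \ W ⊆ S ∩ S' := by
                intro x hx
                rw [mem_sdiff] at hx
                have := hz hx.1
                rw [mem_union] at this
                exact mem_inter.2 ⟨this.resolve_left hx.2, hx.1⟩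
              have h3 : m ≤ (S ∩ S').card := h1.trans (card_le_card h2)
              rw [if_pos h3]
          · simp [hz]
        have h4 : 1 ≤ δ⁻¹ * ∑ S' : Finset X, (if m ≤ (S ∩ S').card then
          (p⁻¹) ^ S'.card * (if S' ⊆ W ∪ S then μ S' else 0) else 0) := by
          have h5 : δ ≤ ∑ S' : Finset X, (if m ≤ (S ∩ S').card then
            (p⁻¹) ^ S'.card * (if S' ⊆ W ∪ S then μ S' else 0) else 0) :=
            le_trans (not_lt.1 hd) hle
          calc (1 : ℝ) = δ⁻¹ * δ := (inv_mul_cancel₀ hδ.ne').symm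
            _ ≤ _ := mul_le_mul_of_nonneg_left h5 (inv_nonneg.2 hδ.le)
        calc bw p W = bw p W * 1 := (mul_one _).symm
          _ ≤ bw p W * (δ⁻¹ * ∑ S' : Finset X, (if m ≤ (S ∩ S').card then
              (p⁻¹) ^ S'.card * (if S' ⊆ W ∪ S then μ S' else 0) else 0)) :=
            mul_le_mul_of_nonneg_left h4 (hbw W)
          _ = _ := by ring
    · rw [if_neg hbad]
      have h1 := mul_nonneg (inv_nonneg.2 hδ.le) (mul_nonneg (hbw W) hnn)
      have h2 : 0 ≤ bw p W * (if D (W ∪ S) < δ then (1 : ℝ) else 0) := by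
        refine mul_nonneg (hbw W) ?_
        split_ifs <;> norm_num
      linarith
  have hR0 : 0 ≤ R := sum_nonneg fun l _ =>
    mul_nonneg (Nat.cast_nonneg _) (pow_nonneg (div_nonneg hq.le hp0.le) _)
  calc ∑ S : Finset X, μ S *
        bP p (fun W => ∀ S', μ S' ≠ 0 → S' ⊆ S ∪ W → m ≤ (S' \ W).card)
      ≤ ∑ S : Finset X, (μ S * (∑ W : Finset X, bw p W *
          (if D (W ∪ S) < δ then (1 : ℝ) else 0)) + μ S * (δ⁻¹ * R)) := by
        refine sum_le_sum fun S _ => ?_
        by_cases hμ : μ S = 0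
        · simp [hμ]
        · rw [← mul_add]
          refine mul_le_mul_of_nonneg_left ((key S).trans ?_) (hμ0 S)
          refine add_le_add_right (mul_le_mul_of_nonneg_left ?_ (inv_nonneg.2 hδ.le)) _
          exact overlap_sum μ hsp hq hp0 S (hμr S hμ)
    _ = (∑ S : Finset X, μ S * (∑ W : Finset X, bw p W *
          (if D (W ∪ S) < δ then (1 : ℝ) else 0))) + (∑ S : Finset X, μ S) * (δ⁻¹ * R) := by
        rw [sum_add_distrib, ← sum_mul]
    _ ≤ δ + 1 * (δ⁻¹ * R) := by
        refine add_le_add part1 (mul_le_mul_of_nonneg_right hμ1 ?_)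
        exact mul_nonneg (inv_nonneg.2 hδ.le) hR0
    _ = δ + δ⁻¹ * R := by rw [one_mul]

end Pool.Agent.TFactor
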