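import Mathlib
import Pool.Agent.Work.MP_5010fd_co.SStep

namespace Pool.Agent.TFactor

open Finset

variable {X : Type} [Fintype X] [DecidableEq X]

/-- sizes at most `0`: nothing to do. -/
theorem fail_zero {q : ℝ} (μ : Finset X → ℝ) (h : IsSpread q 0 μ) (p : ℝ) :
    (∑ S : Finset X, μ S) * bP p (fun W => ∀ S, μ S ≠ 0 → ¬ S ⊆ W) = 0 := by
  classical
  by_cases h0 : μ ∅ = 0
  · have : ∑ S : Finset X, μ S = 0 := by
      apply Finset.sum_eq_zero
      intro S _
      by_contra hS
      have h1 := h.2.2.1 S hS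
      have h2 : S = ∅ := by
        rw [← Finset.card_eq_zero]
        omega
      rw [h2] at hS
      exact hS h0
    rw [this, zero_mul]
  · have : bP p (fun W : Finset X => ∀ S, μ S ≠ 0 → ¬ S ⊆ W) = 0 := by
      unfold bP
      apply Finset.sum_eq_zero
      intro W _
      rw [if_neg]
      intro hW
      exact hW ∅ h0 (Finset.empty_subset W)
    rw [this, mul_zero]

omit [DecidableEq X] in
theorem siter_bP_eq_sum (p : ℝ) (P : Finset X → Prop) [DecidablePred P] :
    bP p P = ∑ W : Finset X, if P W then bw p W else 0 := by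
  unfold bP
  apply Finset.sum_congr rfl
  intro W _
  by_cases h : P W <;> simp [h]

/-- one step of the iteration. -/
theorem fail_step {q p1 p2 δ η : ℝ} {r m : ℕ} (hq : 0 < q) (hp1 : 0 < p1) (hp2 : 0 ≤ p2)
    (hp : p1 + p2 ≤ 1) (hδ : 0 < δ)
    (H : ∀ ν : Finset X → ℝ, IsSpread q m ν →
      (∑ S : Finset X, ν S) * bP p2 (fun W => ∀ S, ν S ≠ 0 → ¬ S ⊆ W) ≤ η)
    (μ : Finset X → ℝ) (h : IsSpread q r μ) :
    (∑ S : Finset X, μ S) * bP (p1 + p2) (fun W => ∀ S, μ S ≠ 0 → ¬ S ⊆ W) ≤
      δ + δ⁻¹ * (∑ l ∈ Icc (m + 1) r, (r.choose l : ℝ) * (q / p1) ^ l) + η := by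
  classical
  have hp11 : p1 ≤ 1 := by linarith
  have hp21 : p2 ≤ 1 := by linarith
  have hμ0 : ∀ S, 0 ≤ μ S := h.1
  set M : ℝ := ∑ S : Finset X, μ S with hM
  have hM0 : 0 ≤ M := Finset.sum_nonneg (fun S _ => hμ0 S)
  set P : Finset X → Prop := fun W => ∃ S, μ S ≠ 0 ∧ S ⊆ W with hP
  have hfail : ∀ W, (∀ S, μ S ≠ 0 → ¬ S ⊆ W) ↔ ¬ P W := by
    intro W
    simp only [hP, not_exists, not_and]
  have hfun : (fun W => ∀ S, μ S ≠ 0 → ¬ S ⊆ W) = fun W => ¬ P W := funext fun W => propext (hfail W)
  rw [hfun, bP_not]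
  have htwo := bP_two_round (p := p1 + p2) (p1 := p1) (p2 := p2) hp1.le hp2 le_rfl hp P (by
    rintro S T hST ⟨S', h1, h2⟩
    exact ⟨S', h1, h2.trans hST⟩)
  have hle : 1 - bP (p1 + p2) P ≤ ∑ W1 : Finset X, bw p1 W1 * bP p2 (fun W2 => ¬ P (W1 ∪ W2)) := by
    have h1 : ∑ W1 : Finset X, bw p1 W1 * bP p2 (fun W2 => ¬ P (W1 ∪ W2)) =
        1 - ∑ W1 : Finset X, bw p1 W1 * bP p2 (fun W2 => P (W1 ∪ W2)) := by
      rw [← sum_bw (X := X) p1, ← Finset.sum_sub_distrib]
      apply Finset.sum_congr rfl
      intro W1 _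
      rw [bP_not]
      ring
    rw [h1]
    linarith
  -- the bad pairs
  set bad : Finset X → Finset X → Prop := fun S W =>
    ∀ S', μ S' ≠ 0 → S' ⊆ S ∪ W → m + 1 ≤ (S' \ W).card with hbad
  -- the bound for one `W1`
  have key : ∀ W1 : Finset X, M * bP p2 (fun W2 => ¬ P (W1 ∪ W2)) ≤
      (∑ S : Finset X, if bad S W1 then μ S else 0) + η := by
    intro W1
    have hch : ∀ S : Finset X, ∃ S' : Finset X, ¬ bad S W1 →
        (μ S' ≠ 0 ∧ S' ⊆ S ∪ W1 ∧ (S' \ W1).card ≤ m) := by
      intro S
      by_cases hb : bad S W1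
      · exact ⟨∅, fun h => absurd hb h⟩
      · have hb' := hb
        simp only [hbad] at hb'
        push Not at hb'
        obtain ⟨S', h1, h2, h3⟩ := hb'
        exact ⟨S', fun _ => ⟨h1, h2, by omega⟩⟩
    choose c hc using hch
    set τ : Finset X → Finset X := fun S => c S \ W1 with hτ
    have hτS : ∀ S, ¬ bad S W1 → τ S ⊆ S := by
      intro S hb x hx
      rw [hτ, Finset.mem_sdiff] at hx
      have := (hc S hb).2.1 hx.1
      rw [Finset.mem_union] at this
      exact this.resolve_right hx.2
    set ν : Finset X → ℝ := fun T => ∑ S : Finset X, if ¬ bad S W1 ∧ τ S = T then μ S else 0 with hν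
    have hνsum : ∀ (Q : Finset X → Prop) [DecidablePred Q],
        (∑ T : Finset X, if Q T then ν T else 0) =
          ∑ S : Finset X, if ¬ bad S W1 ∧ Q (τ S) then μ S else 0 := by
      intro Q _
      have h1 : ∀ T : Finset X, (if Q T then ν T else 0) =
          ∑ S : Finset X, if ¬ bad S W1 ∧ τ S = T ∧ Q T then μ S else 0 := by
        intro T
        by_cases hT : Q T
        · simp only [hT, if_true, and_true, hν]
        · simp only [hT, if_false, and_false, Finset.sum_const_zero]
      simp only [h1]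
      rw [Finset.sum_comm]
      apply Finset.sum_congr rfl
      intro S _
      rw [Finset.sum_eq_single (τ S)]
      · by_cases hb : bad S W1 <;> simp [hb]
      · intro T _ hT
        rw [if_neg]
        rintro ⟨-, h2, -⟩
        exact hT h2.symm
      · intro hcon
        exact absurd (Finset.mem_univ _) hcon
    have hνtot : ∑ T : Finset X, ν T = ∑ S : Finset X, if bad S W1 then 0 else μ S := by
      have h1 := hνsum (fun _ => True)
      simp only [if_true, and_true] at h1
      rw [h1]
      apply Finset.sum_congr rfl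
      intro S _
      by_cases hb : bad S W1 <;> simp [hb]
    have hνne : ∀ T, ν T ≠ 0 → ∃ S, ¬ bad S W1 ∧ τ S = T := by
      intro T hT
      by_contra hcon
      push Not at hcon
      apply hT
      simp only [hν]
      apply Finset.sum_eq_zero
      intro S _
      rw [if_neg]
      rintro ⟨h1, h2⟩
      exact hcon S h1 h2
    have hspread : IsSpread q m ν := by
      refine ⟨?_, ?_, ?_, ?_⟩
      · intro T
        simp only [hν]
        apply Finset.sum_nonneg
        intro S _
        split_ifs
        · exact hμ0 S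
        · exact le_rfl
      · rw [hνtot]
        refine le_trans ?_ h.2.1
        apply Finset.sum_le_sum
        intro S _
        split_ifs
        · exact hμ0 S
        · exact le_rfl
      · intro T hT
        obtain ⟨S, h1, rfl⟩ := hνne T hT
        exact (hc S h1).2.2
      · intro T0
        refine le_trans ?_ (h.2.2.2 T0)
        rw [hνsum (fun T => T0 ⊆ T)]
        apply Finset.sum_le_sum
        intro S _
        by_cases hb : bad S W1
        · simp only [hb, not_true_eq_false, false_and, if_false]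
          split_ifs
          · exact hμ0 S
          · exact le_rfl
        · by_cases hT : T0 ⊆ τ S
          · have hT' : T0 ⊆ S := hT.trans (hτS S hb)
            simp only [hb, not_false_eq_true, hT, and_self, if_true, hT', le_refl]
          · simp only [hT, and_false, if_false]
            split_ifs
            · exact hμ0 S
            · exact le_rfl
    have hH := H ν hspread
    have hmono : bP p2 (fun W2 => ¬ P (W1 ∪ W2)) ≤
        bP p2 (fun W => ∀ S, ν S ≠ 0 → ¬ S ⊆ W) := by
      apply bP_mono hp2 hp21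
      intro W2 hW2 T hT hTW
      obtain ⟨S, h1, rfl⟩ := hνne T hT
      apply hW2
      refine ⟨c S, (hc S h1).1, ?_⟩
      intro x hx
      rw [Finset.mem_union]
      by_cases hxW : x ∈ W1
      · exact Or.inl hxW
      · right
        exact hTW (Finset.mem_sdiff.2 ⟨hx, hxW⟩)
    have hb0 : 0 ≤ bP p2 (fun W2 => ¬ P (W1 ∪ W2)) := bP_nonneg hp2 hp21 _
    have hb1 : bP p2 (fun W2 => ¬ P (W1 ∪ W2)) ≤ 1 := bP_le_one hp2 hp21 _
    have hsplit : M = (∑ S : Finset X, if bad S W1 then μ S else 0) +
        ∑ S : Finset X, if bad S W1 then 0 else μ S := by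
      rw [hM, ← Finset.sum_add_distrib]
      apply Finset.sum_congr rfl
      intro S _
      split_ifs <;> simp
    have hbadnn : 0 ≤ ∑ S : Finset X, if bad S W1 then μ S else 0 := by
      apply Finset.sum_nonneg
      intro S _
      split_ifs
      · exact hμ0 S
      · exact le_rfl
    have hgoodnn : 0 ≤ ∑ S : Finset X, if bad S W1 then 0 else μ S := by
      apply Finset.sum_nonneg
      intro S _
      split_ifs
      · exact le_rfl
      · exact hμ0 S
    rw [hsplit, add_mul]
    apply add_le_add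
    · calc (∑ S : Finset X, if bad S W1 then μ S else 0) * bP p2 (fun W2 => ¬ P (W1 ∪ W2))
          ≤ (∑ S : Finset X, if bad S W1 then μ S else 0) * 1 :=
            mul_le_mul_of_nonneg_left hb1 hbadnn
        _ = _ := mul_one _
    · rw [← hνtot] at hgoodnn ⊢
      exact (mul_le_mul_of_nonneg_left hmono hgoodnn).trans hH
  -- sum over `W1`
  have hbw : ∀ W : Finset X, 0 ≤ bw p1 W := bw_nonneg hp1.le hp11
  have hsum : M * (1 - bP (p1 + p2) P) ≤
      ∑ W1 : Finset X, bw p1 W1 * ((∑ S : Finset X, if bad S W1 then μ S else 0) + η) := by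
    calc M * (1 - bP (p1 + p2) P)
        ≤ M * ∑ W1 : Finset X, bw p1 W1 * bP p2 (fun W2 => ¬ P (W1 ∪ W2)) :=
          mul_le_mul_of_nonneg_left hle hM0
      _ = ∑ W1 : Finset X, bw p1 W1 * (M * bP p2 (fun W2 => ¬ P (W1 ∪ W2))) := by
          rw [Finset.mul_sum]
          apply Finset.sum_congr rfl
          intro W1 _
          ring
      _ ≤ _ := by
          apply Finset.sum_le_sum
          intro W1 _
          exact mul_le_mul_of_nonneg_left (key W1) (hbw W1)
  have hexp : ∑ W1 : Finset X, bw p1 W1 * ((∑ S : Finset X, if bad S W1 then μ S else 0) + η) =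
      (∑ S : Finset X, μ S * bP p1 (fun W => bad S W)) + η := by
    simp only [mul_add, Finset.sum_add_distrib]
    congr 1
    · simp only [Finset.mul_sum]
      rw [Finset.sum_comm]
      apply Finset.sum_congr rfl
      intro S _
      rw [siter_bP_eq_sum, Finset.mul_sum]
      apply Finset.sum_congr rfl
      intro W _
      by_cases hb : bad S W <;> simp [hb, mul_comm]
    · rw [← Finset.sum_mul, sum_bw, one_mul]
  rw [hexp] at hsum
  have hstep := spread_step (m := m + 1) μ h hq hp1 hp11 hδ
  have : ∑ S : Finset X, μ S * bP p1 (fun W => bad S W) ≤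
      δ + δ⁻¹ * ∑ l ∈ Icc (m + 1) r, (r.choose l : ℝ) * (q / p1) ^ l := hstep
  linarith

end Pool.Agent.TFactor
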