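import Mathlib
import Pool.Agent.Work.MP_5010fd_co.SIter

namespace Pool.Agent.TFactor

open Finset

/-- halving step: from sizes at most `r` to sizes at most `r / 2` with density `64 q`. -/
theorem halving_error (q : ℝ) (hq : 0 < q) (r : ℕ) :
    ((2 : ℝ) ^ r)⁻¹ + ((2 : ℝ) ^ r) * (∑ l ∈ Icc (r / 2 + 1) r,
      (r.choose l : ℝ) * (q / (64 * q)) ^ l) ≤ 2 * ((2 : ℝ) ^ r)⁻¹ := by
  have hq64 : q / (64 * q) = 1 / 64 := by field_simp
  rw [hq64]
  have hterm : ∀ l ∈ Icc (r / 2 + 1) r, (r.choose l : ℝ) * (1 / 64 : ℝ) ^ l ≤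
      (r.choose l : ℝ) * ((1 / 8 : ℝ) ^ r) := by
    intro l hl
    rw [Finset.mem_Icc] at hl
    refine mul_le_mul_of_nonneg_left ?_ (Nat.cast_nonneg _)
    have h64 : (1 / 64 : ℝ) = (1 / 8 : ℝ) ^ 2 := by norm_num
    rw [h64, ← pow_mul]
    exact pow_le_pow_of_le_one (by norm_num) (by norm_num) (by omega)
  have hsum : (∑ l ∈ Icc (r / 2 + 1) r, (r.choose l : ℝ) * (1 / 64 : ℝ) ^ l) ≤
      (2 : ℝ) ^ r * (1 / 8 : ℝ) ^ r := by
    calc (∑ l ∈ Icc (r / 2 + 1) r, (r.choose l : ℝ) * (1 / 64 : ℝ) ^ l)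
        ≤ ∑ l ∈ Icc (r / 2 + 1) r, (r.choose l : ℝ) * ((1 / 8 : ℝ) ^ r) :=
          Finset.sum_le_sum hterm
      _ ≤ ∑ l ∈ range (r + 1), (r.choose l : ℝ) * ((1 / 8 : ℝ) ^ r) := by
          refine Finset.sum_le_sum_of_subset_of_nonneg ?_ (fun _ _ _ => by positivity)
          intro l hl
          rw [Finset.mem_Icc] at hl
          rw [Finset.mem_range]
          omega
      _ = (2 : ℝ) ^ r * (1 / 8 : ℝ) ^ r := by
          rw [← Finset.sum_mul]
          congr 1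
          have := Nat.sum_range_choose r
          exact_mod_cast this
  have h2 : (0 : ℝ) < (2 : ℝ) ^ r := by positivity
  have h3 : (2 : ℝ) ^ r * (∑ l ∈ Icc (r / 2 + 1) r, (r.choose l : ℝ) * (1 / 64 : ℝ) ^ l) ≤
      ((2 : ℝ) ^ r)⁻¹ := by
    calc (2 : ℝ) ^ r * (∑ l ∈ Icc (r / 2 + 1) r, (r.choose l : ℝ) * (1 / 64 : ℝ) ^ l)
        ≤ (2 : ℝ) ^ r * ((2 : ℝ) ^ r * (1 / 8 : ℝ) ^ r) :=
          mul_le_mul_of_nonneg_left hsum h2.le
      _ = ((2 : ℝ) ^ r)⁻¹ := by
          rw [← mul_pow, ← mul_pow, ← inv_pow]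
          norm_num
  linarith

/-- last step: density `q L`, with `L ≥ r`. -/
theorem last_error (q : ℝ) (hq : 0 < q) (r : ℕ) (L : ℝ) (hL : (r : ℝ) ≤ L) (hr : 1 ≤ r) :
    Real.sqrt (2 * r / L) + (Real.sqrt (2 * r / L))⁻¹ * (∑ l ∈ Icc 1 r,
      (r.choose l : ℝ) * (q / (q * L)) ^ l) ≤ 2 * Real.sqrt (2 * r / L) := by
  have hr1 : (1 : ℝ) ≤ r := by exact_mod_cast hr
  have hL0 : 0 < L := by linarith
  have hqL : q / (q * L) = 1 / L := by field_simp
  rw [hqL]
  have hsum : (∑ l ∈ Icc 1 r, (r.choose l : ℝ) * (1 / L) ^ l) ≤ 2 * r / L := by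
    have h1 : (1 + 1 / L) ^ r = 1 + ∑ l ∈ Icc 1 r, (r.choose l : ℝ) * (1 / L) ^ l := by
      rw [add_comm (1 : ℝ) (1 / L), add_pow]
      rw [Finset.range_eq_Ico, Finset.sum_eq_sum_Ico_succ_bot (by omega)]
      simp only [pow_zero, one_pow, mul_one, Nat.choose_zero_right, Nat.cast_one]
      congr 1
      refine Finset.sum_congr ?_ (fun l _ => by ring)
      ext l
      simp only [Finset.mem_Ico, Finset.mem_Icc]
      omega
    have h2 : (1 + 1 / L) ^ r ≤ Real.exp (r / L) := by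
      have : 1 + 1 / L ≤ Real.exp (1 / L) := by
        have := Real.add_one_le_exp (1 / L)
        linarith
      calc (1 + 1 / L) ^ r ≤ (Real.exp (1 / L)) ^ r :=
            pow_le_pow_left₀ (by positivity) this r
        _ = Real.exp (r / L) := by
            rw [← Real.exp_nat_mul]
            congr 1
            ring
    have h3 : Real.exp (r / L) ≤ 1 + 2 * (r / L) := by
      have hy0 : 0 ≤ (r : ℝ) / L := by positivity
      have hy1 : (r : ℝ) / L ≤ 1 := (div_le_one hL0).mpr hL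
      have := Real.abs_exp_sub_one_le (x := (r : ℝ) / L) (by rw [abs_of_nonneg hy0]; exact hy1)
      rw [abs_of_nonneg hy0] at this
      have h4 := (abs_le.mp this).2
      linarith
    have h5 : 2 * (r : ℝ) / L = 2 * (r / L) := by ring
    rw [h5]
    linarith
  have hx2 : 0 < 2 * (r : ℝ) / L := by positivity
  have hx : 0 < Real.sqrt (2 * r / L) := Real.sqrt_pos.mpr hx2
  have h6 : (Real.sqrt (2 * r / L))⁻¹ * (∑ l ∈ Icc 1 r, (r.choose l : ℝ) * (1 / L) ^ l) ≤
      Real.sqrt (2 * r / L) := by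
    calc (Real.sqrt (2 * r / L))⁻¹ * (∑ l ∈ Icc 1 r, (r.choose l : ℝ) * (1 / L) ^ l)
        ≤ (Real.sqrt (2 * r / L))⁻¹ * (2 * r / L) :=
          mul_le_mul_of_nonneg_left hsum (by positivity)
      _ = Real.sqrt (2 * r / L) := by
          rw [inv_mul_eq_div, div_eq_iff hx.ne']
          exact (Real.mul_self_sqrt hx2.le).symm
  linarith

/-- monotonicity of spreadness in the size bound. -/
private theorem IsSpread.mono_r {X : Type} [Fintype X] [DecidableEq X] {q : ℝ} {r r' : ℕ}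
    {μ : Finset X → ℝ} (h : IsSpread q r μ) (hr : r ≤ r') : IsSpread q r' μ :=
  ⟨h.1, h.2.1, fun S hS => (h.2.2.1 S hS).trans hr, h.2.2.2⟩

private theorem main_claim {q : ℝ} (hq : 0 < q) {rs : ℕ} (hrs : 1 ≤ rs) {L : ℝ}
    (hL : (rs : ℝ) ≤ L) {X : Type} [Fintype X] [DecidableEq X] :
    ∀ (n r : ℕ), rs ≤ r → r < 2 ^ n * (rs + 1) → ∀ p : ℝ, 64 * q * n + q * L ≤ p → p ≤ 1 →
      ∀ μ : Finset X → ℝ, IsSpread q r μ →
      (∑ S : Finset X, μ S) * bP p (fun W => ∀ S, μ S ≠ 0 → ¬ S ⊆ W) ≤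
        2 * (((2 : ℝ) ^ rs)⁻¹ - ((2 : ℝ) ^ r)⁻¹) + 2 * Real.sqrt (2 * rs / L) := by
  have hrs1 : (1 : ℝ) ≤ rs := by exact_mod_cast hrs
  have hL0 : 0 < L := by linarith
  intro n
  induction n with
  | zero =>
    intro r hr1 hr2 p hp hp1 μ hμ
    have hr : r = rs := by
      simp only [pow_zero, one_mul] at hr2
      omega
    subst hr
    simp only [Nat.cast_zero, mul_zero, zero_add] at hp
    have hp0 : 0 < p := lt_of_lt_of_le (by positivity) hp
    have hLp : L ≤ p / q := by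
      rw [le_div_iff₀ hq]
      linarith [mul_comm q L]
    have hLp0 : 0 < p / q := by positivity
    have hle := last_error q hq r (p / q) (hL.trans hLp) hrs
    have hqq : q * (p / q) = p := by field_simp
    rw [hqq] at hle
    have hsq : 0 < Real.sqrt (2 * r / (p / q)) := Real.sqrt_pos.mpr (by positivity)
    have hstep := fail_step (q := q) (p1 := p) (p2 := 0) (δ := Real.sqrt (2 * r / (p / q)))
      (η := 0) (r := r) (m := 0) hq hp0 le_rfl (by linarith) hsq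
      (fun ν hν => le_of_eq (fail_zero ν hν 0)) μ hμ
    rw [add_zero, add_zero] at hstep
    have hmono : Real.sqrt (2 * r / (p / q)) ≤ Real.sqrt (2 * r / L) := by
      apply Real.sqrt_le_sqrt
      exact div_le_div_of_nonneg_left (by positivity) hL0 hLp
    calc _ ≤ _ := hstep
      _ ≤ 2 * Real.sqrt (2 * r / (p / q)) := hle
      _ ≤ 2 * Real.sqrt (2 * r / L) := by linarith
      _ = 2 * (((2 : ℝ) ^ r)⁻¹ - ((2 : ℝ) ^ r)⁻¹) + 2 * Real.sqrt (2 * r / L) := by ring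
  | succ n ih =>
    intro r hr1 hr2 p hp hp1 μ hμ
    rcases Nat.eq_or_lt_of_le hr1 with heq | hlt
    · -- same size: use the previous bound
      subst heq
      refine ih rs le_rfl ?_ p ?_ hp1 μ hμ
      · have : 1 ≤ 2 ^ n := Nat.one_le_two_pow
        nlinarith
      · refine le_trans ?_ hp
        push_cast
        nlinarith
    · -- halving
      set m := max (r / 2) rs with hm
      have hmr : m + 1 ≤ r := by
        rw [hm]
        omega
      have hmrs : rs ≤ m := le_max_right _ _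
      have hm2 : m < 2 ^ n * (rs + 1) := by
        rw [hm]
        apply max_lt
        · rw [pow_succ] at hr2
          have : r < 2 * (2 ^ n * (rs + 1)) := by linarith [mul_comm (2 ^ n) 2]
          omega
        · have : 1 ≤ 2 ^ n := Nat.one_le_two_pow
          nlinarith
      have hp2 : 64 * q * n + q * L ≤ p - 64 * q := by
        push_cast at hp
        linarith
      have hp20 : 0 ≤ p - 64 * q := le_trans (by positivity) hp2
      have hH : ∀ ν : Finset X → ℝ, IsSpread q m ν →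
          (∑ S : Finset X, ν S) * bP (p - 64 * q) (fun W => ∀ S, ν S ≠ 0 → ¬ S ⊆ W) ≤
          2 * (((2 : ℝ) ^ rs)⁻¹ - ((2 : ℝ) ^ m)⁻¹) + 2 * Real.sqrt (2 * rs / L) :=
        fun ν hν => ih m hmrs hm2 (p - 64 * q) hp2 (by linarith) ν hν
      have h2r : (0 : ℝ) < ((2 : ℝ) ^ r)⁻¹ := by positivity
      have hstep := fail_step (q := q) (p1 := 64 * q) (p2 := p - 64 * q)
        (δ := ((2 : ℝ) ^ r)⁻¹)
        (η := 2 * (((2 : ℝ) ^ rs)⁻¹ - ((2 : ℝ) ^ m)⁻¹) + 2 * Real.sqrt (2 * rs / L))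
        (r := r) (m := m) hq (by positivity) hp20 (by linarith) h2r hH μ hμ
      have hpe : 64 * q + (p - 64 * q) = p := by ring
      rw [hpe, inv_inv] at hstep
      have hhalf := halving_error q hq r
      have hsub : (∑ l ∈ Icc (m + 1) r, (r.choose l : ℝ) * (q / (64 * q)) ^ l) ≤
          ∑ l ∈ Icc (r / 2 + 1) r, (r.choose l : ℝ) * (q / (64 * q)) ^ l := by
        refine Finset.sum_le_sum_of_subset_of_nonneg ?_ (fun _ _ _ => by positivity)
        apply Finset.Icc_subset_Icc _ le_rfl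
        have : r / 2 ≤ m := le_max_left _ _
        omega
      have hsub2 : (2 : ℝ) ^ r * (∑ l ∈ Icc (m + 1) r, (r.choose l : ℝ) * (q / (64 * q)) ^ l) ≤
          (2 : ℝ) ^ r * ∑ l ∈ Icc (r / 2 + 1) r, (r.choose l : ℝ) * (q / (64 * q)) ^ l :=
        mul_le_mul_of_nonneg_left hsub (by positivity)
      have hmm : 2 * ((2 : ℝ) ^ r)⁻¹ ≤ ((2 : ℝ) ^ m)⁻¹ := by
        have h1 : (2 : ℝ) ^ (m + 1) ≤ (2 : ℝ) ^ r := pow_le_pow_right₀ (by norm_num) hmr
        have h2 : ((2 : ℝ) ^ r)⁻¹ ≤ ((2 : ℝ) ^ (m + 1))⁻¹ :=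
          inv_anti₀ (by positivity) h1
        rw [pow_succ, mul_inv] at h2
        linarith
      linarith

/-- spread measures of bounded size: the random set contains a member of the support with
probability close to one. -/
theorem spread_main : ∃ K : ℝ, 0 < K ∧ ∀ ε : ℝ, 0 < ε → ∃ r0 : ℕ, ∀ r ≥ r0,
    ∀ (X : Type) [Fintype X] [DecidableEq X] (μ : Finset X → ℝ) (q : ℝ), 0 < q →
      IsSpread q r μ → ∑ S : Finset X, μ S = 1 →
      ∀ p : ℝ, K * q * Real.log r ≤ p → p ≤ 1 →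
        1 - ε ≤ bP p (fun W => ∃ S, μ S ≠ 0 ∧ S ⊆ W) := by
  refine ⟨193, by norm_num, fun ε hε => ?_⟩
  -- choose the stopping size
  obtain ⟨k, hk⟩ : ∃ k : ℕ, ((1 : ℝ) / 2) ^ k < ε / 4 :=
    exists_pow_lt_of_lt_one (by positivity) (by norm_num)
  set rs := k + 1 with hrs
  have hrs1 : 1 ≤ rs := by omega
  have hrsε : 2 * ((2 : ℝ) ^ rs)⁻¹ ≤ ε / 2 := by
    have : ((2 : ℝ) ^ rs)⁻¹ ≤ ((1 : ℝ) / 2) ^ k := by
      rw [hrs, ← inv_pow, one_div]
      exact pow_le_pow_of_le_one (by norm_num) (by norm_num) (by omega)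
    linarith
  -- choose the lower bound for `log r`
  set Λ : ℝ := max 1 (max rs (32 * rs / ε ^ 2)) with hΛ
  obtain ⟨r0, hr0⟩ : ∃ r0 : ℕ, Real.exp Λ ≤ r0 := exists_nat_ge _
  refine ⟨max r0 (max rs 2), fun r hr X _ _ μ q hq hμ hμ1 p hp hp1 => ?_⟩
  have hrr0 : r0 ≤ r := le_trans (le_max_left _ _) hr
  have hrrs : rs ≤ r := le_trans (le_trans (le_max_left _ _) (le_max_right _ _)) hr
  have hr2 : 2 ≤ r := le_trans (le_trans (le_max_right _ _) (le_max_right _ _)) hr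
  have hlog : Λ ≤ Real.log r := by
    rw [Real.le_log_iff_exp_le (by exact_mod_cast (by omega : 0 < r))]
    exact hr0.trans (by exact_mod_cast hrr0)
  have hlog1 : 1 ≤ Real.log r := le_trans (le_max_left _ _) hlog
  have hlogrs : (rs : ℝ) ≤ Real.log r :=
    le_trans (le_trans (le_max_left _ _) (le_max_right _ _)) hlog
  have hlogε : 32 * rs / ε ^ 2 ≤ Real.log r :=
    le_trans (le_trans (le_max_right _ _) (le_max_right _ _)) hlog
  have hlog0 : 0 < Real.log r := by linarith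
  -- number of halvings
  have hn : r < 2 ^ (Nat.log 2 r + 1) * (rs + 1) := by
    have h1 : r < 2 ^ (Nat.log 2 r + 1) := Nat.lt_pow_succ_log_self (by norm_num) r
    exact lt_of_lt_of_le h1 (Nat.le_mul_of_pos_right _ (by omega))
  have hnl : ((Nat.log 2 r + 1 : ℕ) : ℝ) ≤ 3 * Real.log r := by
    have h1 : 2 ^ (Nat.log 2 r) ≤ r := Nat.pow_log_le_self 2 (by omega)
    have h2 : ((2 : ℝ)) ^ (Nat.log 2 r) ≤ r := by exact_mod_cast h1
    have h3 : (Nat.log 2 r : ℝ) * Real.log 2 ≤ Real.log r := by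
      rw [← Real.log_pow]
      exact Real.log_le_log (by positivity) h2
    have h4 : (0.5 : ℝ) ≤ Real.log 2 := by
      have := Real.log_two_gt_d9
      linarith
    have h5 : (0 : ℝ) ≤ Nat.log 2 r := Nat.cast_nonneg _
    push_cast
    nlinarith
  have hpn : 64 * q * ((Nat.log 2 r + 1 : ℕ) : ℝ) + q * Real.log r ≤ p := by
    refine le_trans ?_ hp
    have : 64 * q * ((Nat.log 2 r + 1 : ℕ) : ℝ) ≤ 64 * q * (3 * Real.log r) :=
      mul_le_mul_of_nonneg_left hnl (by positivity)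
    nlinarith
  have hmain := main_claim (X := X) hq hrs1 hlogrs (Nat.log 2 r + 1) r hrrs hn p hpn hp1 μ hμ
  rw [hμ1, one_mul] at hmain
  have hsq : Real.sqrt (2 * rs / Real.log r) ≤ ε / 4 := by
    rw [Real.sqrt_le_left (by positivity)]
    rw [div_le_iff₀ hlog0]
    rw [div_le_iff₀ (by positivity)] at hlogε
    nlinarith
  have h2r : (0 : ℝ) < ((2 : ℝ) ^ r)⁻¹ := by positivity
  have hfail : bP p (fun W => ∀ S, μ S ≠ 0 → ¬ S ⊆ W) ≤ ε := by linarith
  have hnot := bP_not p (fun W : Finset X => ∀ S, μ S ≠ 0 → ¬ S ⊆ W)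
  have heq : (fun W : Finset X => ¬ ∀ S, μ S ≠ 0 → ¬ S ⊆ W) =
      (fun W => ∃ S, μ S ≠ 0 ∧ S ⊆ W) := by
    funext W
    push Not
    rfl
  rw [heq] at hnot
  rw [hnot]
  linarith

end Pool.Agent.TFactor
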