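import Mathlib
import Pool.Agent.Work.MP_5010fd_co.SMain
import Pool.Agent.Work.MP_5010fd_co.Couple
import Pool.Agent.Work.MP_5010fd_co.Bal
import Pool.Agent.Work.MP_5010fd_co.Acc
import Pool.Agent.Work.MP_5010fd_co.QSum
import Pool.Agent.Work.MP_5010fd_co.EProbOne
import Pool.Agent.Work.MP_5010fd_co.EProbTwo

namespace Pool.Agent.TFactor

open Finset

theorem EA_card_le {V : Type} [DecidableEq V] {s : ℕ} (F : Finset (Finset (Fin s)))
    (ψ : Fin s ↪ V) : (EA F ψ).card ≤ F.card := card_image_le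

theorem subset_im_of_mem_EA {V : Type} [DecidableEq V] {s : ℕ} (F : Finset (Finset (Fin s)))
    (ψ : Fin s ↪ V) (e : Finset V) (he : e ∈ EA F ψ) : e ⊆ im ψ := by
  unfold EA at he
  obtain ⟨f, _, rfl⟩ := mem_image.1 he
  exact map_subset_map.2 (subset_univ f)

theorem card_of_mem_EA {V : Type} [DecidableEq V] {k s : ℕ} (F : Finset (Finset (Fin s)))
    (hF : ∀ e ∈ F, e.card = k) (ψ : Fin s ↪ V) (e : Finset V) (he : e ∈ EA F ψ) :
    e.card = k := by
  unfold EA at he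
  obtain ⟨f, hf, rfl⟩ := mem_image.1 he
  rw [card_map]; exact hF f hf

/-- degrees in the union of the copies of `T`. -/
theorem degree_le {V : Type} [DecidableEq V] {s : ℕ} (F : Finset (Finset (Fin s)))
    (Δ : ℕ) (T : Finset (Fin s ↪ V)) (hE1 : E1 Δ T) (L : Finset (Finset V))
    (hL : L ⊆ T.biUnion (EA F)) (v : V) :
    (L.filter (fun e => v ∈ e)).card ≤ F.card * Δ := by
  have hsub : L.filter (fun e => v ∈ e) ⊆ (T.filter (fun ψ => v ∈ im ψ)).biUnion (EA F) := by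
    intro e he
    obtain ⟨he1, he2⟩ := mem_filter.1 he
    obtain ⟨ψ, hψ, heψ⟩ := mem_biUnion.1 (hL he1)
    exact mem_biUnion.2 ⟨ψ, mem_filter.2 ⟨hψ, subset_im_of_mem_EA F ψ e heψ he2⟩, heψ⟩
  calc (L.filter (fun e => v ∈ e)).card
      ≤ ((T.filter (fun ψ => v ∈ im ψ)).biUnion (EA F)).card := card_le_card hsub
    _ ≤ ∑ ψ ∈ T.filter (fun ψ => v ∈ im ψ), (EA F ψ).card := card_biUnion_le
    _ ≤ ∑ ψ ∈ T.filter (fun ψ => v ∈ im ψ), F.card := sum_le_sum (fun ψ _ => EA_card_le F ψ)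
    _ = (T.filter (fun ψ => v ∈ im ψ)).card * F.card := by simp
    _ ≤ Δ * F.card := Nat.mul_le_mul_right _ (hE1 v)
    _ = F.card * Δ := mul_comm _ _

/-- for a typical `T` every step of the coupling is good. -/
theorem good_of {V : Type} [Fintype V] [DecidableEq V] {k s : ℕ} (hk : 2 ≤ k)
    (F : Finset (Finset (Fin s))) (hF : ∀ e ∈ F, e.card = k) (hne : F.Nonempty)
    (hbal : Bal1 F) (hV : F.biUnion id = univ) (C1 : ℝ)
    (hC1 : ∀ (D : ℕ) (L E0 : Finset (Finset V)), 1 ≤ D →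
        (∀ e ∈ L, e.card = k) → (∀ v, (L.filter (fun e => v ∈ e)).card ≤ D) → E0 ⊆ L →
        E0.card ≤ F.card → 1 ≤ Fintype.card V →
        ∀ p Λ : ℝ, 0 < p → p ≤ 1 → 1 ≤ Λ →
          p ^ F.card ≤ Λ / (Fintype.card V : ℝ) ^ (s - 1) →
          ∑ ψ ∈ univ.filter (fun ψ : Fin s ↪ V => ¬ EA F ψ ⊆ L ∧ (EA F ψ ∩ E0).Nonempty),
            p ^ (EA F ψ \ L).card ≤
              C1 * (D : ℝ) ^ F.card * Λ *
                (Fintype.card V : ℝ) ^ (-(1 / (F.card : ℝ))))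
    (hN : 1 ≤ Fintype.card V) (Δ : ℕ) (hΔ : 1 ≤ Δ) (T : Finset (Fin s ↪ V)) (hE1 : E1 Δ T)
    (hE2 : E2 F.card T) (p Λ : ℝ) (hp0 : 0 < p) (hp1 : p ≤ 1) (hΛ : 1 ≤ Λ)
    (hpΛ : p ^ F.card ≤ Λ / (Fintype.card V : ℝ) ^ (s - 1))
    (hQ : C1 * ((F.card * Δ : ℕ) : ℝ) ^ F.card * Λ *
                (Fintype.card V : ℝ) ^ (-(1 / (F.card : ℝ))) ≤ 1 / 2)
    (i : Fin s ↪ V) (hi : i ∈ T) (S : Finset (Fin s ↪ V)) (hS : S ⊆ T) :
    Good (EA F) ((F.card * s) ^ s + s ^ s) p i S := by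
  constructor
  · exact acc_count F hbal hV hne (fun e he => by rw [hF e he]; exact hk) T hE2 i hi S hS
  · set L : Finset (Finset V) := EA F i ∪ S.biUnion (EA F) with hLdef
    have hLT : L ⊆ T.biUnion (EA F) := by
      intro e he
      rcases mem_union.1 he with h | h
      · exact mem_biUnion.2 ⟨i, hi, h⟩
      · obtain ⟨ψ, hψ, h⟩ := mem_biUnion.1 h
        exact mem_biUnion.2 ⟨ψ, hS hψ, h⟩
    have h1 : 1 ≤ F.card * Δ := Nat.mul_pos (card_pos.2 hne) hΔ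
    refine le_trans ?_ hQ
    refine hC1 (F.card * Δ) L (EA F i \ S.biUnion (EA F)) h1 ?_ ?_ ?_ ?_ hN p Λ hp0 hp1 hΛ hpΛ
    · intro e he
      obtain ⟨ψ, _, h⟩ := mem_biUnion.1 (hLT he)
      exact card_of_mem_EA F hF ψ e h
    · exact degree_le F Δ T hE1 L hLT
    · exact fun e he => mem_union_left _ (mem_sdiff.1 he).1
    · exact le_trans (card_le_card sdiff_subset) (EA_card_le F i)

theorem UTF_mono {V : Type} {s : ℕ} (F : Finset (Finset (Fin s))) (t n : ℕ)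
    (H : Fin (t * n) → Finset (Finset V)) (T T' : Finset (Fin s ↪ V)) (h : T ⊆ T')
    (hT : UTF F t n H T) : UTF F t n H T' := by
  obtain ⟨φ, h1, h2⟩ := hT
  exact ⟨φ, fun i => h (h1 i), h2⟩

/-- copies inside `G` give a factor of the intersected system. -/
theorem hasTF_of_UTF {V : Type} [Fintype V] [DecidableEq V] {s : ℕ}
    (F : Finset (Finset (Fin s))) (t n : ℕ)
    (H : Fin (t * n) → Finset (Finset V)) (G : Finset (Finset V))
    (hT : UTF F t n H (univ.filter (fun ψ => EA F ψ ⊆ G))) :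
    HasTF F t n (fun i => H i ∩ G) := by
  obtain ⟨φ, h1, h2, c, hc, h3⟩ := hT
  refine ⟨φ, h2, c, hc, fun i e => mem_inter.2 ⟨h3 i e, ?_⟩⟩
  exact (mem_filter.1 (h1 i)).2 (mem_image_of_mem _ e.2)

/-- the event only depends on the `k`-sets. -/
theorem bP_eq_probG {V : Type} [Fintype V] [DecidableEq V] {s k : ℕ}
    (F : Finset (Finset (Fin s))) (t n : ℕ)
    (H : Fin (t * n) → Finset (Finset V)) (hH : ∀ i, ∀ e ∈ H i, e.card = k) (p : ℝ) :
    bP p (fun G => HasTF F t n (fun i => H i ∩ G)) =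
      probG k p (fun G => HasTF F t n (fun i => H i ∩ G)) := by
  classical
  set K : Finset (Finset V) := powersetCard k (univ : Finset V) with hK
  have hHK : ∀ i, H i ⊆ K := fun i e he => mem_powersetCard.2 ⟨subset_univ e, hH i e he⟩
  have h1 : ∀ G : Finset (Finset V),
      (HasTF F t n (fun i => H i ∩ G) ↔ HasTF F t n (fun i => H i ∩ (G ∩ K))) := by
    intro G
    have : (fun i => H i ∩ (G ∩ K)) = (fun i => H i ∩ G) := by
      funext i
      rw [← inter_assoc, inter_eq_left]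
      exact fun e he => hHK i (mem_inter.1 he).1
    rw [this]
  have h2 := bw_marginal p K (fun G => if HasTF F t n (fun i => H i ∩ G) then (1 : ℝ) else 0)
  unfold bP probG
  calc ∑ W : Finset (Finset V), (if HasTF F t n (fun i => H i ∩ W) then bw p W else 0)
      = ∑ W : Finset (Finset V), bw p W *
          (if HasTF F t n (fun i => H i ∩ (W ∩ K)) then (1 : ℝ) else 0) := by
        refine sum_congr rfl (fun W _ => ?_)
        by_cases h : HasTF F t n (fun i => H i ∩ W)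
        · rw [if_pos h, if_pos ((h1 W).1 h), mul_one]
        · rw [if_neg h, if_neg (fun h' => h ((h1 W).2 h')), mul_zero]
    _ = _ := h2
    _ = _ := by
        refine sum_congr rfl (fun W _ => ?_)
        by_cases h : HasTF F t n (fun i => H i ∩ W)
        · rw [if_pos h, if_pos h, mul_one]
        · rw [if_neg h, if_neg h, mul_zero]

/-- the core inequality. -/
theorem core_bound {V : Type} [Fintype V] [DecidableEq V] {k s t n : ℕ}
    (F : Finset (Finset (Fin s))) (H : Fin (t * n) → Finset (Finset V))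
    (hH : ∀ i, ∀ e ∈ H i, e.card = k) (b : ℕ)
    (p π : ℝ) (hp0 : 0 < p) (hp1 : p ≤ 1) (hπ0 : 0 ≤ π) (hπ1 : π ≤ 1)
    (hπ : π * 2 ^ (b + 2) ≤ p ^ F.card) (Δ : ℕ)
    (hgood : ∀ T : Finset (Fin s ↪ V), E1 Δ T → E2 F.card T → ∀ i ∈ T, ∀ S ⊆ T,
      Good (EA F) b p i S) (ε : ℝ)
    (h1 : bP π (fun T : Finset (Fin s ↪ V) => ¬ E1 Δ T) ≤ ε / 3)
    (h2 : bP π (fun T : Finset (Fin s ↪ V) => ¬ E2 F.card T) ≤ ε / 3)
    (h3 : 1 - ε / 3 ≤ bP π (fun T : Finset (Fin s ↪ V) => UTF F t n H T)) (p' : ℝ) (hpp : p ≤ p')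
    (hp' : p' ≤ 1) :
    1 - ε ≤ probG k p' (fun G => HasTF F t n (fun i => H i ∩ G)) := by
  classical
  obtain ⟨o, ho⟩ : ∃ o : (Fin s ↪ V) → ℕ, Function.Injective o :=
    ⟨fun ψ => (Fintype.equivFin (Fin s ↪ V) ψ : ℕ), fun a b h =>
      (Fintype.equivFin _).injective (Fin.ext h)⟩
  have hc := couple (EA F) b F.card (fun ψ => EA_card_le F ψ) p π hp0 hp1 hπ0 hπ o ho
    (UTF F t n H) (fun S T h hS => UTF_mono F t n H S T h hS)
  have hlow : 1 - ε ≤ bP π (fun T : Finset (Fin s ↪ V) => UTF F t n H T ∧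
      ∀ i ∈ T, Good (EA F) b p i (T.filter (fun j => o j < o i))) := by
    have e1 : bP π (fun T : Finset (Fin s ↪ V) => UTF F t n H T) -
        bP π (fun T : Finset (Fin s ↪ V) => ¬ E1 Δ T ∨ ¬ E2 F.card T) ≤
        bP π (fun T : Finset (Fin s ↪ V) => UTF F t n H T ∧ ¬ (¬ E1 Δ T ∨ ¬ E2 F.card T)) :=
      bP_and_not_ge hπ0 hπ1 _ _
    have e2 := bP_or_le hπ0 hπ1 (fun T : Finset (Fin s ↪ V) => ¬ E1 Δ T)
      (fun T : Finset (Fin s ↪ V) => ¬ E2 F.card T)
    have e3 : bP π (fun T : Finset (Fin s ↪ V) => UTF F t n H T ∧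
        ¬ (¬ E1 Δ T ∨ ¬ E2 F.card T)) ≤ bP π (fun T : Finset (Fin s ↪ V) => UTF F t n H T ∧
      ∀ i ∈ T, Good (EA F) b p i (T.filter (fun j => o j < o i))) := by
      refine bP_mono hπ0 hπ1 ?_
      rintro T ⟨hT, hne⟩
      rw [not_or, not_not, not_not] at hne
      exact ⟨hT, fun i hi => hgood T hne.1 hne.2 i hi _ (filter_subset _ _)⟩
    linarith
  have hup : bP p (fun G => UTF F t n H (univ.filter (fun ψ => EA F ψ ⊆ G))) ≤
      bP p (fun G => HasTF F t n (fun i => H i ∩ G)) :=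
    bP_mono hp0.le hp1 (fun G hG => hasTF_of_UTF F t n H G hG)
  have hmono : bP p (fun G => HasTF F t n (fun i => H i ∩ G)) ≤
      bP p' (fun G => HasTF F t n (fun i => H i ∩ G)) := by
    refine bP_mono_p hp0.le hpp hp' _ ?_
    rintro S T hST ⟨φ, a1, c, a2, a3⟩
    exact ⟨φ, a1, c, a2, fun i e => by
      have := a3 i e
      rw [mem_inter] at this ⊢
      exact ⟨this.1, hST this.2⟩⟩
  rw [← bP_eq_probG F t n H hH p']
  linarith

end Pool.Agent.TFactor
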