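import Mathlib
import Pool.Agent.Work.MP_5010fd_co.Defs

namespace Pool.Agent.TFactor

open Finset Filter Topology

theorem num_c (A : ℝ) (t : ℕ) (ht : 1 ≤ t) (ε : ℝ) (hε : 0 < ε) :
    ∃ n0 : ℕ, ∀ n : ℕ, n0 ≤ n →
      A * (n : ℝ) ^ (1 / (4 * (t : ℝ))) * Real.log n * (n : ℝ) ^ (-(1 / (t : ℝ))) ≤ ε := by
  have ht' : (0 : ℝ) < t := by exact_mod_cast ht
  have h1 : Tendsto (fun x : ℝ => Real.log x / x ^ (3 / (4 * (t : ℝ)))) atTop (𝓝 0) :=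
    (isLittleO_log_rpow_atTop (by positivity)).tendsto_div_nhds_zero
  have h2 : Tendsto (fun n : ℕ => A * (Real.log n / (n : ℝ) ^ (3 / (4 * (t : ℝ))))) atTop
      (𝓝 (A * 0)) := (h1.comp tendsto_natCast_atTop_atTop).const_mul A
  rw [mul_zero] at h2
  have h3 := (h2.eventually (gt_mem_nhds hε)).and (eventually_ge_atTop 1)
  obtain ⟨n0, hn0⟩ := eventually_atTop.1 h3
  refine ⟨n0, fun n hn => ?_⟩
  obtain ⟨h4, h5⟩ := hn0 n hn
  have hn' : (0 : ℝ) < n := by exact_mod_cast h5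
  have e : A * (n : ℝ) ^ (1 / (4 * (t : ℝ))) * Real.log n * (n : ℝ) ^ (-(1 / (t : ℝ))) =
      A * (Real.log n / (n : ℝ) ^ (3 / (4 * (t : ℝ)))) := by
    have e1 : (n : ℝ) ^ (1 / (4 * (t : ℝ))) * (n : ℝ) ^ (-(1 / (t : ℝ))) =
        ((n : ℝ) ^ (3 / (4 * (t : ℝ))))⁻¹ := by
      rw [← Real.rpow_add hn', ← Real.rpow_neg hn'.le]
      congr 1
      field_simp
      ring
    calc A * (n : ℝ) ^ (1 / (4 * (t : ℝ))) * Real.log n * (n : ℝ) ^ (-(1 / (t : ℝ)))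
        = A * (Real.log n * ((n : ℝ) ^ (1 / (4 * (t : ℝ))) * (n : ℝ) ^ (-(1 / (t : ℝ))))) := by
          ring
      _ = _ := by rw [e1]; exact congrArg _ (div_eq_mul_inv _ _).symm
  rw [e]; exact h4.le

theorem num_d (c θ : ℝ) (hθ : 0 < θ) (ε : ℝ) (hε : 0 < ε) :
    ∃ n0 : ℕ, ∀ n : ℕ, n0 ≤ n → (n : ℝ) ^ c * ((2 : ℝ) ^ ((n : ℝ) ^ θ))⁻¹ ≤ ε := by
  have hl2 : 0 < Real.log 2 := Real.log_pos (by norm_num)
  have h1 := tendsto_rpow_mul_exp_neg_mul_atTop_nhds_zero (c / θ) (Real.log 2) hl2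
  have h2 : Tendsto (fun n : ℕ => ((n : ℝ) ^ θ)) atTop atTop :=
    (tendsto_rpow_atTop hθ).comp tendsto_natCast_atTop_atTop
  have h3 := ((h1.comp h2).eventually (gt_mem_nhds hε)).and (eventually_ge_atTop 1)
  obtain ⟨n0, hn0⟩ := eventually_atTop.1 h3
  refine ⟨n0, fun n hn => ?_⟩
  obtain ⟨h4, h5⟩ := hn0 n hn
  have hn' : (0 : ℝ) < n := by exact_mod_cast h5
  have e : (n : ℝ) ^ c * ((2 : ℝ) ^ ((n : ℝ) ^ θ))⁻¹ =
      ((n : ℝ) ^ θ) ^ (c / θ) * Real.exp (-Real.log 2 * (n : ℝ) ^ θ) := by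
    rw [← Real.rpow_mul hn'.le, Real.rpow_def_of_pos (by norm_num : (0 : ℝ) < 2), ← Real.exp_neg]
    congr 2
    · field_simp
    · ring
  rw [e]; exact h4.le

theorem num_e (A : ℝ) (m : ℕ) (ε : ℝ) (hε : 0 < ε) :
    ∃ n0 : ℕ, ∀ n : ℕ, n0 ≤ n → A * (Real.log n) ^ m / (n : ℝ) ≤ ε := by
  have h1 : Tendsto (fun x : ℝ => Real.log x ^ m / x) atTop (𝓝 0) := by
    have := (Real.isLittleO_pow_log_id_atTop (n := m)).tendsto_div_nhds_zero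
    simpa using this
  have h2 : Tendsto (fun n : ℕ => A * (Real.log n ^ m / (n : ℝ))) atTop
      (𝓝 (A * 0)) := (h1.comp tendsto_natCast_atTop_atTop).const_mul A
  rw [mul_zero] at h2
  obtain ⟨n0, hn0⟩ := eventually_atTop.1 (h2.eventually (gt_mem_nhds hε))
  refine ⟨n0, fun n hn => ?_⟩
  have := (hn0 n hn).le
  rw [mul_div_assoc]; exact this

end Pool.Agent.TFactor
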