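import Mathlib
import Pool.Agent.Work.MP_5010fd_co.ConcInj

namespace Pool.Agent.TFactor

open Finset

theorem gb_deg_le {N k d : ℕ} (hdk : d ≤ k) (hN : k ≤ N) (H : Finset (Finset (Fin N)))
    (hk : ∀ e ∈ H, e.card = k) {a : ℝ} (hdeg : DegGE d (a * ((N - d).choose (k - d) : ℝ)) H) :
    a ≤ 1 := by
  have hch : (0 : ℝ) < ((N - d).choose (k - d) : ℝ) := by
    exact_mod_cast Nat.choose_pos (by omega)
  obtain ⟨R, -, hR⟩ := exists_subset_card_eq (s := (univ : Finset (Fin N))) (n := d)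
    (by rw [card_univ, Fintype.card_fin]; omega)
  have h1 := hdeg R hR
  have h2 := (deg_le_link H hk R).trans (card_link_le H R)
  rw [hR] at h2
  have h3 : ((H.filter (fun e => R ⊆ e)).card : ℝ) ≤ ((N - d).choose (k - d) : ℝ) := by
    exact_mod_cast h2
  have h4 := h1.trans h3
  by_contra hc
  push Not at hc
  nlinarith

theorem one_mem_ThrSet {k s t d : ℕ} (hd : 1 ≤ d) (hdk : d < k) (hs : 1 ≤ s) (ht : 1 ≤ t)
    (F : Finset (Finset (Fin s))) : (1 : ℝ) ∈ ThrSet k s t d F := by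
  refine ⟨zero_le_one, fun α hα => ⟨k, fun n hn H hk hdeg => ?_⟩⟩
  exfalso
  have hn1 : 0 < t * n := Nat.mul_pos (by omega) (by omega)
  have hsn : k ≤ s * n := hn.trans (Nat.le_mul_of_pos_left n (by omega))
  have := gb_deg_le hdk.le hsn (H ⟨0, hn1⟩) (hk _) (hdeg _)
  linarith

/-- the numerical inequality -/
theorem gb_num (s t d h : ℕ) (c : ℝ) (hc : 0 < c) (hh : 1 ≤ h) (hs : 1 ≤ s) :
    ∃ g0 : ℕ, ∀ g ≥ g0, ((t * g : ℕ) : ℝ) * (((s * g).choose d : ℕ) : ℝ) *
      Real.exp (-((((s * g - d - 1) / h : ℕ) : ℝ) * c)) * 2 * (16 * (s * (g + 1) : ℝ)) ≤ 1 := by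
  set b : ℝ := c / h with hb
  have hhr : (0 : ℝ) < h := by exact_mod_cast hh
  have hb0 : 0 < b := by positivity
  set K : ℝ := 64 * t * s ^ (d + 1) * Real.exp (b * (d + 1 + h)) with hK
  have ht1 : Filter.Tendsto (fun g : ℕ => b * (g : ℝ)) Filter.atTop Filter.atTop :=
    Filter.Tendsto.const_mul_atTop hb0 tendsto_natCast_atTop_atTop
  have ht2 := (Real.tendsto_pow_mul_exp_neg_atTop_nhds_zero (d + 2)).comp ht1
  have ht3 := ht2.const_mul (K / b ^ (d + 2))
  rw [mul_zero] at ht3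
  have ht4 := (ht3.eventually (gt_mem_nhds one_pos)).and (Filter.eventually_ge_atTop (d + 1 + h))
  obtain ⟨g0, hg0⟩ := Filter.eventually_atTop.1 ht4
  refine ⟨g0, fun g hg => ?_⟩
  obtain ⟨h1, h2⟩ := hg0 g hg
  have hg1 : (1 : ℝ) ≤ g := by exact_mod_cast (by omega : 1 ≤ g)
  have hsr : (1 : ℝ) ≤ s := by exact_mod_cast hs
  have hsg : g ≤ s * g := Nat.le_mul_of_pos_left g (by omega)
  -- choose bound
  have hch : (((s * g).choose d : ℕ) : ℝ) ≤ ((s : ℝ) * g) ^ d := by
    have := Nat.choose_le_pow (s * g) d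
    exact_mod_cast this
  -- exponent bound
  have hdiv : ((g : ℝ) - (d + 1 + h)) / h ≤ (((s * g - d - 1) / h : ℕ) : ℝ) := by
    have e1 : (s * g - d - 1) < ((s * g - d - 1) / h + 1) * h := by
      have := Nat.lt_div_mul_add (a := s * g - d - 1) (b := h) (by omega)
      rw [add_mul, one_mul]
      exact this
    have e2 : ((s * g - d - 1 : ℕ) : ℝ) ≤ ((((s * g - d - 1) / h : ℕ) : ℝ) + 1) * h := by
      exact_mod_cast e1.le
    have e3 : (g : ℝ) - (d + 1) ≤ ((s * g - d - 1 : ℕ) : ℝ) := by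
      have : g ≤ (s * g - d - 1) + (d + 1) := by omega
      have h' : (g : ℝ) ≤ ((s * g - d - 1 : ℕ) : ℝ) + (d + 1) := by exact_mod_cast this
      linarith
    rw [div_le_iff₀ hhr]
    nlinarith
  have hexp : Real.exp (-((((s * g - d - 1) / h : ℕ) : ℝ) * c)) ≤
      Real.exp (b * (d + 1 + h)) * Real.exp (-(b * g)) := by
    rw [← Real.exp_add, Real.exp_le_exp]
    have : ((g : ℝ) - (d + 1 + h)) / h * c = b * (g - (d + 1 + h)) := by
      rw [hb]; ring
    nlinarith [mul_le_mul_of_nonneg_right hdiv hc.le]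
  have hmain : ((t * g : ℕ) : ℝ) * (((s * g).choose d : ℕ) : ℝ) *
      Real.exp (-((((s * g - d - 1) / h : ℕ) : ℝ) * c)) * 2 * (16 * (s * (g + 1) : ℝ)) ≤
      ((t : ℝ) * g) * (((s : ℝ) * g) ^ d) *
      (Real.exp (b * (d + 1 + h)) * Real.exp (-(b * g))) * 2 * (16 * (s * (2 * g) : ℝ)) := by
    push_cast
    gcongr
    linarith
  refine hmain.trans (le_trans (le_of_eq ?_) h1.le)
  simp only [Function.comp]
  rw [hK]
  have hbn : b ^ (d + 2) ≠ 0 := by positivity
  rw [mul_pow b]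
  field_simp
  ring

open Classical in
/-- most groups are good. -/
theorem group_bad {k s t d : ℕ} (hd : 1 ≤ d) (hdk : d < k) (hs : 1 ≤ s) (ht : 1 ≤ t)
    (F : Finset (Finset (Fin s))) (α : ℝ) (hα : 0 < α) :
    ∃ g0 : ℕ, ∀ g ≥ g0, ∃ N0 : ℕ, ∀ N ≥ N0,
      ∀ H : Fin (t * g) → Finset (Finset (Fin N)), (∀ i, ∀ e ∈ H i, e.card = k) →
      (∀ i, DegGE d ((deltaT k s t d F + α) * ((N - d).choose (k - d) : ℝ)) (H i)) →
      ∀ (x : Fin (s * g)) (v : Fin N),
        ((univ.filter (fun φ : Fin (s * g) ↪ Fin N => φ x = v ∧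
          ¬ HasTF F t g (pull φ H))).card : ℝ) ≤
          ((N - 1).descFactorial (s * g - 1) : ℝ) / (16 * (s * (g + 1) : ℝ)) := by
  have hne : (ThrSet k s t d F).Nonempty := ⟨1, one_mem_ThrSet hd hdk hs ht F⟩
  have hbdd : BddBelow (ThrSet k s t d F) := ⟨0, fun δ hδ => hδ.1⟩
  obtain ⟨δ0, hδ0, hlt⟩ := exists_lt_of_csInf_lt hne
    (show sInf (ThrSet k s t d F) < deltaT k s t d F + α / 4 by
      change deltaT k s t d F < _; linarith)
  have hδnn : 0 ≤ deltaT k s t d F := by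
    apply le_csInf hne
    intro δ hδ
    exact hδ.1
  obtain ⟨n1, hn1⟩ := hδ0.2 (α / 4) (by positivity)
  obtain ⟨q0, hq0⟩ := conc_inj k d hd hdk (α / 2) (by positivity)
  obtain ⟨g1, hg1⟩ := gb_num s t d (k - d) ((α / 2) ^ 2 / 18) (by positivity) (by omega) hs
  refine ⟨n1 + q0 + g1 + 1, fun g hg => ?_⟩
  have hsg : g ≤ s * g := Nat.le_mul_of_pos_left g (by omega)
  obtain ⟨N1, hN1⟩ := hq0 (s * g) (by omega)
  refine ⟨N1 + 2 * ((s * g - 1) * (1 + (s * g - 1))) + s * g + 1, fun N hN H hk hdeg => ?_⟩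
  set q := s * g with hq
  set a := deltaT k s t d F + α with ha
  set E : ℝ := Real.exp (-((((q - d - 1) / (k - d) : ℕ) : ℝ) * ((α / 2) ^ 2 / 18))) with hE
  intro x v
  -- the union bound
  have hsub : univ.filter (fun φ : Fin q ↪ Fin N => φ x = v ∧ ¬ HasTF F t g (pull φ H)) ⊆
      (univ : Finset (Fin (t * g))).biUnion fun c => (powersetCard d (univ : Finset (Fin q))).biUnion
        fun S => univ.filter (fun φ : Fin q ↪ Fin N => φ x = v ∧
          ((univ.filter (fun e : Finset (Fin q) => S ⊆ e ∧ e.map φ ∈ H c)).card : ℝ) <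
            (a - α / 2) * ((q - d).choose (k - d) : ℝ)) := by
    intro φ hφ
    obtain ⟨-, hφx, hφ2⟩ := mem_filter.1 hφ
    by_contra hcon
    apply hφ2
    refine hn1 g (by omega) (pull φ H) ?_ ?_
    · intro i e he
      rw [pull, mem_filter] at he
      rw [← card_map φ]
      exact hk i _ he.2
    · intro i S hS
      by_contra hlt2
      push Not at hlt2
      apply hcon
      rw [mem_biUnion]
      refine ⟨i, mem_univ _, ?_⟩
      rw [mem_biUnion]
      refine ⟨S, mem_powersetCard.2 ⟨subset_univ _, hS⟩, ?_⟩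
      rw [mem_filter]
      refine ⟨mem_univ _, hφx, ?_⟩
      have e1 : (univ.filter (fun e : Finset (Fin q) => S ⊆ e ∧ e.map φ ∈ H i)) =
          (pull φ H i).filter (fun e => S ⊆ e) := by
        ext e
        simp [pull, and_comm]
      rw [e1]
      refine hlt2.trans_le ?_
      apply mul_le_mul_of_nonneg_right _ (by positivity)
      rw [ha]; linarith
  have hcard : ((univ.filter (fun φ : Fin q ↪ Fin N => φ x = v ∧
      ¬ HasTF F t g (pull φ H))).card : ℝ) ≤
      ((t * g : ℕ) : ℝ) * ((q.choose d : ℕ) : ℝ) * E * (N : ℝ) ^ (q - 1) := by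
    have h1 : ((univ.filter (fun φ : Fin q ↪ Fin N => φ x = v ∧
        ¬ HasTF F t g (pull φ H))).card : ℝ) ≤
        ∑ c : Fin (t * g), ∑ S ∈ powersetCard d (univ : Finset (Fin q)),
        ((univ.filter (fun φ : Fin q ↪ Fin N => φ x = v ∧
          ((univ.filter (fun e : Finset (Fin q) => S ⊆ e ∧ e.map φ ∈ H c)).card : ℝ) <
            (a - α / 2) * ((q - d).choose (k - d) : ℝ))).card : ℝ) := by
      have h2 := (card_le_card hsub).trans (card_biUnion_le.trans
        (sum_le_sum fun c _ => card_biUnion_le))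
      exact_mod_cast h2
    refine h1.trans ?_
    have h3 : ∀ c : Fin (t * g), ∀ S ∈ powersetCard d (univ : Finset (Fin q)),
        ((univ.filter (fun φ : Fin q ↪ Fin N => φ x = v ∧
          ((univ.filter (fun e : Finset (Fin q) => S ⊆ e ∧ e.map φ ∈ H c)).card : ℝ) <
            (a - α / 2) * ((q - d).choose (k - d) : ℝ))).card : ℝ) ≤ E * (N : ℝ) ^ (q - 1) := by
      intro c S hS
      have := hN1 N (by omega) (H c) (hk c) a (by rw [ha]; linarith) (hdeg c) x v S
        (mem_powersetCard.1 hS).2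
      refine this.trans (le_of_eq ?_)
      rw [hE]
      congr 3
      ring
    refine (sum_le_sum fun c _ => sum_le_sum fun S hS => h3 c S hS).trans (le_of_eq ?_)
    rw [sum_const, sum_const, card_powersetCard, card_univ, card_univ, Fintype.card_fin,
      Fintype.card_fin, nsmul_eq_mul, nsmul_eq_mul]
    push_cast; ring
  have hdf : (N : ℝ) ^ (q - 1) ≤ 2 * ((N - 1).descFactorial (q - 1) : ℝ) := by
    have h1 := ci_desc_ratio (N := N) (d := 1) (h := q - 1) (ε := 1 / 2) (by norm_num) (by omega)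
      (by
        have : 2 * ((q - 1) * (1 + (q - 1))) ≤ N := by omega
        have h2 : (2 : ℝ) * (((q - 1 : ℕ) : ℝ) * (1 + ((q - 1 : ℕ) : ℝ))) ≤ N := by
          exact_mod_cast this
        push_cast
        linarith)
    have e1 : (((N - 1).choose (q - 1) : ℕ) : ℝ) * ((q - 1).factorial : ℝ) =
        ((N - 1).descFactorial (q - 1) : ℝ) := by
      rw [Nat.descFactorial_eq_factorial_mul_choose]
      push_cast; ring
    rw [e1] at h1
    linarith
  have hnum := hg1 g (by omega)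
  rw [← hq, ← hE] at hnum
  have hpos : (0 : ℝ) < 16 * (s * (g + 1) : ℝ) := by
    have : (0 : ℝ) < s := by exact_mod_cast hs
    positivity
  rw [le_div_iff₀ hpos]
  have hD : (0 : ℝ) ≤ ((N - 1).descFactorial (q - 1) : ℝ) := by positivity
  have hA : (0 : ℝ) ≤ ((t * g : ℕ) : ℝ) * ((q.choose d : ℕ) : ℝ) * E := by positivity
  calc ((univ.filter (fun φ : Fin q ↪ Fin N => φ x = v ∧
      ¬ HasTF F t g (pull φ H))).card : ℝ) * (16 * (s * (g + 1) : ℝ))
      ≤ (((t * g : ℕ) : ℝ) * ((q.choose d : ℕ) : ℝ) * E *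
        (2 * ((N - 1).descFactorial (q - 1) : ℝ))) * (16 * (s * (g + 1) : ℝ)) := by
        apply mul_le_mul_of_nonneg_right _ hpos.le
        exact hcard.trans (mul_le_mul_of_nonneg_left hdf hA)
    _ = (((t * g : ℕ) : ℝ) * ((q.choose d : ℕ) : ℝ) * E * 2 * (16 * (s * (g + 1) : ℝ))) *
        ((N - 1).descFactorial (q - 1) : ℝ) := by ring
    _ ≤ 1 * ((N - 1).descFactorial (q - 1) : ℝ) := mul_le_mul_of_nonneg_right hnum hD
    _ = _ := one_mul _

end Pool.Agent.TFactor
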