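import Mathlib
import Pool.Agent.Work.MP_5010fd_co.Defs

namespace Pool.Agent.TFactor

open Finset

open Classical in
theorem neg_dep_step {P Y : Type} [Fintype P] [Fintype Y] (a : P × Y)
    (M1 : Finset (P × Y)) (ha : a ∉ M1) (hPM : IsPM (insert a M1))
    (B : Finset (Finset (P × Y))) (hB : ∀ M ∈ B, ¬ Confl (insert a M1) M) :
    cnt (insert a M1) B * (Fintype.card Y - M1.card) ≤ cnt M1 B := by
  unfold cnt
  set S : Finset (P ≃ Y) := univ.filter (fun σ : P ≃ Y => Ext (insert a M1) σ ∧
    ∀ M' ∈ B, ¬ Ext M' σ) with hS
  set Z : Finset Y := univ \ M1.image Prod.snd with hZ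
  have hZc : Z.card = Fintype.card Y - M1.card := by
    rw [hZ, card_sdiff_of_subset (subset_univ _), card_univ]
    congr 1
    apply card_image_of_injOn
    intro b hb c hc hbc
    have h := hPM b (mem_insert_of_mem hb) c (mem_insert_of_mem hc)
    exact Prod.ext (h.mpr hbc) hbc
  have key : (S ×ˢ Z).card ≤ (univ.filter (fun σ : P ≃ Y => Ext M1 σ ∧
      ∀ M' ∈ B, ¬ Ext M' σ)).card := by
    apply card_le_card_of_injOn (fun q => q.1.trans (Equiv.swap a.2 q.2))
    · rintro ⟨σ, z⟩ hq
      have hq' := mem_coe.mp hq
      rw [mem_product] at hq'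
      obtain ⟨h1, h2⟩ := hq'
      simp only at h1 h2
      rw [hS, mem_filter] at h1
      obtain ⟨-, hext, hav⟩ := h1
      rw [hZ, mem_sdiff, mem_image] at h2
      have hz : ∀ b ∈ M1, b.2 ≠ z := fun b hb h => h2.2 ⟨b, hb, h⟩
      have hσa : σ a.1 = a.2 := hext a (mem_insert_self _ _)
      simp only [coe_filter, mem_univ, true_and, Set.mem_ofPred_eq]
      constructor
      · intro b hb
        have hb' : σ b.1 = b.2 := hext b (mem_insert_of_mem hb)
        have hne : b.2 ≠ a.2 := by
          intro h
          have h3 := (hPM b (mem_insert_of_mem hb) a (mem_insert_self _ _)).mpr h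
          exact ha (by rw [← Prod.ext h3 h]; exact hb)
        rw [Equiv.trans_apply, hb', Equiv.swap_apply_of_ne_of_ne hne (hz b hb)]
      · intro M hM hE
        by_cases hza : z = a.2
        · subst hza
          apply hav M hM
          intro b hb
          have := hE b hb
          simpa using this
        · apply hav M hM
          have hnc := hB M hM
          intro b hb
          have hEb := hE b hb
          rw [Equiv.trans_apply] at hEb
          have hiff : a.1 = b.1 ↔ a.2 = b.2 := by
            by_contra h
            exact hnc ⟨a, mem_insert_self _ _, b, hb, h⟩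
          by_cases hx : a.1 = b.1
          · exfalso
            rw [← hx, hσa, Equiv.swap_apply_left] at hEb
            exact hza (hEb.trans (hiff.mp hx).symm)
          · have hy : a.2 ≠ b.2 := fun h => hx (hiff.mpr h)
            have hy2 : b.2 ≠ z := by
              intro h
              rw [h] at hEb
              have : σ b.1 = a.2 := by
                have h5 := congrArg (Equiv.swap a.2 z) hEb
                rw [Equiv.swap_apply_self, Equiv.swap_apply_right] at h5
                exact h5
              exact hx (σ.injective (hσa.trans this.symm))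
            have h5 := congrArg (Equiv.swap a.2 z) hEb
            rw [Equiv.swap_apply_self, Equiv.swap_apply_of_ne_of_ne hy.symm hy2] at h5
            exact h5
    · rintro ⟨σ, z⟩ hq ⟨σ', z'⟩ hq' h
      have hq1 := mem_coe.mp hq
      have hq1' := mem_coe.mp hq'
      rw [mem_product] at hq1 hq1'
      have e1 := (mem_filter.mp hq1.1).2.1 a (mem_insert_self _ _)
      have e2 := (mem_filter.mp hq1'.1).2.1 a (mem_insert_self _ _)
      simp only at h e1 e2
      have hzz : z = z' := by
        have h3 := Equiv.congr_fun h a.1
        rw [Equiv.trans_apply, Equiv.trans_apply, e1, e2, Equiv.swap_apply_left,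
          Equiv.swap_apply_left] at h3
        exact h3
      subst hzz
      have hσ : σ = σ' := by
        ext x
        have h3 := Equiv.congr_fun h x
        rw [Equiv.trans_apply, Equiv.trans_apply] at h3
        exact (Equiv.swap a.2 z).injective h3
      rw [hσ]
  rw [card_product, hZc] at key
  exact key

/-- negative dependence for uniform random bijections. -/
theorem neg_dep {P Y : Type} [Fintype P] [Fintype Y] (M0 : Finset (P × Y)) (hM0 : IsPM M0)
    (B : Finset (Finset (P × Y))) (hB : ∀ M ∈ B, ¬ Confl M0 M) :
    cnt M0 B * (Fintype.card Y).descFactorial M0.card ≤ cnt (∅ : Finset (P × Y)) B := by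
  classical
  induction M0 using Finset.induction_on with
  | empty => simp
  | insert a M1 ha ih =>
    have hPM1 : IsPM M1 := fun b hb c hc =>
      hM0 b (mem_insert_of_mem hb) c (mem_insert_of_mem hc)
    have hB1 : ∀ M ∈ B, ¬ Confl M1 M := by
      rintro M hM ⟨b, hb, c, hc, h⟩
      exact hB M hM ⟨b, mem_insert_of_mem hb, c, hc, h⟩
    have h1 := ih hPM1 hB1
    have h2 := neg_dep_step a M1 ha hM0 B hB
    rw [card_insert_of_notMem ha, Nat.descFactorial_succ]
    calc cnt (insert a M1) B * ((Fintype.card Y - M1.card) *
          (Fintype.card Y).descFactorial M1.card)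
        = (cnt (insert a M1) B * (Fintype.card Y - M1.card)) *
          (Fintype.card Y).descFactorial M1.card := by ring
      _ ≤ cnt M1 B * (Fintype.card Y).descFactorial M1.card :=
          Nat.mul_le_mul_right _ h2
      _ ≤ _ := h1

end Pool.Agent.TFactor
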