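import Mathlib
import Pool.Agent.Work.MP_5010fd_co.LLLneg

namespace Pool.Agent.TFactor

open Finset

section Aux

variable {P Y : Type} [Fintype P] [Fintype Y]

open Classical in
theorem lll_cnt_mono_right (M0 : Finset (P × Y)) {B B' : Finset (Finset (P × Y))} (h : B ⊆ B') :
    cnt M0 B' ≤ cnt M0 B := by
  unfold cnt
  apply card_le_card
  intro σ hσ
  rw [mem_filter] at hσ ⊢
  exact ⟨hσ.1, hσ.2.1, fun M hM => hσ.2.2 M (h hM)⟩

open Classical in
theorem lll_cnt_insert (b : Finset (P × Y)) (S : Finset (Finset (P × Y))) :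
    cnt (∅ : Finset (P × Y)) (insert b S) + cnt b S = cnt (∅ : Finset (P × Y)) S := by
  unfold cnt
  rw [← card_union_of_disjoint]
  · apply congrArg
    ext σ
    simp only [mem_union, mem_filter, mem_univ, true_and, mem_insert, forall_eq_or_imp]
    have h0 : Ext (∅ : Finset (P × Y)) σ := fun a ha => absurd ha (notMem_empty a)
    constructor
    · rintro (h | h)
      · exact ⟨h0, h.2.2⟩
      · exact ⟨h0, h.2⟩
    · rintro ⟨-, h⟩
      by_cases hb : Ext b σ
      · exact Or.inr ⟨hb, h⟩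
      · exact Or.inl ⟨h0, hb, h⟩
  · rw [disjoint_left]
    intro σ h1 h2
    rw [mem_filter] at h1 h2
    exact h1.2.2 b (mem_insert_self _ _) h2.2.1

omit [Fintype Y] in
theorem lll_ispm_card (M : Finset (P × Y)) (h : IsPM M) : M.card ≤ Fintype.card P := by
  classical
  rw [← card_univ]
  apply card_le_card_of_injOn (fun a => a.1) (fun a _ => by simp)
  intro a ha b hb hab
  exact Prod.ext hab ((h a ha b hb).mp hab)

theorem lll_cnt_le_w (N : ℕ) (hP : Fintype.card P = N) (hY : Fintype.card Y = N)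
    (M0 : Finset (P × Y)) (hM0 : IsPM M0) (B : Finset (Finset (P × Y)))
    (hB : ∀ M ∈ B, ¬ Confl M0 M) :
    (cnt M0 B : ℝ) ≤ 1 / (N.descFactorial M0.card : ℝ) * (cnt (∅ : Finset (P × Y)) B : ℝ) := by
  have h := neg_dep M0 hM0 B hB
  rw [hY] at h
  have hc : M0.card ≤ N := hP ▸ lll_ispm_card M0 hM0
  have hpos : 0 < N.descFactorial M0.card := Nat.descFactorial_pos.mpr hc
  have hposR : (0 : ℝ) < (N.descFactorial M0.card : ℝ) := by exact_mod_cast hpos
  have hR : (cnt M0 B : ℝ) * (N.descFactorial M0.card : ℝ) ≤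
      (cnt (∅ : Finset (P × Y)) B : ℝ) := by exact_mod_cast h
  rw [one_div, inv_mul_eq_div, le_div_iff₀ hposR]
  exact hR

open Classical in
theorem lll_chain (N : ℕ) (B : Finset (Finset (P × Y))) (n : ℕ)
    (h1 : ∀ M ∈ B, 1 / (N.descFactorial M.card : ℝ) ≤ 1 / 4)
    (H : ∀ S ⊆ B, S.card < n → ∀ b ∈ B, (cnt b S : ℝ) ≤
      2 * (1 / (N.descFactorial b.card : ℝ)) * (cnt (∅ : Finset (P × Y)) S : ℝ))
    (S2 : Finset (Finset (P × Y))) (hS2 : S2 ⊆ B) (T : Finset (Finset (P × Y))) :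
    T ⊆ B → Disjoint S2 T → (S2 ∪ T).card ≤ n →
      (cnt (∅ : Finset (P × Y)) S2 : ℝ) *
        ∏ M ∈ T, (1 - 2 * (1 / (N.descFactorial M.card : ℝ))) ≤
      (cnt (∅ : Finset (P × Y)) (S2 ∪ T) : ℝ) := by
  induction T using Finset.induction_on with
  | empty => intro _ _ _; simp
  | insert M T hMT ih =>
    intro hT hd hc
    have hTB : T ⊆ B := fun x hx => hT (mem_insert_of_mem hx)
    have hMB : M ∈ B := hT (mem_insert_self _ _)
    have hd' : Disjoint S2 T := disjoint_of_subset_right (subset_insert _ _) hd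
    have hM2 : M ∉ S2 := fun h => (disjoint_left.mp hd) h (mem_insert_self _ _)
    have hMn : M ∉ S2 ∪ T := by
      rw [mem_union]; exact fun h => h.elim hM2 hMT
    have hun : S2 ∪ insert M T = insert M (S2 ∪ T) := union_insert _ _ _
    have hlt : (S2 ∪ T).card < n := by
      rw [hun, card_insert_of_notMem hMn] at hc
      omega
    have e1 := ih hTB hd' hlt.le
    have e2 := H (S2 ∪ T) (union_subset hS2 hTB) hlt M hMB
    have e3 : (cnt (∅ : Finset (P × Y)) (insert M (S2 ∪ T)) : ℝ) + (cnt M (S2 ∪ T) : ℝ) =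
        (cnt (∅ : Finset (P × Y)) (S2 ∪ T) : ℝ) := by
      exact_mod_cast lll_cnt_insert M (S2 ∪ T)
    have hw := h1 M hMB
    rw [prod_insert hMT, hun]
    have hnn : (0 : ℝ) ≤ 1 - 2 * (1 / (N.descFactorial M.card : ℝ)) := by linarith
    calc (cnt (∅ : Finset (P × Y)) S2 : ℝ) * ((1 - 2 * (1 / (N.descFactorial M.card : ℝ))) *
          ∏ M ∈ T, (1 - 2 * (1 / (N.descFactorial M.card : ℝ))))
        = (1 - 2 * (1 / (N.descFactorial M.card : ℝ))) *
          ((cnt (∅ : Finset (P × Y)) S2 : ℝ) *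
          ∏ M ∈ T, (1 - 2 * (1 / (N.descFactorial M.card : ℝ)))) := by ring
      _ ≤ (1 - 2 * (1 / (N.descFactorial M.card : ℝ))) *
          (cnt (∅ : Finset (P × Y)) (S2 ∪ T) : ℝ) := mul_le_mul_of_nonneg_left e1 hnn
      _ ≤ (cnt (∅ : Finset (P × Y)) (insert M (S2 ∪ T)) : ℝ) := by linarith

theorem lll_one_sub_sum_le {ι : Type*} (T : Finset ι) (x : ι → ℝ) (h0 : ∀ i ∈ T, 0 ≤ x i)
    (h1 : ∀ i ∈ T, x i ≤ 1) : 1 - ∑ i ∈ T, x i ≤ ∏ i ∈ T, (1 - x i) := by
  classical
  induction T using Finset.induction_on with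
  | empty => simp
  | insert a T ha ih =>
    rw [sum_insert ha, prod_insert ha]
    have h2 := ih (fun i hi => h0 i (mem_insert_of_mem hi))
      (fun i hi => h1 i (mem_insert_of_mem hi))
    have ha0 := h0 a (mem_insert_self _ _)
    have ha1 := h1 a (mem_insert_self _ _)
    have hs : 0 ≤ ∑ i ∈ T, x i := sum_nonneg fun i hi => h0 i (mem_insert_of_mem hi)
    have : (1 - x a) * (1 - ∑ i ∈ T, x i) ≤ (1 - x a) * ∏ i ∈ T, (1 - x i) :=
      mul_le_mul_of_nonneg_left h2 (by linarith)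
    nlinarith

open Classical in
theorem lll_cnt_main (N : ℕ) (hP : Fintype.card P = N) (hY : Fintype.card Y = N)
    (B : Finset (Finset (P × Y))) (hPM : ∀ M ∈ B, IsPM M)
    (h1 : ∀ M ∈ B, 1 / (N.descFactorial M.card : ℝ) ≤ 1 / 4)
    (h2 : ∀ M ∈ B, ∑ M' ∈ B.filter (fun M' => Confl M M'),
      1 / (N.descFactorial M'.card : ℝ) ≤ 1 / 4) (n : ℕ) :
    ∀ S ⊆ B, S.card < n → ∀ b ∈ B, (cnt b S : ℝ) ≤
      2 * (1 / (N.descFactorial b.card : ℝ)) * (cnt (∅ : Finset (P × Y)) S : ℝ) := by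
  induction n with
  | zero => intro S _ h; omega
  | succ n ih =>
    intro S hS hc b hb
    set S1 := S.filter (fun M => Confl b M) with hS1
    set S2 := S.filter (fun M => ¬ Confl b M) with hS2
    have hun : S2 ∪ S1 = S := by
      rw [hS1, hS2, union_comm]; exact filter_union_filter_not_eq _ _
    have hdis : Disjoint S2 S1 := by
      rw [hS1, hS2]; exact (disjoint_filter_filter_not _ _ _).symm
    have e1 : (cnt b S : ℝ) ≤ (cnt b S2 : ℝ) := by
      exact_mod_cast lll_cnt_mono_right b (filter_subset _ _)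
    have e2 := lll_cnt_le_w N hP hY b (hPM b hb) S2 (fun M hM => (mem_filter.mp hM).2)
    have e3 := lll_chain N B n h1 ih S2 ((filter_subset _ _).trans hS) S1
      ((filter_subset _ _).trans hS) hdis (by rw [hun]; omega)
    rw [hun] at e3
    have hw0 : ∀ M : Finset (P × Y), (0 : ℝ) ≤ 1 / (N.descFactorial M.card : ℝ) := by
      intro M; positivity
    have e4 : (1 : ℝ) / 2 ≤ ∏ M ∈ S1, (1 - 2 * (1 / (N.descFactorial M.card : ℝ))) := by
      refine le_trans ?_ (lll_one_sub_sum_le S1 (fun M => 2 * (1 / (N.descFactorial M.card : ℝ)))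
        (fun M _ => by have := hw0 M; positivity) (fun M hM => by
          have := h1 M (hS (filter_subset _ _ hM)); linarith))
      have : ∑ M ∈ S1, 2 * (1 / (N.descFactorial M.card : ℝ)) ≤ 2 * (1 / 4) := by
        rw [← mul_sum]
        apply mul_le_mul_of_nonneg_left _ (by norm_num)
        refine le_trans ?_ (h2 b hb)
        apply sum_le_sum_of_subset_of_nonneg
        · intro M hM
          rw [hS1, mem_filter] at hM
          exact mem_filter.mpr ⟨hS hM.1, hM.2⟩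
        · intro M _ _; exact hw0 M
      linarith
    have hc2 : (0 : ℝ) ≤ (cnt (∅ : Finset (P × Y)) S2 : ℝ) := by positivity
    have e5 : (cnt (∅ : Finset (P × Y)) S2 : ℝ) ≤ 2 * (cnt (∅ : Finset (P × Y)) S : ℝ) := by
      have := mul_le_mul_of_nonneg_left e4 hc2
      linarith
    have hb0 := hw0 b
    calc (cnt b S : ℝ) ≤ 1 / (N.descFactorial b.card : ℝ) *
          (cnt (∅ : Finset (P × Y)) S2 : ℝ) := e1.trans e2
      _ ≤ 1 / (N.descFactorial b.card : ℝ) * (2 * (cnt (∅ : Finset (P × Y)) S : ℝ)) :=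
          mul_le_mul_of_nonneg_left e5 hb0
      _ = _ := by ring

theorem lll_exp_neg_le {x : ℝ} (h0 : 0 ≤ x) (h1 : x ≤ 1 / 4) :
    Real.exp (-(4 * x)) ≤ 1 - 2 * x := by
  have hh : 0 < 1 - 2 * x := by linarith
  have h2 : 1 / (1 - 2 * x) ≤ Real.exp (4 * x) := by
    refine le_trans ?_ (Real.add_one_le_exp _)
    rw [div_le_iff₀ hh]
    nlinarith
  rw [Real.exp_neg]
  rw [one_div] at h2
  exact inv_le_of_inv_le₀ hh h2

end Aux

open Classical in
/-- Lovász local lemma for uniform random bijections, with control of conditional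
probabilities. -/
theorem lll {P Y : Type} [Fintype P] [Fintype Y] (N : ℕ) (hP : Fintype.card P = N)
    (hY : Fintype.card Y = N) (B : Finset (Finset (P × Y))) (hPM : ∀ M ∈ B, IsPM M)
    (h1 : ∀ M ∈ B, 1 / (N.descFactorial M.card : ℝ) ≤ 1 / 4)
    (h2 : ∀ M ∈ B, ∑ M' ∈ B.filter (fun M' => Confl M M'),
      1 / (N.descFactorial M'.card : ℝ) ≤ 1 / 4) :
    0 < cnt (∅ : Finset (P × Y)) B ∧
      ∀ M0 : Finset (P × Y), IsPM M0 →
        (cnt M0 B : ℝ) ≤ (cnt (∅ : Finset (P × Y)) B : ℝ) *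
          (1 / (N.descFactorial M0.card : ℝ)) *
          Real.exp (4 * ∑ M' ∈ B.filter (fun M' => Confl M0 M'),
            1 / (N.descFactorial M'.card : ℝ)) := by
  have H := lll_cnt_main N hP hY B hPM h1 h2 (B.card + 1)
  have H' : ∀ S ⊆ B, S.card < B.card + 1 → ∀ b ∈ B, (cnt b S : ℝ) ≤
      2 * (1 / (N.descFactorial b.card : ℝ)) * (cnt (∅ : Finset (P × Y)) S : ℝ) := H
  have hw0 : ∀ M : Finset (P × Y), (0 : ℝ) ≤ 1 / (N.descFactorial M.card : ℝ) := by
    intro M; positivity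
  have hzero : (0 : ℝ) < (cnt (∅ : Finset (P × Y)) (∅ : Finset (Finset (P × Y))) : ℝ) := by
    have : 0 < cnt (∅ : Finset (P × Y)) (∅ : Finset (Finset (P × Y))) := by
      unfold cnt
      rw [card_pos]
      refine ⟨Fintype.equivOfCardEq (hP.trans hY.symm), ?_⟩
      rw [mem_filter]
      exact ⟨mem_univ _, fun a ha => absurd ha (notMem_empty a),
        fun a ha => absurd ha (notMem_empty a)⟩
    exact_mod_cast this
  constructor
  · have e := lll_chain N B (B.card + 1) h1 H' ∅ (empty_subset _) B (Subset.refl _)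
      (disjoint_empty_left _) (by rw [empty_union]; omega)
    rw [empty_union] at e
    have hp : (0 : ℝ) < ∏ M ∈ B, (1 - 2 * (1 / (N.descFactorial M.card : ℝ))) := by
      apply prod_pos
      intro M hM
      have := h1 M hM
      linarith
    have : (0 : ℝ) < (cnt (∅ : Finset (P × Y)) B : ℝ) := lt_of_lt_of_le (mul_pos hzero hp) e
    exact_mod_cast this
  · intro M0 hM0
    set B1 := B.filter (fun M => Confl M0 M) with hB1
    set B2 := B.filter (fun M => ¬ Confl M0 M) with hB2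
    have hun : B2 ∪ B1 = B := by
      rw [hB1, hB2, union_comm]; exact filter_union_filter_not_eq _ _
    have hdis : Disjoint B2 B1 := by
      rw [hB1, hB2]; exact (disjoint_filter_filter_not _ _ _).symm
    have e1 : (cnt M0 B : ℝ) ≤ (cnt M0 B2 : ℝ) := by
      exact_mod_cast lll_cnt_mono_right M0 (filter_subset _ _)
    have e2 := lll_cnt_le_w N hP hY M0 hM0 B2 (fun M hM => (mem_filter.mp hM).2)
    have e3 := lll_chain N B (B.card + 1) h1 H' B2 (filter_subset _ _) B1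
      (filter_subset _ _) hdis (by rw [hun]; omega)
    rw [hun] at e3
    have e4 : Real.exp (-(4 * ∑ M ∈ B1, 1 / (N.descFactorial M.card : ℝ))) ≤
        ∏ M ∈ B1, (1 - 2 * (1 / (N.descFactorial M.card : ℝ))) := by
      have : -(4 * ∑ M ∈ B1, 1 / (N.descFactorial M.card : ℝ)) =
          ∑ M ∈ B1, -(4 * (1 / (N.descFactorial M.card : ℝ))) := by
        rw [mul_sum, sum_neg_distrib]
      rw [this, Real.exp_sum]
      apply prod_le_prod
      · intro M _; positivity
      · intro M hM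
        exact lll_exp_neg_le (hw0 M) (h1 M (filter_subset _ _ hM))
    have hc2 : (0 : ℝ) ≤ (cnt (∅ : Finset (P × Y)) B2 : ℝ) := by positivity
    have e5 : (cnt (∅ : Finset (P × Y)) B2 : ℝ) ≤ (cnt (∅ : Finset (P × Y)) B : ℝ) *
        Real.exp (4 * ∑ M ∈ B1, 1 / (N.descFactorial M.card : ℝ)) := by
      have h6 := (mul_le_mul_of_nonneg_left e4 hc2).trans e3
      have h7 := mul_le_mul_of_nonneg_right h6
        (Real.exp_pos (4 * ∑ M ∈ B1, 1 / (N.descFactorial M.card : ℝ))).le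
      rw [mul_assoc, ← Real.exp_add, neg_add_cancel, Real.exp_zero, mul_one] at h7
      exact h7
    calc (cnt M0 B : ℝ) ≤ 1 / (N.descFactorial M0.card : ℝ) *
          (cnt (∅ : Finset (P × Y)) B2 : ℝ) := e1.trans e2
      _ ≤ 1 / (N.descFactorial M0.card : ℝ) * ((cnt (∅ : Finset (P × Y)) B : ℝ) *
        Real.exp (4 * ∑ M ∈ B1, 1 / (N.descFactorial M.card : ℝ))) :=
          mul_le_mul_of_nonneg_left e5 (hw0 M0)
      _ = _ := by ring

theorem lll_sum_biUnion_le' {ι κ : Type*} [DecidableEq ι] [DecidableEq κ] (s : Finset ι)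
    (t : ι → Finset κ) (f : κ → ℝ) (hf : ∀ x, 0 ≤ f x) :
    ∑ x ∈ s.biUnion t, f x ≤ ∑ a ∈ s, ∑ x ∈ t a, f x := by
  induction s using Finset.induction_on with
  | empty => simp
  | insert a s ha ih =>
    rw [biUnion_insert, sum_insert ha]
    have h := sum_union_inter (s₁ := t a) (s₂ := s.biUnion t) (f := f)
    have h0 : 0 ≤ ∑ x ∈ t a ∩ s.biUnion t, f x := sum_nonneg fun x _ => hf x
    linarith

open Classical in
theorem lll_confl_sum {P Y : Type} [Fintype P] [Fintype Y] (N : ℕ)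
    (B : Finset (Finset (P × Y))) (Q : ℕ)
    (hslot : ∀ y : P, ∑ M ∈ B.filter (fun M => ∃ a ∈ M, a.1 = y),
      1 / (N.descFactorial M.card : ℝ) ≤ 1 / (16 * (Q : ℝ)))
    (hvert : ∀ v : Y, ∑ M ∈ B.filter (fun M => ∃ a ∈ M, a.2 = v),
      1 / (N.descFactorial M.card : ℝ) ≤ 1 / (16 * (Q : ℝ))) (M0 : Finset (P × Y)) :
    ∑ M' ∈ B.filter (fun M' => Confl M0 M'), 1 / (N.descFactorial M'.card : ℝ) ≤
      (M0.card : ℝ) * (2 * (1 / (16 * (Q : ℝ)))) := by
  have hw0 : ∀ M : Finset (P × Y), (0 : ℝ) ≤ 1 / (N.descFactorial M.card : ℝ) := by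
    intro M; positivity
  have hsub : B.filter (fun M' => Confl M0 M') ⊆
      M0.biUnion (fun a => B.filter (fun M => ∃ b ∈ M, b.1 = a.1) ∪
        B.filter (fun M => ∃ b ∈ M, b.2 = a.2)) := by
    intro M hM
    rw [mem_filter] at hM
    obtain ⟨hMB, a, ha, b, hb, hab⟩ := hM
    rw [mem_biUnion]
    refine ⟨a, ha, ?_⟩
    rw [mem_union, mem_filter, mem_filter]
    by_cases hx : a.1 = b.1
    · exact Or.inl ⟨hMB, b, hb, hx.symm⟩
    · by_cases hy : a.2 = b.2
      · exact Or.inr ⟨hMB, b, hb, hy.symm⟩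
      · exact absurd (iff_of_false hx hy) hab
  calc ∑ M' ∈ B.filter (fun M' => Confl M0 M'), 1 / (N.descFactorial M'.card : ℝ)
      ≤ ∑ M' ∈ M0.biUnion (fun a => B.filter (fun M => ∃ b ∈ M, b.1 = a.1) ∪
        B.filter (fun M => ∃ b ∈ M, b.2 = a.2)), 1 / (N.descFactorial M'.card : ℝ) :=
        sum_le_sum_of_subset_of_nonneg hsub (fun M _ _ => hw0 M)
    _ ≤ ∑ a ∈ M0, ∑ M' ∈ (B.filter (fun M => ∃ b ∈ M, b.1 = a.1) ∪
        B.filter (fun M => ∃ b ∈ M, b.2 = a.2)), 1 / (N.descFactorial M'.card : ℝ) := by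
        exact lll_sum_biUnion_le' M0 (fun a =>
          B.filter (fun M => ∃ b ∈ M, b.1 = a.1) ∪ B.filter (fun M => ∃ b ∈ M, b.2 = a.2))
          (fun M' => 1 / (N.descFactorial M'.card : ℝ)) (fun M => hw0 M)
    _ ≤ ∑ a ∈ M0, (2 * (1 / (16 * (Q : ℝ)))) := by
        apply sum_le_sum
        intro a _
        have h3 : ∑ M' ∈ (B.filter (fun M => ∃ b ∈ M, b.1 = a.1) ∪
            B.filter (fun M => ∃ b ∈ M, b.2 = a.2)), 1 / (N.descFactorial M'.card : ℝ) ≤
            ∑ M' ∈ B.filter (fun M => ∃ b ∈ M, b.1 = a.1),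
              1 / (N.descFactorial M'.card : ℝ) +
            ∑ M' ∈ B.filter (fun M => ∃ b ∈ M, b.2 = a.2),
              1 / (N.descFactorial M'.card : ℝ) := by
          rw [← sum_union_inter]
          have : (0 : ℝ) ≤ ∑ M' ∈ (B.filter (fun M => ∃ b ∈ M, b.1 = a.1) ∩
            B.filter (fun M => ∃ b ∈ M, b.2 = a.2)), 1 / (N.descFactorial M'.card : ℝ) :=
            sum_nonneg fun M _ => hw0 M
          linarith
        have := hslot a.1
        have := hvert a.2
        linarith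
    _ = _ := by rw [sum_const, nsmul_eq_mul]

open Classical in
/-- uniform version. -/
theorem lll_uniform {P Y : Type} [Fintype P] [Fintype Y] (N : ℕ) (hP : Fintype.card P = N)
    (hY : Fintype.card Y = N) (B : Finset (Finset (P × Y))) (hPM : ∀ M ∈ B, IsPM M)
    (hne : ∀ M ∈ B, M.Nonempty) (Q : ℕ) (hQ1 : 1 ≤ Q) (hQ : ∀ M ∈ B, M.card ≤ Q)
    (hslot : ∀ y : P, ∑ M ∈ B.filter (fun M => ∃ a ∈ M, a.1 = y),
      1 / (N.descFactorial M.card : ℝ) ≤ 1 / (16 * (Q : ℝ)))
    (hvert : ∀ v : Y, ∑ M ∈ B.filter (fun M => ∃ a ∈ M, a.2 = v),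
      1 / (N.descFactorial M.card : ℝ) ≤ 1 / (16 * (Q : ℝ))) :
    0 < cnt (∅ : Finset (P × Y)) B ∧
      ∀ M0 : Finset (P × Y), IsPM M0 →
        (cnt M0 B : ℝ) ≤ (cnt (∅ : Finset (P × Y)) B : ℝ) *
          (1 / (N.descFactorial M0.card : ℝ)) * Real.exp (M0.card : ℝ) := by
  have hw0 : ∀ M : Finset (P × Y), (0 : ℝ) ≤ 1 / (N.descFactorial M.card : ℝ) := by
    intro M; positivity
  have hQR : (1 : ℝ) ≤ (Q : ℝ) := by exact_mod_cast hQ1
  have hcs := lll_confl_sum N B Q hslot hvert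
  have hq16 : (1 : ℝ) / (16 * (Q : ℝ)) ≤ 1 / 4 := by
    rw [div_le_div_iff₀ (by positivity) (by norm_num)]
    linarith
  have h1 : ∀ M ∈ B, 1 / (N.descFactorial M.card : ℝ) ≤ 1 / 4 := by
    intro M hM
    obtain ⟨a, ha⟩ := hne M hM
    refine le_trans ?_ ((hslot a.1).trans hq16)
    exact single_le_sum (f := fun M : Finset (P × Y) => 1 / (N.descFactorial M.card : ℝ))
      (fun M _ => hw0 M) (mem_filter.mpr ⟨hM, a, ha, rfl⟩)
  have h2 : ∀ M ∈ B, ∑ M' ∈ B.filter (fun M' => Confl M M'),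
      1 / (N.descFactorial M'.card : ℝ) ≤ 1 / 4 := by
    intro M hM
    refine (hcs M).trans ?_
    have hMQ : (M.card : ℝ) ≤ (Q : ℝ) := by exact_mod_cast hQ M hM
    have : (M.card : ℝ) * (2 * (1 / (16 * (Q : ℝ)))) ≤ (Q : ℝ) * (2 * (1 / (16 * (Q : ℝ)))) :=
      mul_le_mul_of_nonneg_right hMQ (by positivity)
    refine this.trans ?_
    have hQ0 : (Q : ℝ) ≠ 0 := by positivity
    have : (Q : ℝ) * (2 * (1 / (16 * (Q : ℝ)))) = 1 / 8 := by
      field_simp
      norm_num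
    rw [this]; norm_num
  obtain ⟨hpos, hall⟩ := lll N hP hY B hPM h1 h2
  refine ⟨hpos, fun M0 hM0 => (hall M0 hM0).trans ?_⟩
  apply mul_le_mul_of_nonneg_left _ (mul_nonneg (by positivity) (hw0 M0))
  apply Real.exp_le_exp.mpr
  have h3 := hcs M0
  have h4 : (M0.card : ℝ) * (2 * (1 / (16 * (Q : ℝ)))) ≤ (M0.card : ℝ) * (1 / 8) := by
    apply mul_le_mul_of_nonneg_left _ (by positivity)
    have : (1 : ℝ) / (16 * (Q : ℝ)) ≤ 1 / 16 := by
      rw [div_le_div_iff₀ (by positivity) (by norm_num)]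
      linarith
    linarith
  have h5 : (0 : ℝ) ≤ (M0.card : ℝ) := by positivity
  linarith

end Pool.Agent.TFactor
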