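import Mathlib
import Pool.Agent.Work.MP_5010fd_co.Defs

namespace Pool.Agent.TFactor

open Finset

theorem descFactorial_ge (N m : ℕ) (h : m ≤ N) :
    ((N : ℝ) / Real.exp 1) ^ m ≤ (N.descFactorial m : ℝ) := by
  rcases Nat.eq_zero_or_pos m with rfl | hm
  · simp
  have h1 : N ^ m * m.factorial ≤ N.descFactorial m * m ^ m := by
    rw [← Nat.descFactorial_self m, Nat.descFactorial_eq_prod_range,
      Nat.descFactorial_eq_prod_range]
    have e1 : N ^ m = ∏ _i ∈ range m, N := by simp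
    have e2 : m ^ m = ∏ _i ∈ range m, m := by simp
    rw [e1, e2, ← Finset.prod_mul_distrib, ← Finset.prod_mul_distrib]
    refine Finset.prod_le_prod' fun i hi => ?_
    have hi' := mem_range.1 hi
    obtain ⟨a, rfl⟩ : ∃ a, m = i + a := ⟨m - i, by omega⟩
    obtain ⟨b, rfl⟩ : ∃ b, N = i + a + b := ⟨N - (i + a), by omega⟩
    have e3 : i + a - i = a := by omega
    have e4 : i + a + b - i = a + b := by omega
    rw [e3, e4]
    nlinarith [Nat.zero_le (i * b)]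
  have h2 : (N : ℝ) ^ m * (m.factorial : ℝ) ≤ (N.descFactorial m : ℝ) * (m : ℝ) ^ m := by
    exact_mod_cast h1
  have h3 : (m : ℝ) ^ m / (m.factorial : ℝ) ≤ Real.exp (m : ℝ) :=
    Real.pow_div_factorial_le_exp (m : ℝ) (Nat.cast_nonneg m) m
  have hf : (0 : ℝ) < (m.factorial : ℝ) := by exact_mod_cast Nat.factorial_pos m
  have hmm : (0 : ℝ) < (m : ℝ) ^ m := by positivity
  have h4 : (m : ℝ) ^ m ≤ Real.exp (m : ℝ) * (m.factorial : ℝ) := (div_le_iff₀ hf).1 h3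
  have h5 : Real.exp 1 ^ m = Real.exp (m : ℝ) := by
    rw [← Real.exp_nat_mul, mul_one]
  rw [div_pow, h5, div_le_iff₀ (Real.exp_pos _)]
  have h6 : (0 : ℝ) ≤ (N.descFactorial m : ℝ) := Nat.cast_nonneg _
  have h7 : (N : ℝ) ^ m * (m.factorial : ℝ) ≤
      ((N.descFactorial m : ℝ) * Real.exp (m : ℝ)) * (m.factorial : ℝ) := by
    calc (N : ℝ) ^ m * (m.factorial : ℝ) ≤ (N.descFactorial m : ℝ) * (m : ℝ) ^ m := h2
      _ ≤ (N.descFactorial m : ℝ) * (Real.exp (m : ℝ) * (m.factorial : ℝ)) :=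
        mul_le_mul_of_nonneg_left h4 h6
      _ = _ := by ring
  exact le_of_mul_le_mul_right h7 hf

/-- the matching of a placement `τ` of the members of `T` -/
private def Mt {P Y : Type} {s : ℕ} [DecidableEq P] [DecidableEq Y]
    (T : Finset (Fin s ↪ Y)) (τ : {ψ // ψ ∈ T} → (Fin s ↪ P)) : Finset (P × Y) :=
  univ.image (fun a : {ψ // ψ ∈ T} × Fin s => (τ a.1 a.2, a.1.1 a.2))

open Classical in
private theorem cnt_eq {P Y : Type} [hP : Fintype P] [hY : Fintype Y] [dP : DecidableEq P]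
    [dY : DecidableEq Y] (M : Finset (P × Y)) (B : Finset (Finset (P × Y))) :
    cnt M B = (univ.filter (fun σ : P ≃ Y => Ext M σ ∧ ∀ M' ∈ B, ¬ Ext M' σ)).card := by
  unfold cnt
  refine congrArg Finset.card (Finset.ext fun σ => ?_)
  simp only [mem_filter, mem_univ, true_and]

private theorem isPM_of_ext {P Y : Type} {M : Finset (P × Y)} {σ : P ≃ Y} (h : Ext M σ) :
    IsPM M := by
  intro a ha b hb
  rw [← h a ha, ← h b hb]
  exact σ.injective.eq_iff.symm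

private theorem card_Mt {P Y : Type} {s : ℕ} [DecidableEq P] [DecidableEq Y]
    (T : Finset (Fin s ↪ Y)) (hT : ∀ ψ ∈ T, ∀ ψ' ∈ T, ψ ≠ ψ' → Disjoint (im ψ) (im ψ'))
    (τ : {ψ // ψ ∈ T} → (Fin s ↪ P)) : (Mt T τ).card = s * T.card := by
  unfold Mt
  rw [Finset.card_image_of_injective]
  · simp [mul_comm]
  · rintro ⟨⟨ψ, hψ⟩, x⟩ ⟨⟨ψ', hψ'⟩, x'⟩ h
    have h1 : ψ x = ψ' x' := (Prod.mk.inj h).2
    by_cases he : ψ = ψ'
    · subst he
      rw [ψ.injective h1]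
    · exfalso
      have h2 := hT ψ hψ ψ' hψ' he
      rw [Finset.disjoint_left] at h2
      refine h2 (a := ψ x) ?_ ?_
      · exact mem_map.2 ⟨x, mem_univ _, rfl⟩
      · exact mem_map.2 ⟨x', mem_univ _, h1.symm⟩

private theorem card_Mt_le {Y : Type} {s : ℕ} [Fintype Y] [DecidableEq Y]
    (T : Finset (Fin s ↪ Y)) (hT : ∀ ψ ∈ T, ∀ ψ' ∈ T, ψ ≠ ψ' → Disjoint (im ψ) (im ψ')) :
    s * T.card ≤ Fintype.card Y := by
  have h : (univ.image (fun a : {ψ // ψ ∈ T} × Fin s => a.1.1 a.2) : Finset Y).card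
      = s * T.card := by
    rw [Finset.card_image_of_injective]
    · simp [mul_comm]
    · rintro ⟨⟨ψ, hψ⟩, x⟩ ⟨⟨ψ', hψ'⟩, x'⟩ h
      have h1 : ψ x = ψ' x' := h
      by_cases he : ψ = ψ'
      · subst he
        rw [ψ.injective h1]
      · exfalso
        have h2 := hT ψ hψ ψ' hψ' he
        rw [Finset.disjoint_left] at h2
        refine h2 (a := ψ x) ?_ ?_
        · exact mem_map.2 ⟨x, mem_univ _, rfl⟩
        · exact mem_map.2 ⟨x', mem_univ _, h1.symm⟩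
  rw [← h]
  exact Finset.card_le_univ _

open Classical in
private theorem fibre_bound {P Y : Type} [Fintype P] [Fintype Y] [DecidableEq P]
    [DecidableEq Y]
    (N s : ℕ) (hN : 1 ≤ N) (hY : Fintype.card Y = N)
    (B : Finset (Finset (P × Y)))
    (hcnt : ∀ M0 : Finset (P × Y), IsPM M0 →
        (cnt M0 B : ℝ) ≤ (cnt (∅ : Finset (P × Y)) B : ℝ) *
          (1 / (N.descFactorial M0.card : ℝ)) * Real.exp (M0.card : ℝ))
    (Pos : Finset (Fin s ↪ P)) (𝓕 : (P ≃ Y) → Finset (Fin s ↪ Y))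
    (h𝓕 : ∀ σ : P ≃ Y, (∀ M ∈ B, ¬ Ext M σ) →
      (∀ ψ ∈ 𝓕 σ, ∃ χ ∈ Pos, ∀ x, ψ x = σ (χ x)) ∧
      (∀ ψ ∈ 𝓕 σ, ∀ ψ' ∈ 𝓕 σ, ψ ≠ ψ' → Disjoint (im ψ) (im ψ')))
    (T : Finset (Fin s ↪ Y)) :
    (((univ.filter (fun σ : P ≃ Y => ∀ M ∈ B, ¬ Ext M σ)).filter
      (fun σ => T ⊆ 𝓕 σ)).card : ℝ) ≤
      (cnt (∅ : Finset (P × Y)) B : ℝ) *
        ((Pos.card : ℝ) * Real.exp (2 * s) / (N : ℝ) ^ s) ^ T.card := by
  have hq : (0 : ℝ) ≤ (Pos.card : ℝ) * Real.exp (2 * s) / (N : ℝ) ^ s := by positivity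
  by_cases hne : ((univ.filter (fun σ : P ≃ Y => ∀ M ∈ B, ¬ Ext M σ)).filter
      (fun σ => T ⊆ 𝓕 σ)).Nonempty
  · obtain ⟨σ0, hσ0⟩ := hne
    rw [mem_filter, mem_filter] at hσ0
    have hdis : ∀ ψ ∈ T, ∀ ψ' ∈ T, ψ ≠ ψ' → Disjoint (im ψ) (im ψ') :=
      fun ψ h ψ' h' hn => (h𝓕 σ0 hσ0.1.2).2 ψ (hσ0.2 h) ψ' (hσ0.2 h') hn
    have hle := card_Mt_le T hdis
    rw [hY] at hle
    -- each good σ lies in one of the families
    have hcov : (univ.filter (fun σ : P ≃ Y => ∀ M ∈ B, ¬ Ext M σ)).filter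
        (fun σ => T ⊆ 𝓕 σ) ⊆
        (Fintype.piFinset (fun _ : {ψ // ψ ∈ T} => Pos)).biUnion
          (fun τ => univ.filter (fun σ : P ≃ Y => Ext (Mt T τ) σ ∧ ∀ M' ∈ B, ¬ Ext M' σ)) := by
      intro σ hσ
      rw [mem_filter, mem_filter] at hσ
      have h1 : ∀ ψ : {ψ // ψ ∈ T}, ∃ χ ∈ Pos, ∀ x, ψ.1 x = σ (χ x) :=
        fun ψ => (h𝓕 σ hσ.1.2).1 ψ.1 (hσ.2 ψ.2)
      choose τ hτ hτx using h1
      rw [mem_biUnion]
      refine ⟨τ, Fintype.mem_piFinset.2 hτ, ?_⟩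
      rw [mem_filter]
      refine ⟨mem_univ _, ?_, hσ.1.2⟩
      intro a ha
      unfold Mt at ha
      rw [mem_image] at ha
      obtain ⟨⟨ψ, x⟩, -, rfl⟩ := ha
      exact (hτx ψ x).symm
    have h2 := (Finset.card_le_card hcov).trans
      (Finset.card_biUnion_le (s := Fintype.piFinset (fun _ : {ψ // ψ ∈ T} => Pos))
        (t := fun τ => univ.filter (fun σ : P ≃ Y => Ext (Mt T τ) σ ∧ ∀ M' ∈ B, ¬ Ext M' σ)))
    have h3 : ∀ τ ∈ Fintype.piFinset (fun _ : {ψ // ψ ∈ T} => Pos),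
        ((univ.filter (fun σ : P ≃ Y => Ext (Mt T τ) σ ∧ ∀ M' ∈ B, ¬ Ext M' σ)).card : ℝ) ≤
        (cnt (∅ : Finset (P × Y)) B : ℝ) * (Real.exp (2 * s) / (N : ℝ) ^ s) ^ T.card := by
      intro τ _
      by_cases hpm : IsPM (Mt T τ)
      · have h4 := hcnt _ hpm
        rw [card_Mt T hdis τ] at h4
        rw [← cnt_eq]
        refine h4.trans ?_
        rw [mul_assoc]
        refine mul_le_mul_of_nonneg_left ?_ (Nat.cast_nonneg _)
        have h5 := descFactorial_ge N (s * T.card) hle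
        have hN0 : (0 : ℝ) < (N : ℝ) := by exact_mod_cast hN
        have h6 : (0 : ℝ) < ((N : ℝ) / Real.exp 1) ^ (s * T.card) := by positivity
        calc 1 / (N.descFactorial (s * T.card) : ℝ) * Real.exp ((s * T.card : ℕ) : ℝ)
            ≤ 1 / ((N : ℝ) / Real.exp 1) ^ (s * T.card) * Real.exp ((s * T.card : ℕ) : ℝ) :=
              mul_le_mul_of_nonneg_right (one_div_le_one_div_of_le h6 h5)
                (Real.exp_pos _).le
          _ = (Real.exp (2 * s) / (N : ℝ) ^ s) ^ T.card := by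
              have e1 : Real.exp ((s * T.card : ℕ) : ℝ) = Real.exp 1 ^ (s * T.card) := by
                rw [← Real.exp_nat_mul, mul_one]
              have e2 : Real.exp (2 * (s : ℝ)) = Real.exp 1 ^ (2 * s) := by
                rw [← Real.exp_nat_mul, mul_one]; push_cast; ring_nf
              rw [e1, e2, div_pow, div_pow, ← pow_mul, ← pow_mul, one_div_div,
                div_mul_eq_mul_div, ← pow_add]
              congr 2
              ring
      · have h4 : (univ.filter (fun σ : P ≃ Y => Ext (Mt T τ) σ ∧ ∀ M' ∈ B, ¬ Ext M' σ))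
            = ∅ := by
          rw [Finset.filter_eq_empty_iff]
          intro σ _ h
          exact hpm (isPM_of_ext h.1)
        rw [h4]
        simp only [card_empty, Nat.cast_zero]
        positivity
    calc (((univ.filter (fun σ : P ≃ Y => ∀ M ∈ B, ¬ Ext M σ)).filter
          (fun σ => T ⊆ 𝓕 σ)).card : ℝ)
        ≤ ((∑ τ ∈ Fintype.piFinset (fun _ : {ψ // ψ ∈ T} => Pos),
          (univ.filter (fun σ : P ≃ Y => Ext (Mt T τ) σ ∧ ∀ M' ∈ B, ¬ Ext M' σ)).card : ℕ) : ℝ)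
          := by exact_mod_cast h2
      _ = ∑ τ ∈ Fintype.piFinset (fun _ : {ψ // ψ ∈ T} => Pos),
          ((univ.filter (fun σ : P ≃ Y => Ext (Mt T τ) σ ∧ ∀ M' ∈ B, ¬ Ext M' σ)).card : ℝ)
          := by push_cast; rfl
      _ ≤ ∑ _τ ∈ Fintype.piFinset (fun _ : {ψ // ψ ∈ T} => Pos),
          (cnt (∅ : Finset (P × Y)) B : ℝ) * (Real.exp (2 * s) / (N : ℝ) ^ s) ^ T.card :=
          Finset.sum_le_sum h3
      _ = (cnt (∅ : Finset (P × Y)) B : ℝ) *
        ((Pos.card : ℝ) * Real.exp (2 * s) / (N : ℝ) ^ s) ^ T.card := by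
          rw [Finset.sum_const, Fintype.card_piFinset, nsmul_eq_mul]
          simp only [prod_const, card_univ, Fintype.card_coe]
          push_cast
          rw [mul_div_assoc (Pos.card : ℝ), mul_pow]
          ring
  · rw [Finset.not_nonempty_iff_eq_empty] at hne
    rw [hne]
    simp only [card_empty, Nat.cast_zero]
    positivity

set_option linter.unusedVariables false in
/-- the push-forward of the uniform measure on good bijections is spread. -/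
theorem spread_mu {P Y : Type} [Fintype P] [Fintype Y] [DecidableEq P] [DecidableEq Y]
    (N s n : ℕ) (hs : 1 ≤ s) (hN : 1 ≤ N) (hP : Fintype.card P = N) (hY : Fintype.card Y = N)
    (B : Finset (Finset (P × Y))) (hB : 0 < cnt (∅ : Finset (P × Y)) B)
    (hcnt : ∀ M0 : Finset (P × Y), IsPM M0 →
        (cnt M0 B : ℝ) ≤ (cnt (∅ : Finset (P × Y)) B : ℝ) *
          (1 / (N.descFactorial M0.card : ℝ)) * Real.exp (M0.card : ℝ))
    (Pos : Finset (Fin s ↪ P)) (𝓕 : (P ≃ Y) → Finset (Fin s ↪ Y))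
    (h𝓕 : ∀ σ : P ≃ Y, (∀ M ∈ B, ¬ Ext M σ) → (𝓕 σ).card ≤ n ∧
      (∀ ψ ∈ 𝓕 σ, ∃ χ ∈ Pos, ∀ x, ψ x = σ (χ x)) ∧
      (∀ ψ ∈ 𝓕 σ, ∀ ψ' ∈ 𝓕 σ, ψ ≠ ψ' → Disjoint (im ψ) (im ψ'))) :
    ∃ μ : Finset (Fin s ↪ Y) → ℝ,
      IsSpread ((Pos.card : ℝ) * Real.exp (2 * s) / (N : ℝ) ^ s) n μ ∧
      ∑ S : Finset (Fin s ↪ Y), μ S = 1 ∧
      ∀ S, μ S ≠ 0 → ∃ σ : P ≃ Y, (∀ M ∈ B, ¬ Ext M σ) ∧ 𝓕 σ = S := by
  classical
  set G : Finset (P ≃ Y) := univ.filter (fun σ : P ≃ Y => ∀ M ∈ B, ¬ Ext M σ) with hG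
  have hZ : cnt (∅ : Finset (P × Y)) B = G.card := by
    rw [cnt_eq]
    refine congrArg Finset.card (Finset.ext fun σ => ?_)
    simp only [hG, mem_filter, mem_univ, true_and]
    constructor
    · rintro ⟨-, h2⟩
      exact h2
    · intro h2
      exact ⟨fun a ha => absurd ha (Finset.notMem_empty a), h2⟩
  have hZ0 : (0 : ℝ) < (G.card : ℝ) := by
    rw [← hZ]; exact_mod_cast hB
  have hsum : ∑ S : Finset (Fin s ↪ Y), ((G.filter (fun σ => 𝓕 σ = S)).card : ℝ) / G.card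
      = 1 := by
    rw [← Finset.sum_div, div_eq_one_iff_eq hZ0.ne']
    have h1 := Finset.card_eq_sum_card_fiberwise (f := 𝓕) (s := G)
      (t := (univ : Finset (Finset (Fin s ↪ Y)))) (fun _ _ => mem_coe.2 (mem_univ _))
    rw [h1]
    push_cast
    rfl
  have hsupp : ∀ S : Finset (Fin s ↪ Y),
      ((G.filter (fun σ => 𝓕 σ = S)).card : ℝ) / G.card ≠ 0 →
      ∃ σ : P ≃ Y, (∀ M ∈ B, ¬ Ext M σ) ∧ 𝓕 σ = S := by
    intro S hS
    have h1 : (G.filter (fun σ => 𝓕 σ = S)).card ≠ 0 := by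
      intro h
      apply hS
      rw [h]; simp
    obtain ⟨σ, hσ⟩ := Finset.card_pos.1 (Nat.pos_of_ne_zero h1)
    rw [mem_filter, hG, mem_filter] at hσ
    exact ⟨σ, hσ.1.2, hσ.2⟩
  refine ⟨fun S => ((G.filter (fun σ => 𝓕 σ = S)).card : ℝ) / G.card,
    ⟨fun S => by positivity, hsum.le, ?_, ?_⟩, hsum, hsupp⟩
  · intro S hS
    obtain ⟨σ, h1, h2⟩ := hsupp S hS
    rw [← h2]
    exact (h𝓕 σ h1).1
  · intro T
    have h1 := fibre_bound N s hN hY B hcnt Pos 𝓕 (fun σ h => (h𝓕 σ h).2) T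
    rw [hZ] at h1
    have h2 : (∑ S : Finset (Fin s ↪ Y),
        if T ⊆ S then ((G.filter (fun σ => 𝓕 σ = S)).card : ℝ) / G.card else 0)
        = ((G.filter (fun σ => T ⊆ 𝓕 σ)).card : ℝ) / G.card := by
      have h3 := Finset.card_eq_sum_card_fiberwise (f := 𝓕)
        (s := G.filter (fun σ => T ⊆ 𝓕 σ))
        (t := (univ : Finset (Finset (Fin s ↪ Y)))) (fun _ _ => mem_coe.2 (mem_univ _))
      rw [h3]
      push_cast
      rw [Finset.sum_div]
      refine Finset.sum_congr rfl fun S _ => ?_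
      split_ifs with hTS
      · congr 2
        refine congrArg Finset.card (Finset.ext fun σ => ?_)
        simp only [mem_filter]
        constructor
        · rintro ⟨h4, h5⟩
          exact ⟨⟨h4, h5 ▸ hTS⟩, h5⟩
        · rintro ⟨⟨h4, -⟩, h5⟩
          exact ⟨h4, h5⟩
      · have h4 : (G.filter (fun σ => T ⊆ 𝓕 σ)).filter (fun σ => 𝓕 σ = S) = ∅ := by
          rw [Finset.filter_eq_empty_iff]
          intro σ hσ h5
          rw [mem_filter] at hσ
          exact hTS (h5 ▸ hσ.2)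
        rw [h4]
        simp
    have h3 : ((G.filter (fun σ => T ⊆ 𝓕 σ)).card : ℝ) / G.card ≤
        ((Pos.card : ℝ) * Real.exp (2 * s) / (N : ℝ) ^ s) ^ T.card := by
      rw [div_le_iff₀ hZ0, mul_comm]
      exact h1
    refine le_trans (le_of_eq ?_) (h2.le.trans h3)
    refine Finset.sum_congr rfl fun S _ => ?_
    by_cases hTS : T ⊆ S
    · simp only [if_pos hTS]
    · simp only [if_neg hTS]

end Pool.Agent.TFactor
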