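import Mathlib
import Pool.Agent.Work.MP_5010fd_co.GroupBad
import Pool.Agent.Work.MP_5010fd_co.BadFam
import Pool.Agent.Work.MP_5010fd_co.LLL
import Pool.Agent.Work.MP_5010fd_co.SpreadMu

namespace Pool.Agent.TFactor

open Finset

private theorem IsSpread.mono' {X : Type} [Fintype X] [DecidableEq X] {q q' : ℝ} {r : ℕ}
    {μ : Finset X → ℝ} (h : IsSpread q r μ) (hq : 0 ≤ q) (hqq : q ≤ q') :
    IsSpread q' r μ :=
  ⟨h.1, h.2.1, h.2.2.1, fun T => (h.2.2.2 T).trans (pow_le_pow_left₀ hq hqq _)⟩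

/-- placements of `Fin s` inside one group -/
private def place {s m : ℕ} {sz : Fin m → ℕ} (j : Fin m) (χ : Fin s ↪ Fin (s * sz j)) :
    Fin s ↪ (Σ j : Fin m, Fin (s * sz j)) :=
  ⟨fun x => ⟨j, χ x⟩, fun x y h => by simpa using h⟩

open Classical in
private noncomputable def Pos (s m : ℕ) (sz : Fin m → ℕ) :
    Finset (Fin s ↪ (Σ j : Fin m, Fin (s * sz j))) :=
  (univ : Finset (Σ j : Fin m, (Fin s ↪ Fin (s * sz j)))).image (fun a => place a.1 a.2)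

private theorem card_Pos (s m Q : ℕ) (sz : Fin m → ℕ) (hQ : ∀ j, s * sz j ≤ Q) :
    (Pos s m sz).card ≤ m * Q ^ s := by
  classical
  unfold Pos
  refine card_image_le.trans ?_
  rw [card_univ, Fintype.card_sigma]
  calc ∑ j : Fin m, Fintype.card (Fin s ↪ Fin (s * sz j)) ≤ ∑ _j : Fin m, Q ^ s := by
        refine Finset.sum_le_sum fun j _ => ?_
        rw [Fintype.card_embedding_eq, Fintype.card_fin, Fintype.card_fin]
        exact (Nat.descFactorial_le_pow _ _).trans (Nat.pow_le_pow_left (hQ j) _)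
    _ = m * Q ^ s := by simp

open Classical in
private theorem two_sizes {k s t d : ℕ} (hd : 1 ≤ d) (hdk : d < k) (hs : 1 ≤ s) (ht : 1 ≤ t)
    (F : Finset (Finset (Fin s))) (α : ℝ) (hα : 0 < α) :
    ∃ n0 : ℕ, 1 ≤ n0 ∧ ∃ N0 : ℕ, ∀ g : ℕ, (g = n0 ∨ g = n0 + 1) → ∀ N ≥ N0,
      ∀ H : Fin (t * g) → Finset (Finset (Fin N)), (∀ i, ∀ e ∈ H i, e.card = k) →
      (∀ i, DegGE d ((deltaT k s t d F + α) * ((N - d).choose (k - d) : ℝ)) (H i)) →
      ∀ (x : Fin (s * g)) (v : Fin N),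
        ((univ.filter (fun φ : Fin (s * g) ↪ Fin N => φ x = v ∧
          ¬ HasTF F t g (pull φ H))).card : ℝ) ≤
          ((N - 1).descFactorial (s * g - 1) : ℝ) / (16 * ((s * (n0 + 1) : ℕ) : ℝ)) := by
  obtain ⟨g0, hg0⟩ := group_bad hd hdk hs ht F α hα
  obtain ⟨Na, hNa⟩ := hg0 (max g0 1) (le_max_left _ _)
  obtain ⟨Nb, hNb⟩ := hg0 (max g0 1 + 1) ((le_max_left _ _).trans (Nat.le_succ _))
  refine ⟨max g0 1, le_max_right _ _, max Na Nb, ?_⟩
  generalize max g0 1 = n0 at *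
  intro g hg N hN H hH hdeg x v
  have hs0 : (0 : ℝ) < s := by exact_mod_cast hs
  rcases hg with rfl | rfl
  · have h := hNa N ((le_max_left _ _).trans hN) H hH hdeg x v
    refine h.trans (le_of_eq ?_)
    push_cast
    rfl
  · have h := hNb N ((le_max_right _ _).trans hN) H hH hdeg x v
    refine h.trans ?_
    refine div_le_div_of_nonneg_left (Nat.cast_nonneg _) (by push_cast; positivity) ?_
    push_cast
    nlinarith

/-- the spread measure on transversal factors. -/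
theorem group_measure {k s t d : ℕ} (hd : 1 ≤ d) (hdk : d < k) (hs : 1 ≤ s) (ht : 1 ≤ t)
    (F : Finset (Finset (Fin s))) (α : ℝ) (hα : 0 < α) :
    ∃ K1 : ℝ, 0 < K1 ∧ ∃ n1 : ℕ, ∀ n ≥ n1,
      ∀ H : Fin (t * n) → Finset (Finset (Fin (s * n))), (∀ i, ∀ e ∈ H i, e.card = k) →
      (∀ i, DegGE d ((deltaT k s t d F + α) * ((s * n - d).choose (k - d) : ℝ)) (H i)) →
      ∃ μ : Finset (Fin s ↪ Fin (s * n)) → ℝ,
        IsSpread (K1 / (n : ℝ) ^ (s - 1)) n μ ∧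
        ∑ S : Finset (Fin s ↪ Fin (s * n)), μ S = 1 ∧
        ∀ S, μ S ≠ 0 → UTF F t n H S := by
  classical
  obtain ⟨n0, hn0, N0, hN0⟩ := two_sizes hd hdk hs ht F α hα
  have hs0 : (0 : ℝ) < s := by exact_mod_cast hs
  have hQpos : 0 < s * (n0 + 1) := Nat.mul_pos hs (Nat.succ_pos _)
  have hQR : (0 : ℝ) < ((s * (n0 + 1) : ℕ) : ℝ) := by exact_mod_cast hQpos
  refine ⟨((s * (n0 + 1) : ℕ) : ℝ) ^ s * Real.exp (2 * s), by positivity,
    max (n0 * n0) (max N0 1), ?_⟩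
  intro n hn H hH hdeg
  have hn1 : n0 * n0 ≤ n := (le_max_left _ _).trans hn
  have hn2 : N0 ≤ n := (le_max_left _ _).trans ((le_max_right _ _).trans hn)
  have hn3 : 1 ≤ n := (le_max_right _ _).trans ((le_max_right _ _).trans hn)
  obtain ⟨m, sz, hsz, hsum⟩ := decomp n0 hn0 n hn1
  have hsz1 : ∀ j, 1 ≤ sz j := fun j => by rcases hsz j with h | h <;> omega
  have hszQ : ∀ j, s * sz j ≤ s * (n0 + 1) := fun j =>
    Nat.mul_le_mul_left _ (by rcases hsz j with h | h <;> omega)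
  have hmn : m ≤ n := by
    rw [← hsum]
    calc m = ∑ _j : Fin m, 1 := by simp
      _ ≤ ∑ j, sz j := Finset.sum_le_sum fun j _ => hsz1 j
  have hcardκ : Fintype.card (Σ j : Fin m, Fin (t * sz j)) = t * n := by
    rw [Fintype.card_sigma]
    simp only [Fintype.card_fin]
    rw [← Finset.mul_sum, hsum]
  have hcardσ : Fintype.card (Σ j : Fin m, Fin (s * sz j)) = s * n := by
    rw [Fintype.card_sigma]
    simp only [Fintype.card_fin]
    rw [← Finset.mul_sum, hsum]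
  have hsumN : ∑ j, s * sz j = s * n := by rw [← Finset.mul_sum, hsum]
  have hNn : n ≤ s * n := Nat.le_mul_of_pos_left n hs
  let κ : (Σ j : Fin m, Fin (t * sz j)) ≃ Fin (t * n) := Fintype.equivFinOfCardEq hcardκ
  obtain ⟨B, hPM, hne, hcard, havoid, hslot, hvert⟩ := bad_family sz hsumN (s * (n0 + 1))
    (fun j => Nat.mul_pos hs (hsz1 j)) hszQ
    (fun j φ => ¬ HasTF F t (sz j) (pull φ (fun c => H (κ ⟨j, c⟩))))
    (fun j x v => by
      have h := hN0 (sz j) (hsz j) (s * n) (hn2.trans hNn) (fun c => H (κ ⟨j, c⟩))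
        (fun i => hH _) (fun i => hdeg _) x v
      refine le_trans (le_of_eq ?_) h
      exact congrArg (Nat.cast : ℕ → ℝ) (congrArg Finset.card (Finset.ext fun φ => by
        simp only [mem_filter, mem_univ, true_and])))
  obtain ⟨hB, hcnt⟩ := lll_uniform (s * n) hcardσ (Fintype.card_fin _) B hPM hne
    (s * (n0 + 1)) hQpos hcard
    (fun y => le_trans (le_of_eq (Finset.sum_congr (Finset.ext fun M => by
      simp only [mem_filter]) fun _ _ => rfl)) (hslot y))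
    (fun v => le_trans (le_of_eq (Finset.sum_congr (Finset.ext fun M => by
      simp only [mem_filter]) fun _ _ => rfl)) (hvert v))
  have hgl : ∀ σ : (Σ j : Fin m, Fin (s * sz j)) ≃ Fin (s * n), (∀ M ∈ B, ¬ Ext M σ) →
      ∃ T : Finset (Fin s ↪ Fin (s * n)), T.card ≤ n ∧ UTF F t n H T ∧
      (∀ ψ ∈ T, ∃ j, ∃ χ : Fin s ↪ Fin (s * sz j), ∀ x, ψ x = σ ⟨j, χ x⟩) ∧
      (∀ ψ ∈ T, ∀ ψ' ∈ T, ψ ≠ ψ' → Disjoint (im ψ) (im ψ')) := by
    intro σ hσ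
    refine glue F t n m sz hsum H κ σ fun j => ?_
    exact not_not.1 (havoid σ hσ j)
  let 𝓕 : ((Σ j : Fin m, Fin (s * sz j)) ≃ Fin (s * n)) → Finset (Fin s ↪ Fin (s * n)) :=
    fun σ => if h : (∀ M ∈ B, ¬ Ext M σ) then Classical.choose (hgl σ h) else ∅
  have h𝓕 : ∀ σ, (∀ M ∈ B, ¬ Ext M σ) → (𝓕 σ).card ≤ n ∧ UTF F t n H (𝓕 σ) ∧
      (∀ ψ ∈ 𝓕 σ, ∃ j, ∃ χ : Fin s ↪ Fin (s * sz j), ∀ x, ψ x = σ ⟨j, χ x⟩) ∧
      (∀ ψ ∈ 𝓕 σ, ∀ ψ' ∈ 𝓕 σ, ψ ≠ ψ' → Disjoint (im ψ) (im ψ')) := by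
    intro σ h
    have h1 := Classical.choose_spec (hgl σ h)
    have h2 : 𝓕 σ = Classical.choose (hgl σ h) := dif_pos h
    rw [h2]
    exact h1
  obtain ⟨μ, hμ, hμ1, hμs⟩ := spread_mu (s * n) s n hs (hn3.trans hNn) hcardσ
    (Fintype.card_fin _) B hB hcnt (Pos s m sz) 𝓕 (fun σ hσ => by
      obtain ⟨h1, -, h3, h4⟩ := h𝓕 σ hσ
      refine ⟨h1, ?_, h4⟩
      intro ψ hψ
      obtain ⟨j, χ, hχ⟩ := h3 ψ hψ
      exact ⟨place j χ, mem_image.2 ⟨⟨j, χ⟩, mem_univ _, rfl⟩, hχ⟩)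
  refine ⟨μ, ?_, hμ1, ?_⟩
  · refine hμ.mono' (by positivity) ?_
    have hP : ((Pos s m sz).card : ℝ) ≤ (n : ℝ) * ((s * (n0 + 1) : ℕ) : ℝ) ^ s := by
      have h1 := (card_Pos s m (s * (n0 + 1)) sz hszQ).trans (Nat.mul_le_mul_right _ hmn)
      exact_mod_cast h1
    have hn0R : (0 : ℝ) < n := by exact_mod_cast hn3
    have hNR : (n : ℝ) ^ s ≤ ((s * n : ℕ) : ℝ) ^ s :=
      pow_le_pow_left₀ hn0R.le (by exact_mod_cast hNn) _
    obtain ⟨s', rfl⟩ : ∃ s', s = s' + 1 := ⟨s - 1, by omega⟩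
    rw [Nat.add_sub_cancel]
    set Q : ℝ := (((s' + 1) * (n0 + 1) : ℕ) : ℝ) with hQdef
    calc ((Pos (s' + 1) m sz).card : ℝ) * Real.exp (2 * ((s' + 1 : ℕ) : ℝ)) /
          (((s' + 1) * n : ℕ) : ℝ) ^ (s' + 1)
        ≤ ((n : ℝ) * Q ^ (s' + 1)) * Real.exp (2 * ((s' + 1 : ℕ) : ℝ)) /
          (n : ℝ) ^ (s' + 1) := by
          refine div_le_div₀ (by positivity) ?_ (by positivity) hNR
          exact mul_le_mul_of_nonneg_right hP (Real.exp_pos _).le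
      _ = Q ^ (s' + 1) * Real.exp (2 * ((s' + 1 : ℕ) : ℝ)) / (n : ℝ) ^ s' := by
          rw [pow_succ (n : ℝ)]
          field_simp
  · intro S hS
    obtain ⟨σ, h1, h2⟩ := hμs S hS
    rw [← h2]
    exact (h𝓕 σ h1).2.1

end Pool.Agent.TFactor
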