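import Mathlib
import Pool.Agent.Work.MP_5010fd_co.FinA
import Pool.Agent.Work.MP_5010fd_co.FinB
import Pool.Agent.Work.MP_5010fd_co.GroupMeas

namespace Pool.Agent.TFactor

open Finset

/-- the theorem for fixed `d` and `F`. -/
theorem final_fixed {k s t d : ℕ} (hd : 1 ≤ d) (hdk : d < k) (ht : 1 ≤ t)
    (α : ℝ) (hα : 0 < α) (F : Finset (Finset (Fin s))) (hF : ∀ e ∈ F, e.card = k)
    (hFt : F.card = t) (hS : StrictBal F) :
    ∃ C : ℝ, 0 < C ∧ ∀ ε : ℝ, 0 < ε → ∃ n0 : ℕ, ∀ n ≥ n0,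
      ∀ H : Fin (t * n) → Finset (Finset (Fin (s * n))), (∀ i, ∀ e ∈ H i, e.card = k) →
      (∀ i, DegGE d ((deltaT k s t d F + α) * ((s * n - d).choose (k - d) : ℝ)) (H i)) →
      ∀ p : ℝ, p ≤ 1 →
        C * (n : ℝ) ^ (-(((s : ℝ) - 1) / t)) * (Real.log n) ^ (1 / (t : ℝ)) ≤ p →
        1 - ε ≤ probG k p (fun G => HasTF F t n (fun i => H i ∩ G)) := by
  classical
  have hk : 2 ≤ k := by omega
  have hne : F.Nonempty := card_pos.1 (by omega)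
  have hks : k ≤ s := by
    obtain ⟨e, he⟩ := hne
    have := card_le_univ e
    rw [hF e he, Fintype.card_fin] at this
    exact this
  have hs2 : 2 ≤ s := le_trans hk hks
  have hbal := bal1_of_strictBal hk F hF hS
  have hV := biUnion_of_strictBal hk F hF hne hS
  obtain ⟨K, hK, hspread⟩ := spread_main
  obtain ⟨K1, hK1, n1, hmeas⟩ := group_measure (k := k) (s := s) (t := t) (d := d) hd hdk
    (by omega) ht F α hα
  obtain ⟨C1, hC1, hqsum⟩ := qsum hk F hF hne hbal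
  set b : ℕ := (F.card * s) ^ s + s ^ s with hb
  set C : ℝ := max 1 (K * K1 * 2 ^ (b + 2)) with hC
  have hC1' : 1 ≤ C := le_max_left _ _
  have hC0 : 0 < C := by linarith
  have ht' : (0 : ℝ) < t := by exact_mod_cast ht
  refine ⟨C, hC0, fun ε hε => ?_⟩
  -- constants
  set c2 : ℝ := (s : ℝ) ^ (s - 1) * (K * K1) with hc2
  have hc2pos : 0 < c2 := by
    have : (0 : ℝ) < s := by exact_mod_cast (by omega : 0 < s)
    positivity
  obtain ⟨r0, hr0⟩ := hspread (ε / 3) (by linarith)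
  obtain ⟨m1, hm1⟩ := num_c (C1 * (2 * (t : ℝ)) ^ t * (C ^ t * (s : ℝ) ^ (s - 1))) t ht (1 / 2)
    (by norm_num)
  obtain ⟨m2, hm2⟩ := num_d (1 + 2 * s * c2) (1 / (4 * (t : ℝ) ^ 2)) (by positivity)
    (ε / (3 * s)) (by
      have : (0 : ℝ) < s := by exact_mod_cast (by omega : 0 < s)
      positivity)
  obtain ⟨m3, hm3⟩ := num_e (∑ m ∈ Icc 1 (2 * t), ((m * s : ℕ) : ℝ) ^ (s * m) * c2 ^ m) (2 * t)
    (ε / 3) (by linarith)
  refine ⟨max (max (max r0 m1) (max m2 m3)) (max n1 3), fun n hn H hH hdeg p hp1 hp => ?_⟩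
  have hnr0 : r0 ≤ n := by omega
  have hnm1 : m1 ≤ n := by omega
  have hnm2 : m2 ≤ n := by omega
  have hnm3 : m3 ≤ n := by omega
  have hnn1 : n1 ≤ n := by omega
  have hn3 : 3 ≤ n := by omega
  have hn0 : (0 : ℝ) < n := by exact_mod_cast (by omega : 0 < n)
  have hn1r : (1 : ℝ) ≤ n := by exact_mod_cast (by omega : 1 ≤ n)
  have hs0 : (0 : ℝ) < s := by exact_mod_cast (by omega : 0 < s)
  have hs1r : (1 : ℝ) ≤ s := by exact_mod_cast (by omega : 1 ≤ s)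
  set L : ℝ := Real.log n with hL
  have hL1 : 1 ≤ L := by
    rw [hL, Real.le_log_iff_exp_le hn0]
    have h3 : (3 : ℝ) ≤ n := by exact_mod_cast hn3
    exact le_trans Real.exp_one_lt_three.le h3
  have hL0 : 0 < L := by linarith
  -- the probability p0
  set p0 : ℝ := C * (n : ℝ) ^ (-(((s : ℝ) - 1) / t)) * L ^ (1 / (t : ℝ)) with hp0
  have hp0pos : 0 < p0 := by positivity
  have hp01 : p0 ≤ 1 := le_trans hp hp1
  have hp0t : p0 ^ t = C ^ t * L / (n : ℝ) ^ (s - 1) := by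
    rw [hp0, mul_pow, mul_pow, ← Real.rpow_natCast ((n : ℝ) ^ _) t, ← Real.rpow_mul hn0.le,
      ← Real.rpow_natCast (L ^ _) t, ← Real.rpow_mul hL0.le]
    have e1 : 1 / (t : ℝ) * t = 1 := by field_simp
    have e2 : -(((s : ℝ) - 1) / t) * t = -(((s - 1 : ℕ) : ℝ)) := by
      rw [Nat.cast_sub (by omega : 1 ≤ s)]
      field_simp
      push_cast
      ring
    rw [e1, e2, Real.rpow_one, Real.rpow_neg hn0.le, Real.rpow_natCast]
    field_simp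
  -- the density π
  set q : ℝ := K1 / (n : ℝ) ^ (s - 1) with hq
  have hqpos : 0 < q := by positivity
  set π : ℝ := K * q * L with hπ
  have hπ0 : 0 ≤ π := by positivity
  have hπp : π * 2 ^ (b + 2) ≤ p0 ^ t := by
    rw [hp0t, hπ, hq]
    have h1 : K * K1 * 2 ^ (b + 2) ≤ C ^ t := by
      calc K * K1 * 2 ^ (b + 2) ≤ C := le_max_right _ _
        _ = C ^ 1 := (pow_one C).symm
        _ ≤ C ^ t := pow_le_pow_right₀ hC1' ht
    calc K * (K1 / (n : ℝ) ^ (s - 1)) * L * 2 ^ (b + 2)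
        = (K * K1 * 2 ^ (b + 2)) * (L / (n : ℝ) ^ (s - 1)) := by ring
      _ ≤ C ^ t * (L / (n : ℝ) ^ (s - 1)) := by gcongr
      _ = _ := by ring
  have hπ1 : π ≤ 1 := by
    have h1 : p0 ^ t ≤ 1 := pow_le_one₀ hp0pos.le hp01
    have h2 : (1 : ℝ) ≤ 2 ^ (b + 2) := one_le_pow₀ (by norm_num)
    nlinarith
  have hcardV : Fintype.card (Fin (s * n)) = s * n := Fintype.card_fin _
  have hN1 : 1 ≤ Fintype.card (Fin (s * n)) := by
    rw [hcardV]; exact Nat.mul_pos (by omega) (by omega)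
  have hNn : (n : ℝ) ≤ (Fintype.card (Fin (s * n)) : ℝ) := by
    rw [hcardV]; push_cast; nlinarith
  have hNπ : (Fintype.card (Fin (s * n)) : ℝ) ^ (s - 1) * π = c2 * L := by
    rw [hcardV, hπ, hq, hc2]; push_cast; rw [mul_pow]; field_simp
  -- Λ and Δ
  set Λ : ℝ := C ^ t * L * (s : ℝ) ^ (s - 1) with hΛ
  have hΛ1 : 1 ≤ Λ := by
    have h1 : 1 ≤ C ^ t := one_le_pow₀ hC1'
    have h2 : 1 ≤ (s : ℝ) ^ (s - 1) := one_le_pow₀ hs1r
    have h3 : 1 ≤ C ^ t * L := by nlinarith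
    rw [hΛ]; nlinarith
  set θ : ℝ := 1 / (4 * (t : ℝ) ^ 2) with hθ
  have hθ0 : 0 < θ := by positivity
  set Δ : ℕ := ⌈(n : ℝ) ^ θ⌉₊ with hΔ
  have hnθ : 1 ≤ (n : ℝ) ^ θ := Real.one_le_rpow hn1r hθ0.le
  have hΔ1 : 1 ≤ Δ := by
    rw [hΔ]; exact Nat.one_le_iff_ne_zero.2 (by
      intro h; rw [Nat.ceil_eq_zero] at h; linarith)
  have hΔlow : (n : ℝ) ^ θ ≤ Δ := Nat.le_ceil _
  have hΔup : (Δ : ℝ) ≤ 2 * (n : ℝ) ^ θ := by
    have := Nat.ceil_lt_add_one (by positivity : 0 ≤ (n : ℝ) ^ θ)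
    rw [hΔ]; linarith
  -- the spread measure
  obtain ⟨μ, hμ1, hμ2, hμ3⟩ := hmeas n hnn1 H hH hdeg
  have hsucc := hr0 n hnr0 (Fin s ↪ Fin (s * n)) μ q hqpos hμ1 hμ2 π le_rfl hπ1
  have h3 : 1 - ε / 3 ≤ bP π (fun T : Finset (Fin s ↪ Fin (s * n)) => UTF F t n H T) := by
    refine le_trans hsucc (bP_mono hπ0 hπ1 ?_)
    rintro W ⟨S, hS1, hS2⟩
    exact UTF_mono F t n H S W hS2 (hμ3 S hS1)
  -- E1
  have h1 : bP π (fun T : Finset (Fin s ↪ Fin (s * n)) => ¬ E1 Δ T) ≤ ε / 3 := by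
    refine le_trans (prob_not_E1 π hπ0 hπ1 Δ) ?_
    have e1 : 2 * (s : ℝ) * (Fintype.card (Fin (s * n)) : ℝ) ^ (s - 1) * π =
        2 * s * c2 * L := by
      calc 2 * (s : ℝ) * (Fintype.card (Fin (s * n)) : ℝ) ^ (s - 1) * π
          = 2 * s * ((Fintype.card (Fin (s * n)) : ℝ) ^ (s - 1) * π) := by ring
        _ = _ := by rw [hNπ]; ring
    rw [e1, hcardV]
    have e2 : Real.exp (2 * s * c2 * L) = (n : ℝ) ^ (2 * s * c2) := by
      rw [Real.rpow_def_of_pos hn0, hL]; congr 1; ring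
    rw [e2]
    have e3 : ((2 : ℝ) ^ (Δ + 1))⁻¹ ≤ ((2 : ℝ) ^ ((n : ℝ) ^ θ))⁻¹ := by
      apply inv_anti₀ (by positivity)
      rw [← Real.rpow_natCast]
      apply Real.rpow_le_rpow_of_exponent_le (by norm_num)
      push_cast; linarith
    have e4 := hm2 n hnm2
    have e5 : (n : ℝ) ^ (1 + 2 * s * c2) = n * (n : ℝ) ^ (2 * s * c2) := by
      rw [Real.rpow_add hn0, Real.rpow_one]
    rw [e5] at e4
    calc ((s * n : ℕ) : ℝ) * ((2 : ℝ) ^ (Δ + 1))⁻¹ * (n : ℝ) ^ (2 * s * c2)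
        = s * ((n : ℝ) * (n : ℝ) ^ (2 * s * c2) * ((2 : ℝ) ^ (Δ + 1))⁻¹) := by
          push_cast; ring
      _ ≤ s * ((n : ℝ) * (n : ℝ) ^ (2 * s * c2) * ((2 : ℝ) ^ ((n : ℝ) ^ θ))⁻¹) := by
          gcongr
      _ ≤ s * (ε / (3 * s)) := by
          apply mul_le_mul_of_nonneg_left e4 hs0.le
      _ = ε / 3 := by field_simp
  -- E2
  have h2 : bP π (fun T : Finset (Fin s ↪ Fin (s * n)) => ¬ E2 F.card T) ≤ ε / 3 := by
    refine le_trans (prob_not_E2 hs2 F.card π hπ0 hπ1) ?_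
    refine le_trans ?_ (hm3 n hnm3)
    rw [hFt, Finset.sum_mul, Finset.sum_div]
    apply Finset.sum_le_sum
    intro m hm
    rw [mem_Icc] at hm
    set N : ℝ := (Fintype.card (Fin (s * n)) : ℝ) with hN
    have hNpos : 0 < N := by linarith
    have e1 : N ^ (m * (s - 1) - 1) * π ^ m = (c2 * L) ^ m / N := by
      rw [← hNπ, mul_pow (N ^ (s - 1)) π m, ← pow_mul]
      have : m * (s - 1) = (m * (s - 1) - 1) + 1 := by
        have : 1 ≤ m * (s - 1) := Nat.mul_pos (by omega) (by omega)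
        omega
      have e : N ^ ((s - 1) * m) = N ^ (m * (s - 1) - 1) * N := by
        rw [← pow_succ, ← this, mul_comm]
      rw [e]; field_simp
    calc ((m * s : ℕ) : ℝ) ^ (s * m) * N ^ (m * (s - 1) - 1) * π ^ m
        = ((m * s : ℕ) : ℝ) ^ (s * m) * ((c2 * L) ^ m / N) := by rw [mul_assoc, e1]
      _ ≤ ((m * s : ℕ) : ℝ) ^ (s * m) * ((c2 * L) ^ m / n) := by
          gcongr
      _ = ((m * s : ℕ) : ℝ) ^ (s * m) * c2 ^ m * (L ^ m) / n := by rw [mul_pow]; ring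
      _ ≤ ((m * s : ℕ) : ℝ) ^ (s * m) * c2 ^ m * (L ^ (2 * t)) / n := by
          gcongr
          exact hm.2
  -- Q
  have hgood : ∀ T : Finset (Fin s ↪ Fin (s * n)), E1 Δ T → E2 F.card T → ∀ i ∈ T, ∀ S ⊆ T,
      Good (EA F) b p0 i S := by
    intro T hE1 hE2 i hi S hST
    refine good_of hk F hF hne hbal hV C1 (hqsum (Fin (s * n))) hN1 Δ hΔ1 T hE1 hE2 p0 Λ
      hp0pos hp01 hΛ1 ?_ ?_ i hi S hST
    · rw [hFt, hp0t, hΛ, hcardV]
      apply le_of_eq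
      push_cast
      rw [mul_pow]
      field_simp
    · refine le_trans ?_ (hm1 n hnm1)
      rw [hFt]
      have e1 : (((t * Δ : ℕ) : ℝ)) ^ t ≤ (2 * (t : ℝ)) ^ t * (n : ℝ) ^ (1 / (4 * (t : ℝ))) := by
        have e2 : (((t * Δ : ℕ) : ℝ)) ≤ 2 * t * (n : ℝ) ^ θ := by
          push_cast
          nlinarith
        calc (((t * Δ : ℕ) : ℝ)) ^ t ≤ (2 * t * (n : ℝ) ^ θ) ^ t := by
              gcongr
          _ = (2 * (t : ℝ)) ^ t * ((n : ℝ) ^ θ) ^ t := by rw [mul_pow]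
          _ = _ := by
              rw [← Real.rpow_natCast ((n : ℝ) ^ θ) t, ← Real.rpow_mul hn0.le]
              congr 2
              rw [hθ]; field_simp
      have e3 : (Fintype.card (Fin (s * n)) : ℝ) ^ (-(1 / (t : ℝ))) ≤
          (n : ℝ) ^ (-(1 / (t : ℝ))) := by
        apply Real.rpow_le_rpow_of_nonpos hn0 hNn
        have : 0 < 1 / (t : ℝ) := by positivity
        linarith
      calc C1 * (((t * Δ : ℕ) : ℝ)) ^ t * Λ * (Fintype.card (Fin (s * n)) : ℝ) ^ (-(1 / (t : ℝ)))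
          ≤ C1 * ((2 * (t : ℝ)) ^ t * (n : ℝ) ^ (1 / (4 * (t : ℝ)))) * Λ *
            (n : ℝ) ^ (-(1 / (t : ℝ))) := by gcongr
        _ = _ := by rw [hΛ]; ring
  exact core_bound F H hH b p0 π hp0pos hp01 hπ0 hπ1 (by rw [hFt]; exact hπp) Δ hgood ε h1 h2 h3
    p hp hp1

/-- the main theorem. -/
theorem main_theorem (k s t : ℕ) (hk : 2 ≤ k) (ht : 1 ≤ t) (α : ℝ) (hα : 0 < α) :
    ∃ C : ℝ, 0 < C ∧ ∀ d : ℕ, 1 ≤ d → d ≤ k - 1 → ∀ F : Finset (Finset (Fin s)),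
      (∀ e ∈ F, e.card = k) → F.card = t → StrictBal F →
      ∀ ε : ℝ, 0 < ε → ∃ n0 : ℕ, ∀ n ≥ n0,
      ∀ H : Fin (t * n) → Finset (Finset (Fin (s * n))), (∀ i, ∀ e ∈ H i, e.card = k) →
      (∀ i, DegGE d ((deltaT k s t d F + α) * ((s * n - d).choose (k - d) : ℝ)) (H i)) →
      ∀ p : ℝ, p ≤ 1 →
        C * (n : ℝ) ^ (-(((s : ℝ) - 1) / t)) * (Real.log n) ^ (1 / (t : ℝ)) ≤ p →
        1 - ε ≤ probG k p (fun G => HasTF F t n (fun i => H i ∩ G)) := by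
  classical
  -- choose C for every pair (d, F)
  have hex : ∀ x : Fin k × Finset (Finset (Fin s)), ∃ C : ℝ, 0 < C ∧
      (1 ≤ (x.1 : ℕ) → (∀ e ∈ x.2, e.card = k) → x.2.card = t → StrictBal x.2 →
      ∀ ε : ℝ, 0 < ε → ∃ n0 : ℕ, ∀ n ≥ n0,
      ∀ H : Fin (t * n) → Finset (Finset (Fin (s * n))), (∀ i, ∀ e ∈ H i, e.card = k) →
      (∀ i, DegGE (x.1 : ℕ) ((deltaT k s t (x.1 : ℕ) x.2 + α) *
        ((s * n - (x.1 : ℕ)).choose (k - (x.1 : ℕ)) : ℝ)) (H i)) →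
      ∀ p : ℝ, p ≤ 1 →
        C * (n : ℝ) ^ (-(((s : ℝ) - 1) / t)) * (Real.log n) ^ (1 / (t : ℝ)) ≤ p →
        1 - ε ≤ probG k p (fun G => HasTF x.2 t n (fun i => H i ∩ G))) := by
    intro x
    by_cases hx : 1 ≤ (x.1 : ℕ) ∧ (∀ e ∈ x.2, e.card = k) ∧ x.2.card = t ∧ StrictBal x.2
    · obtain ⟨h1, h2, h3, h4⟩ := hx
      obtain ⟨C, hC, h⟩ := final_fixed h1 x.1.2 ht α hα x.2 h2 h3 h4
      exact ⟨C, hC, fun _ _ _ _ => h⟩
    · refine ⟨1, one_pos, fun h1 h2 h3 h4 => absurd ⟨h1, h2, h3, h4⟩ hx⟩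
  choose Cf hCf1 hCf2 using hex
  refine ⟨1 + ∑ x, Cf x, ?_, ?_⟩
  · have : 0 ≤ ∑ x, Cf x := Finset.sum_nonneg (fun x _ => (hCf1 x).le)
    linarith
  · intro d hd1 hd2 F hF hFt hS ε hε
    have hdk : d < k := by omega
    obtain ⟨n0, hn0⟩ := hCf2 (⟨d, hdk⟩, F) hd1 hF hFt hS ε hε
    refine ⟨n0, fun n hn H hH hdeg p hp1 hp => hn0 n hn H hH hdeg p hp1 (le_trans ?_ hp)⟩
    have hle : Cf (⟨d, hdk⟩, F) ≤ 1 + ∑ x, Cf x := by
      have := Finset.single_le_sum (f := Cf) (fun x _ => (hCf1 x).le)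
        (Finset.mem_univ (⟨d, hdk⟩, F))
      linarith
    have hlog : 0 ≤ Real.log (n : ℝ) := by
      rcases Nat.eq_zero_or_pos n with h | h
      · rw [h]; simp
      · exact Real.log_nonneg (by exact_mod_cast h)
    gcongr

end Pool.Agent.TFactor
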